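import Pool.Agent.H47.SG.Ndaq
import Pool.Agent.H47.SF.Ndb
import Pool.Agent.H73.ES.Net

/-!
# [H47 SG NDBQ] the nondegeneracy condition (E2) holds outside a closed set of small measure
-/

set_option autoImplicit false

open Finset MeasureTheory
open Pool.H70.SF

namespace Pool.Agent.H47.SG

open Pool.Agent.H47.SF

open Pool.Agent.H73.ES (jv hm IsNet GG nn)

/-- the event at one pair of net points -/
def EvPq {d : ℕ} (Q s R : ℝ) (z w : ℂ × ℂ) : Set (CV d) :=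
  {X | ‖wd (FF X z) w‖ ≤ 4 * s * (s / (R * Real.sqrt d)) ∧ ‖hm (FF X z) w‖ ≤ 4 * s ∧
      ‖wd (jv X z 1) w‖ ≤ 56 * Q ^ 3 ∧ ‖wd (jv X z 2) w‖ ≤ 3 * Q ^ 7 * Real.sqrt d / s}

theorem evpq_closed {d : ℕ} (Q s R : ℝ) (z w : ℂ × ℂ) : IsClosed (EvPq (d := d) Q s R z w) := by
  have c0 := Pool.Agent.H73.ES.ff_cont (d := d) z
  have c1 := Pool.Agent.H73.ES.jv_cont (d := d) z 1
  have c2 := Pool.Agent.H73.ES.jv_cont (d := d) z 2
  have w0 : ∀ {f : CV d → ℂ × ℂ}, Continuous f → Continuous fun X => wd (f X) w := by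
    intro f hf; unfold wd; fun_prop
  have h0 : ∀ {f : CV d → ℂ × ℂ}, Continuous f → Continuous fun X => hm (f X) w := by
    intro f hf; unfold hm; fun_prop
  refine IsClosed.inter ?_ (IsClosed.inter ?_ (IsClosed.inter ?_ ?_))
  · exact isClosed_le (w0 c0).norm continuous_const
  · exact isClosed_le (h0 c0).norm continuous_const
  · exact isClosed_le (w0 c1).norm continuous_const
  · exact isClosed_le (w0 c2).norm continuous_const

/-- the measure of the event of one scale -/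
theorem scale_meas {d : ℕ} {Q R : ℝ} (S : Sq Q R d) {A : ℝ} (hA : 0 ≤ A) (X0 : CV d) {τ : ℝ} (hτ : 0 < τ)
    (hu : gau A X0 τ Set.univ ≤ 1) {s : ℝ} (hs : 0 < s) (hsR : s ≤ R) {N N' : Finset (ℂ × ℂ)}
    (hN : IsNet N (s / (500 * R * Real.sqrt d * Q ^ 2 * Real.log d))) (hN' : IsNet N' (s / (R * Real.sqrt d))) :
    gau A X0 τ (⋃ z ∈ N, ⋃ w ∈ N', EvPq Q s R z w) ≤
      ENNReal.ofReal (10 ^ 21 * R ^ 6 * Q ^ 24 * Real.log d ^ 2 / (d * τ ^ 8)) := by
  have hd2 := S.d2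
  have hd0 : (0 : ℝ) < d := by positivity
  have hsd : 0 < Real.sqrt d := Real.sqrt_pos.2 hd0
  have hR := S.R1
  have hR0 : 0 < R := by linarith
  have h4Q : (1000 : ℝ) ≤ Q := le_trans (by norm_num) S.q1
  have hQ0 : 0 < Q := by linarith
  have hss : Real.sqrt d ^ 2 = d := Real.sq_sqrt hd0.le
  have hsqrt : (1 : ℝ) ≤ Real.sqrt d := by
    have h1 : Q ≤ Real.sqrt d := by
      rw [← Real.sqrt_sq hQ0.le]
      exact Real.sqrt_le_sqrt S.qd
    linarith
  have hlog1 : 1 ≤ Real.log d := by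
    have : Q ≤ d := (le_self_pow₀ (by linarith) (by norm_num)).trans S.qd
    rw [Real.le_log_iff_exp_le hd0]
    have := Real.exp_one_lt_d9
    linarith
  have hlog : 0 < Real.log d := by linarith
  set η := s / (500 * R * Real.sqrt d * Q ^ 2 * Real.log d) with hη
  set ω := s / (R * Real.sqrt d) with hω
  have hη0 : 0 < η := by positivity
  have hω0 : 0 < ω := by positivity
  have hω1 : ω ≤ 1 := by
    rw [hω, div_le_one (by positivity)]
    nlinarith
  have hη1 : η ≤ 1 := by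
    rw [hη, div_le_one (by positivity)]
    have h1 : 1 ≤ Q ^ 2 := one_le_pow₀ (by linarith)
    calc s ≤ R := hsR
      _ ≤ 500 * R * 1 * 1 * 1 := by linarith
      _ ≤ 500 * R * Real.sqrt d * Q ^ 2 * Real.log d := by gcongr
  have hc1 := net_card hN hη1
  have hc2 := net_card hN' hω1
  set p : ℝ := 4 * (4 * s * ω * (4 * s) * (56 * Q ^ 3) * (3 * Q ^ 7 * Real.sqrt d / s)) ^ 2 /
    ((d : ℝ) ^ 3 * τ ^ 8) with hp
  have hp0 : 0 ≤ p := by positivity
  have hone : ∀ z ∈ N, ∀ w ∈ N', gau A X0 τ (EvPq Q s R z w) ≤ ENNReal.ofReal p := by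
    intro z hz w hw
    have h := Pool.Agent.H73.ES.m_start hA hd2 X0 hτ (hN.unit z hz) (hN'.unit w hw)
      (r1 := 4 * s * ω) (r2 := 4 * s) (r3 := 56 * Q ^ 3) (r4 := 3 * Q ^ 7 * Real.sqrt d / s)
      (by positivity) (by positivity) (by positivity) (by positivity)
    calc gau A X0 τ (EvPq Q s R z w) ≤ ENNReal.ofReal p * gau A X0 τ Set.univ := h
      _ ≤ ENNReal.ofReal p * 1 := by gcongr
      _ = ENNReal.ofReal p := mul_one _
  have h1 : gau A X0 τ (⋃ z ∈ N, ⋃ w ∈ N', EvPq Q s R z w) ≤ (N.card : ENNReal) * ((N'.card : ENNReal) * ENNReal.ofReal p) := by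
    refine (measure_biUnion_finset_le N _).trans ?_
    calc ∑ z ∈ N, gau A X0 τ (⋃ w ∈ N', EvPq Q s R z w) ≤ ∑ z ∈ N, (N'.card : ENNReal) * ENNReal.ofReal p := by
          refine Finset.sum_le_sum fun z hz => ?_
          refine (measure_biUnion_finset_le N' _).trans ?_
          calc ∑ w ∈ N', gau A X0 τ (EvPq Q s R z w) ≤ ∑ w ∈ N', ENNReal.ofReal p :=
                Finset.sum_le_sum fun w hw => hone z hz w hw
            _ = _ := by rw [Finset.sum_const, nsmul_eq_mul]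
      _ = _ := by rw [Finset.sum_const, nsmul_eq_mul]
  refine h1.trans ?_
  rw [← ENNReal.ofReal_natCast N.card, ← ENNReal.ofReal_natCast N'.card, ← ENNReal.ofReal_mul (by positivity),
    ← ENNReal.ofReal_mul (by positivity)]
  apply ENNReal.ofReal_le_ofReal
  calc (N.card : ℝ) * ((N'.card : ℝ) * p) ≤ (10000 / η ^ 2) * ((10000 / ω ^ 2) * p) := by gcongr
    _ = 10 ^ 8 * (4 * (4 * 4 * 56 * 3) ^ 2) * 500 ^ 2 * R ^ 2 * Q ^ 24 * Real.log d ^ 2 *
        ((Real.sqrt d ^ 2) ^ 2 / ((d : ℝ) ^ 3 * τ ^ 8)) := by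
        rw [hp, hη, hω]
        field_simp
        norm_num
    _ = 10 ^ 8 * (4 * (4 * 4 * 56 * 3) ^ 2) * 500 ^ 2 * R ^ 2 * Q ^ 24 * Real.log d ^ 2 /
        (d * τ ^ 8) := by
        rw [hss]; field_simp
    _ ≤ 10 ^ 21 * R ^ 6 * Q ^ 24 * Real.log d ^ 2 / (d * τ ^ 8) := by
        have h2 : R ^ 2 ≤ R ^ 6 := pow_le_pow_right₀ hR (by norm_num)
        apply div_le_div_of_nonneg_right _ (by positivity)
        calc 10 ^ 8 * (4 * (4 * 4 * 56 * 3) ^ 2) * 500 ^ 2 * R ^ 2 * Q ^ 24 * Real.log d ^ 2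
            ≤ 10 ^ 21 * R ^ 6 * Q ^ 24 * Real.log d ^ 2 := by
              gcongr
              norm_num
          _ = _ := by ring

/-- one scale -/
theorem scale_set {d : ℕ} {Q R : ℝ} (S : Sq Q R d) {A : ℝ} (hA : 0 ≤ A) (X0 : CV d) {τ : ℝ} (hτ : 0 < τ)
    (hu : gau A X0 τ Set.univ ≤ 1) {s : ℝ} (hs : 0 < s) (hsR : s ≤ R) :
    ∃ Z : Set (CV d), IsClosed Z ∧
      gau A X0 τ Z ≤ ENNReal.ofReal (10 ^ 21 * R ^ 6 * Q ^ 24 * Real.log d ^ 2 / (d * τ ^ 8)) ∧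
      ∀ X ∉ Z, GG R X → ∀ u, IsU u → s ≤ nuF X u → nuF X u ≤ 2 * s → ‖aa X u‖ * nuF X u < Q ^ 3 →
        ∃ t : ℂ, ‖t‖ < nuF X u / (16 * R * Real.sqrt d * Q ^ 2) ∧ Wc X u t = 0 := by
  have hd2 := S.d2
  have hd0 : (0 : ℝ) < d := by positivity
  have hsd : 0 < Real.sqrt d := Real.sqrt_pos.2 hd0
  have hR := S.R1
  have hR0 : 0 < R := by linarith
  have h4Q : (1000 : ℝ) ≤ Q := le_trans (by norm_num) S.q1
  have hQ0 : 0 < Q := by linarith
  have hsqrt : (1 : ℝ) ≤ Real.sqrt d := by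
    have h1 : Q ≤ Real.sqrt d := by
      rw [← Real.sqrt_sq hQ0.le]
      exact Real.sqrt_le_sqrt S.qd
    linarith
  have hlog1 : 1 ≤ Real.log d := by
    have : Q ≤ d := (le_self_pow₀ (by linarith) (by norm_num)).trans S.qd
    rw [Real.le_log_iff_exp_le hd0]
    have := Real.exp_one_lt_d9
    linarith
  have hlog : 0 < Real.log d := by linarith
  have hω1 : s / (R * Real.sqrt d) ≤ 1 := by
    rw [div_le_one (by positivity)]
    nlinarith
  have hη1 : s / (500 * R * Real.sqrt d * Q ^ 2 * Real.log d) ≤ 1 := by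
    rw [div_le_one (by positivity)]
    have h1 : 1 ≤ Q ^ 2 := one_le_pow₀ (by linarith)
    calc s ≤ R := hsR
      _ ≤ 500 * R * 1 * 1 * 1 := by linarith
      _ ≤ 500 * R * Real.sqrt d * Q ^ 2 * Real.log d := by gcongr
  obtain ⟨N, hN⟩ := Pool.Agent.H73.ES.exists_net (η := s / (500 * R * Real.sqrt d * Q ^ 2 * Real.log d))
    (by positivity) hη1
  obtain ⟨N', hN'⟩ := Pool.Agent.H73.ES.exists_net (η := s / (R * Real.sqrt d)) (by positivity) hω1
  refine ⟨⋃ z ∈ N, ⋃ w ∈ N', EvPq Q s R z w, ?_, scale_meas S hA X0 hτ hu hs hsR hN hN', ?_⟩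
  · apply Set.Finite.isClosed_biUnion N.finite_toSet
    intro z _
    apply Set.Finite.isClosed_biUnion N'.finite_toSet
    intro w _
    exact evpq_closed Q s R z w
  · intro X hX hG u hu' h1 h2 ha
    by_contra hcon
    push Not at hcon
    obtain ⟨z, hzN, hz⟩ := hN.cov u hu'
    have hzU := hN.unit z hzN
    have hzpos : 0 < nuF X z := lt_of_lt_of_le (by positivity) (hG z hzU).1
    obtain ⟨w, hwN, hw⟩ := hN'.cov (nx X z) (nx_isU hzpos)
    have hwU := hN'.unit w hwN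
    have key := nd_pointq S (fun v hv => (hG v hv).2) (fun v hv => (hG v hv).1) hu' ha hcon hs h1 h2 hzU hwU hz hw
    exact hX (Set.mem_biUnion hzN (Set.mem_biUnion hwN key))

/-- (E2) holds outside a closed set of measure at most `Q ^ 30 / (d τ ^ 8)` -/
theorem nd_eventq {d : ℕ} {Q R : ℝ} (S : Sq Q R d) {A : ℝ} (hA : 0 ≤ A) (X0 : CV d) {τ : ℝ} (hτ0 : 0 < τ)
    (hu : gau A X0 τ Set.univ ≤ 1) : ∃ Z : Set (CV d), IsClosed Z ∧
      gau A X0 τ Z ≤ ENNReal.ofReal (Q ^ 30 / (d * τ ^ 8)) ∧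
      ∀ X ∉ Z, GG R X → ∀ u, IsU u → ‖aa X u‖ * nuF X u < Q ^ 3 →
        ∃ t : ℂ, ‖t‖ < nuF X u / (16 * R * Real.sqrt d * Q ^ 2) ∧ Wc X u t = 0 := by
  classical
  have hR := S.R1
  have hRQ := S.Rq
  have hd2 := S.d2
  have hdp : (0 : ℝ) < d := by positivity
  have hR0 : 0 < R := by linarith
  have h4Q : (10 ^ 6 : ℝ) ≤ Q := S.q1
  have hQ0 : 0 < Q := by linarith
  have hQd : Q ≤ d := (le_self_pow₀ (by linarith) (by norm_num)).trans S.qd
  have hlog1 : 1 ≤ Real.log d := by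
    rw [Real.le_log_iff_exp_le hdp]
    have := Real.exp_one_lt_d9
    linarith
  have hq4 := S.q4
  set B : ℝ := 10 ^ 21 * R ^ 6 * Q ^ 24 * Real.log d ^ 2 / (d * τ ^ 8) with hB
  have hB0 : 0 ≤ B := by positivity
  have hsc : ∀ j : ℕ, ∃ Z : Set (CV d), IsClosed Z ∧ gau A X0 τ Z ≤ ENNReal.ofReal B ∧
      ((2 : ℝ) ^ j / d ≤ R → ∀ X ∉ Z, GG R X → ∀ u, IsU u → (2 : ℝ) ^ j / d ≤ nuF X u →
        nuF X u ≤ 2 * ((2 : ℝ) ^ j / d) → ‖aa X u‖ * nuF X u < Q ^ 3 →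
        ∃ t : ℂ, ‖t‖ < nuF X u / (16 * R * Real.sqrt d * Q ^ 2) ∧ Wc X u t = 0) := by
    intro j
    by_cases h : (2 : ℝ) ^ j / d ≤ R
    · obtain ⟨Z, h1, h2, h3⟩ := scale_set S hA X0 hτ0 hu (s := (2 : ℝ) ^ j / d) (by positivity) h
      exact ⟨Z, h1, h2, fun _ => h3⟩
    · exact ⟨∅, isClosed_empty, by simp, fun hh => absurd hh h⟩
  choose Z hZ1 hZ2 hZ3 using hsc
  set J := Nat.log 2 (d ^ 2) with hJ
  have hJlog : (J : ℝ) ≤ 3 * Real.log d := by
    have h1 : 2 ^ J ≤ d ^ 2 := Nat.pow_log_le_self 2 (by positivity)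
    have h2 : (2 : ℝ) ^ J ≤ (d : ℝ) ^ 2 := by exact_mod_cast h1
    have h3 := Real.log_le_log (by positivity) h2
    rw [Real.log_pow, Real.log_pow] at h3
    have h4 := Real.log_two_gt_d9
    push_cast at h3
    have h5 : (0 : ℝ) ≤ J := Nat.cast_nonneg J
    nlinarith
  refine ⟨⋃ j ∈ range (J + 1), Z j, ?_, ?_, ?_⟩
  · apply Set.Finite.isClosed_biUnion (range (J + 1)).finite_toSet
    intro j _
    exact hZ1 j
  · refine (measure_biUnion_finset_le (range (J + 1)) _).trans ?_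
    calc ∑ j ∈ range (J + 1), gau A X0 τ (Z j) ≤ ∑ j ∈ range (J + 1), ENNReal.ofReal B :=
          Finset.sum_le_sum fun j _ => hZ2 j
      _ = ((J + 1 : ℕ) : ENNReal) * ENNReal.ofReal B := by rw [Finset.sum_const, nsmul_eq_mul, card_range]
      _ = ENNReal.ofReal (((J + 1 : ℕ) : ℝ) * B) := by
          rw [← ENNReal.ofReal_natCast, ENNReal.ofReal_mul (by positivity)]
      _ ≤ ENNReal.ofReal (Q ^ 30 / (d * τ ^ 8)) := by
          apply ENNReal.ofReal_le_ofReal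
          have e2 : (((J + 1 : ℕ) : ℝ)) ≤ 4 * Real.log d := by push_cast; linarith
          have e3 : Real.log d ≤ Q / 10 ^ 6 := by rw [le_div_iff₀ (by norm_num)]; linarith
          have hR6 : R ^ 6 ≤ Q := (pow_le_pow_right₀ hR (by norm_num)).trans hRQ
          have e4 : B ≤ 10 ^ 21 * Q * Q ^ 24 * (Q / 10 ^ 6) ^ 2 / (d * τ ^ 8) := by
            rw [hB]
            gcongr
          calc ((J + 1 : ℕ) : ℝ) * B ≤ (4 * (Q / 10 ^ 6)) * (10 ^ 21 * Q * Q ^ 24 * (Q / 10 ^ 6) ^ 2 / (d * τ ^ 8)) := by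
                gcongr
                exact e2.trans (by gcongr)
            _ = (4 * 10 ^ 3) * Q ^ 28 / (d * τ ^ 8) := by ring
            _ ≤ Q ^ 2 * Q ^ 28 / (d * τ ^ 8) := by
                gcongr
                nlinarith
            _ = Q ^ 30 / (d * τ ^ 8) := by ring
  · intro X hX hG u hu' ha
    have hlo := (hG u hu').1
    have hhi := (hG u hu').2
    set ν := nuF X u with hν
    have hlo' : (d : ℝ)⁻¹ ≤ ν := hlo
    have hhi' : ν ≤ R := hhi
    have h1 : 1 ≤ ν * d := by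
      calc (1 : ℝ) = (d : ℝ)⁻¹ * d := by field_simp
        _ ≤ ν * d := by gcongr
    have hν0 : 0 < ν := lt_of_lt_of_le (by positivity) hlo'
    -- the scale
    set m := ⌊ν * d⌋₊ with hm
    have hm1 : 1 ≤ m := Nat.le_floor (by simpa using h1)
    set j := Nat.log 2 m with hj
    have hj1 : 2 ^ j ≤ m := Nat.pow_log_le_self 2 (by omega)
    have hj2 : m < 2 ^ (j + 1) := Nat.lt_pow_succ_log_self (by norm_num) m
    have hj1' : (2 : ℝ) ^ j ≤ ν * d := by
      calc (2 : ℝ) ^ j ≤ (m : ℝ) := by exact_mod_cast hj1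
        _ ≤ ν * d := Nat.floor_le (by positivity)
    have hj2' : ν * d ≤ (2 : ℝ) ^ (j + 1) := by
      have h2 : ν * d < (m : ℝ) + 1 := Nat.lt_floor_add_one _
      have h3 : (m : ℝ) + 1 ≤ (2 : ℝ) ^ (j + 1) := by exact_mod_cast hj2
      linarith
    have hRd : R ≤ d := by
      calc R ≤ R ^ 10 := le_self_pow₀ hR (by norm_num)
        _ ≤ Q := hRQ
        _ ≤ d := hQd
    have hjJ : j ∈ range (J + 1) := by
      rw [mem_range, Nat.lt_succ_iff, hJ]
      apply Nat.log_mono_right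
      have h2 : (m : ℝ) ≤ (d : ℝ) ^ 2 := by
        calc (m : ℝ) ≤ ν * d := Nat.floor_le (by positivity)
          _ ≤ d * d := by gcongr; linarith
          _ = (d : ℝ) ^ 2 := by ring
      exact_mod_cast h2
    have hs1 : (2 : ℝ) ^ j / d ≤ ν := by rw [div_le_iff₀ hdp]; exact hj1'
    have hs2 : ν ≤ 2 * ((2 : ℝ) ^ j / d) := by
      rw [← mul_div_assoc, le_div_iff₀ hdp]
      calc ν * d ≤ (2 : ℝ) ^ (j + 1) := hj2'
        _ = 2 * 2 ^ j := by ring
    have hXj : X ∉ Z j := fun h => hX (Set.mem_biUnion hjJ h)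
    exact hZ3 j (hs1.trans hhi') X hXj hG u hu' hs1 hs2 ha

end Pool.Agent.H47.SG
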