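import Pool.Agent.H47.SG.Ndbq
import Pool.Agent.H47.SF.C2

/-!
# [H47 SG WLQ] outside a small closed set the Wronskian is not too small near every point
-/

set_option autoImplicit false

open Finset MeasureTheory
open Pool.H70.SF

namespace Pool.Agent.H47.SG

open Pool.Agent.H47.SF

open Pool.Agent.H73.ES (jv hm IsNet GG nn)

/-- the event at one pair of net points -/
def EvW {d : ℕ} (R ρ ω : ℝ) (z w : ℂ × ℂ) : Set (CV d) :=
  {X | ‖wd (FF X z) w‖ ≤ R * ω ∧ ‖hm (FF X z) w‖ ≤ R ∧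
      ‖wd (jv X z 1) w‖ ≤ 4 * d * ρ ∧ ‖wd (jv X z 2) w‖ ≤ 2 * R * d}

theorem evw_closed {d : ℕ} (R ρ ω : ℝ) (z w : ℂ × ℂ) : IsClosed (EvW (d := d) R ρ ω z w) := by
  have c0 := Pool.Agent.H73.ES.ff_cont (d := d) z
  have c1 := Pool.Agent.H73.ES.jv_cont (d := d) z 1
  have c2 := Pool.Agent.H73.ES.jv_cont (d := d) z 2
  have w0 : ∀ {f : CV d → ℂ × ℂ}, Continuous f → Continuous fun X => wd (f X) w := by
    intro f hf; unfold wd; fun_prop
  have h0 : ∀ {f : CV d → ℂ × ℂ}, Continuous f → Continuous fun X => hm (f X) w := by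
    intro f hf; unfold hm; fun_prop
  refine IsClosed.inter ?_ (IsClosed.inter ?_ (IsClosed.inter ?_ ?_))
  · exact isClosed_le (w0 c0).norm continuous_const
  · exact isClosed_le (h0 c0).norm continuous_const
  · exact isClosed_le (w0 c1).norm continuous_const
  · exact isClosed_le (w0 c2).norm continuous_const

/-- the deterministic part -/
theorem wl_point {d : ℕ} {R ρ ω : ℝ} {X : CV d} (hd : 2 ≤ d) (hR : 1 ≤ R) (hG : GG R X) {z w : ℂ × ℂ} (hz : IsU z)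
    (hw : IsU w) (hω : ω ≤ 1 / 2) (hρω : 2 * R ^ 2 * Real.sqrt d * ω ≤ ρ)
    (h2 : ‖wd (nx X z) w‖ ≤ ω) (h3 : ‖Wc X z 0‖ ≤ ρ / 2) : X ∈ EvW R ρ ω z w := by
  have hd1 : 1 ≤ d := by omega
  have hd0 : (0 : ℝ) < d := by positivity
  have hR0 : 0 < R := by linarith
  have hsd : 0 < Real.sqrt d := Real.sqrt_pos.2 hd0
  have hss : Real.sqrt d ^ 2 = d := Real.sq_sqrt hd0.le
  set ν := nuF X z with hν
  have hνlo : (d : ℝ)⁻¹ ≤ ν := (hG z hz).1
  have hνhi : ν ≤ R := (hG z hz).2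
  have hν0 : 0 < ν := lt_of_lt_of_le (by positivity) hνlo
  have hω0 : 0 ≤ ω := (norm_nonneg _).trans h2
  have hnx : nx X z = ((ν⁻¹ : ℝ) : ℂ) • FF X z := rfl
  have hnn : ν = Pool.Agent.H73.ES.nn (FF X z) := rfl
  have hF1 : ‖wd (FF X z) w‖ = ν * ‖wd (nx X z) w‖ := by
    have : wd (nx X z) w = ((ν⁻¹ : ℝ) : ℂ) * wd (FF X z) w := by
      rw [hnx]; unfold wd
      simp only [Prod.smul_fst, Prod.smul_snd, smul_eq_mul]; ring
    rw [this, norm_mul, Complex.norm_real, Real.norm_of_nonneg (by positivity)]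
    field_simp
  have hF1' : ‖wd (FF X z) w‖ ≤ ν * ω := by rw [hF1]; gcongr
  have r2 : ‖hm (FF X z) w‖ ≤ ν := by
    have h := Pool.Agent.H73.ES.hm_le (FF X z) w
    have h' : Pool.Agent.H73.ES.nn w = 1 := by
      unfold Pool.Agent.H73.ES.nn
      rw [show n2 w = 1 from hw, Real.sqrt_one]
    rwa [h', mul_one, ← hnn] at h
  have hhm : 1 / 2 * ν ≤ ‖hm (FF X z) w‖ := by
    have hl := Pool.Agent.H73.ES.lag (FF X z) w
    rw [show n2 w = 1 from hw, mul_one, ← nuF_sq] at hl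
    have h5 : ‖wd (FF X z) w‖ ^ 2 ≤ (ν * (1/2)) ^ 2 :=
      pow_le_pow_left₀ (norm_nonneg _) (hF1'.trans (by gcongr)) 2
    have h6 : (1 / 2 * ν) ^ 2 ≤ ‖hm (FF X z) w‖ ^ 2 := by
      have h8 : nuF X z ^ 2 = ν ^ 2 := rfl
      rw [h8] at hl
      nlinarith [sq_nonneg ν]
    exact le_of_sq_le_sq h6 (norm_nonneg _)
  have hjet := Pool.Agent.H73.ES.cau_jet hd1 (X := X) (R := R) (fun u hu => (hG u hu).2) hz
  have hnj : ∀ k, ‖wd (jv X z k) w‖ ≤ 2 * R * Real.sqrt d ^ k := by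
    intro k
    have h := Pool.Agent.H73.ES.wd_le (jv X z k) w
    have h' : Pool.Agent.H73.ES.nn w = 1 := by
      unfold Pool.Agent.H73.ES.nn
      rw [show n2 w = 1 from hw, Real.sqrt_one]
    rw [h', mul_one] at h
    exact h.trans (hjet k)
  refine ⟨hF1'.trans (by gcongr), r2.trans hνhi, ?_, ?_⟩
  · have ht := target (F := FF X z) (G := jv X z 1) hw
    rw [← Wc_zero_jv hd1 X hz] at ht
    have hj := hjet 1
    rw [pow_one] at hj
    have e1 : ‖wd (FF X z) w‖ * Pool.Agent.H73.ES.nn (jv X z 1) ≤ ν * ω * (2 * R * Real.sqrt d) := by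
      apply mul_le_mul hF1' hj (Real.sqrt_nonneg _) (by positivity)
    have e2 : ν * ω * (2 * R * Real.sqrt d) ≤ ρ := by
      calc ν * ω * (2 * R * Real.sqrt d) ≤ R * ω * (2 * R * Real.sqrt d) := by gcongr
        _ = 2 * R ^ 2 * Real.sqrt d * ω := by ring
        _ ≤ ρ := hρω
    have hρ0 : 0 ≤ ρ := le_trans (by positivity) hρω
    have e4 : 1 / 2 * (d : ℝ)⁻¹ * ‖wd (jv X z 1) w‖ ≤ 1 / 2 * (d : ℝ)⁻¹ * (4 * d * ρ) := by
      calc 1 / 2 * (d : ℝ)⁻¹ * ‖wd (jv X z 1) w‖ ≤ 1 / 2 * ν * ‖wd (jv X z 1) w‖ := by gcongr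
        _ ≤ ‖hm (FF X z) w‖ * ‖wd (jv X z 1) w‖ := by gcongr
        _ ≤ 2 * ρ := by linarith
        _ = 1 / 2 * (d : ℝ)⁻¹ * (4 * d * ρ) := by field_simp; ring
    exact le_of_mul_le_mul_left e4 (by positivity)
  · have h := hnj 2
    rwa [hss] at h

/-- the Wronskian is not too small near every point, outside a closed set of small measure -/
theorem wl_event {d : ℕ} {R : ℝ} (hd : 2 ≤ d) (hR : 1 ≤ R) {A : ℝ} (hA : 0 ≤ A) (X0 : CV d) {τ : ℝ} (hτ : 0 < τ)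
    (hu : gau A X0 τ Set.univ ≤ 1) : ∃ Z : Set (CV d), IsClosed Z ∧
      gau A X0 τ Z ≤ ENNReal.ofReal (10 ^ 12 * R ^ 6 / ((d : ℝ) ^ 3 * τ ^ 8)) ∧
      ∀ X ∉ Z, GG R X → ∀ u, IsU u → ∃ t : ℂ, ‖t‖ ≤ 2 / d ∧ 1 / (2 * (d : ℝ) ^ 3) ≤ ‖Wc X u t‖ := by
  classical
  have hdR : (2 : ℝ) ≤ d := by exact_mod_cast hd
  have hd0 : (0 : ℝ) < d := by linarith
  have hR0 : 0 < R := by linarith
  have hsd : 0 < Real.sqrt d := Real.sqrt_pos.2 hd0
  have hss : Real.sqrt d ^ 2 = d := Real.sq_sqrt hd0.le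
  have hsqrt : (1 : ℝ) ≤ Real.sqrt d := by
    rw [Real.one_le_sqrt]; linarith
  set ρ : ℝ := 1 / (d : ℝ) ^ 3 with hρ
  set ω : ℝ := ρ / (2 * R ^ 2 * Real.sqrt d) with hω
  have hρ0 : 0 < ρ := by positivity
  have hω0 : 0 < ω := by positivity
  have hρ1 : ρ ≤ 1 := by
    rw [hρ, div_le_one (by positivity)]
    exact one_le_pow₀ (by linarith)
  have hω1 : ω ≤ 1 / 2 := by
    rw [hω, div_le_div_iff₀ (by positivity) (by norm_num)]
    have : 1 ≤ R ^ 2 * Real.sqrt d := one_le_mul_of_one_le_of_one_le (one_le_pow₀ hR) hsqrt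
    nlinarith
  set η : ℝ := 1 / d with hη
  have hη0 : 0 < η := by positivity
  have hη1 : η ≤ 1 / 2 := by
    rw [hη]; exact one_div_le_one_div_of_le (by norm_num) hdR
  obtain ⟨N, hN⟩ := Pool.Agent.H73.ES.exists_net (η := η) hη0 (by linarith)
  obtain ⟨N', hN'⟩ := Pool.Agent.H73.ES.exists_net (η := ω) hω0 (by linarith)
  have hc1 := net_card hN (by linarith)
  have hc2 := net_card hN' (by linarith)
  set p : ℝ := 4 * (R * ω * R * (4 * d * ρ) * (2 * R * d)) ^ 2 / ((d : ℝ) ^ 3 * τ ^ 8) with hp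
  have hp0 : 0 ≤ p := by positivity
  have hone : ∀ z ∈ N, ∀ w ∈ N', gau A X0 τ (EvW R ρ ω z w) ≤ ENNReal.ofReal p := by
    intro z hz w hw
    have h := Pool.Agent.H73.ES.m_start hA hd X0 hτ (hN.unit z hz) (hN'.unit w hw)
      (r1 := R * ω) (r2 := R) (r3 := 4 * d * ρ) (r4 := 2 * R * d)
      (by positivity) (by positivity) (by positivity) (by positivity)
    calc gau A X0 τ (EvW R ρ ω z w) ≤ ENNReal.ofReal p * gau A X0 τ Set.univ := h
      _ ≤ ENNReal.ofReal p * 1 := by gcongr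
      _ = ENNReal.ofReal p := mul_one _
  refine ⟨⋃ z ∈ N, ⋃ w ∈ N', EvW R ρ ω z w, ?_, ?_, ?_⟩
  · apply Set.Finite.isClosed_biUnion N.finite_toSet
    intro z _
    apply Set.Finite.isClosed_biUnion N'.finite_toSet
    intro w _
    exact evw_closed R ρ ω z w
  · have h1 : gau A X0 τ (⋃ z ∈ N, ⋃ w ∈ N', EvW R ρ ω z w) ≤
        (N.card : ENNReal) * ((N'.card : ENNReal) * ENNReal.ofReal p) := by
      refine (measure_biUnion_finset_le N _).trans ?_
      calc ∑ z ∈ N, gau A X0 τ (⋃ w ∈ N', EvW R ρ ω z w) ≤ ∑ z ∈ N, (N'.card : ENNReal) * ENNReal.ofReal p := by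
            refine Finset.sum_le_sum fun z hz => ?_
            refine (measure_biUnion_finset_le N' _).trans ?_
            calc ∑ w ∈ N', gau A X0 τ (EvW R ρ ω z w) ≤ ∑ w ∈ N', ENNReal.ofReal p :=
                  Finset.sum_le_sum fun w hw => hone z hz w hw
              _ = _ := by rw [Finset.sum_const, nsmul_eq_mul]
        _ = _ := by rw [Finset.sum_const, nsmul_eq_mul]
    refine h1.trans ?_
    rw [← ENNReal.ofReal_natCast N.card, ← ENNReal.ofReal_natCast N'.card, ← ENNReal.ofReal_mul (by positivity),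
      ← ENNReal.ofReal_mul (by positivity)]
    apply ENNReal.ofReal_le_ofReal
    calc (N.card : ℝ) * ((N'.card : ℝ) * p) ≤ (10000 / η ^ 2) * ((10000 / ω ^ 2) * p) := by gcongr
      _ = 10 ^ 8 * 256 * R ^ 6 / ((d : ℝ) ^ 3 * τ ^ 8) := by
          rw [hp, hη, hρ]
          field_simp
          norm_num
      _ ≤ 10 ^ 12 * R ^ 6 / ((d : ℝ) ^ 3 * τ ^ 8) := by
          gcongr
          norm_num
  · intro X hX hG u hu'
    obtain ⟨z, hzN, hz⟩ := hN.cov u hu'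
    have hzU := hN.unit z hzN
    have hzpos : 0 < nuF X z := lt_of_lt_of_le (by positivity) (hG z hzU).1
    obtain ⟨w, hwN, hw⟩ := hN'.cov (nx X z) (nx_isU hzpos)
    have hwU := hN'.unit w hwN
    obtain ⟨lam, t, hzt, hlt, hwt⟩ := exists_chart hu' hzU (by linarith)
    have hWz : ρ / 2 < ‖Wc X z 0‖ := by
      by_contra hcon
      push Not at hcon
      refine hX (Set.mem_biUnion hzN (Set.mem_biUnion hwN ?_))
      refine wl_point hd hR hG hzU hwU hω1 (le_of_eq ?_) hw hcon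
      rw [hω]
      field_simp
    have hc2 := c2_gen hd X hu' (lam := lam) (t := t) hlt
    rw [← hzt] at hc2
    have hwn : ‖lam‖ * ‖t‖ = ‖wd u z‖ := by rw [hwt, norm_mul]
    refine ⟨t, ?_, ?_⟩
    · -- ‖t‖ ≤ 2 ‖wd u z‖
      have h5 : ‖wd u z‖ ≤ 1 / 2 := hz.trans hη1
      have h6 : 1 / 2 ≤ ‖lam‖ := by
        by_contra hcon
        push Not at hcon
        have h7 : ‖lam‖ ^ 2 * ‖t‖ ^ 2 ≤ 1 / 4 := by
          rw [← mul_pow, hwn]
          nlinarith [norm_nonneg (wd u z)]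
        nlinarith [norm_nonneg lam]
      have h8 : 1 / 2 * ‖t‖ ≤ ‖lam‖ * ‖t‖ := by gcongr
      rw [hwn] at h8
      have h9 : 2 / (d : ℝ) = 2 * η := by rw [hη]; ring
      rw [h9]
      linarith
    · have h5 : 1 / (2 * (d : ℝ) ^ 3) = ρ / 2 := by rw [hρ]; field_simp
      rw [h5]
      exact hWz.le.trans hc2.2

end Pool.Agent.H47.SG
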