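import Pool.Agent.H47.SG.Cmp
import Pool.Agent.H47.SF.Fac
import Pool.Agent.H47.SF.C2
import Pool.Agent.H47.SF.Crx
import Pool.Agent.H41.SX.Def

/-!
# [H47 SG CRNQ] critical points near the points with small derivative (condition `crit` of `Rg`)
-/

set_option autoImplicit false

open Finset
open Pool.H70.SF

namespace Pool.Agent.H47.SG

open Pool.Agent.H47.SF

open Pool.Agent.H73.ES (GG)
open Pool.Agent.H41.SX (NDx)

/-- the zero of least modulus -/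
theorem zmin {d : ℕ} {X : CV d} {u : ℂ × ℂ} {r : ℝ} (h0 : Wc X u 0 ≠ 0)
    (hz : ∃ t : ℂ, ‖t‖ < r ∧ Wc X u t = 0) :
    ∃ tc : ℂ, 0 < ‖tc‖ ∧ ‖tc‖ < r ∧ Wc X u tc = 0 ∧ ∀ z : ℂ, Wc X u z = 0 → ‖tc‖ ≤ ‖z‖ := by
  classical
  obtain ⟨t, ht, htz⟩ := hz
  obtain ⟨q, hq⟩ := Wc_poly X u
  have hq0 : q ≠ 0 := by
    rintro rfl
    apply h0
    rw [← hq 0, Polynomial.eval_zero]
  have hroot : ∀ z, Wc X u z = 0 ↔ z ∈ q.roots.toFinset := by
    intro z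
    rw [Multiset.mem_toFinset, Polynomial.mem_roots hq0, Polynomial.IsRoot.def, hq]
  obtain ⟨tc, htc, hmin⟩ := Finset.exists_min_image q.roots.toFinset (fun z => ‖z‖)
    ⟨t, (hroot t).1 htz⟩
  have htc0 : Wc X u tc = 0 := (hroot tc).2 htc
  refine ⟨tc, ?_, (hmin t ((hroot t).1 htz)).trans_lt ht, htc0, fun z hz => hmin z ((hroot z).1 hz)⟩
  rw [norm_pos_iff]
  rintro rfl
  exact h0 htc0

/-- the critical point and the derivative of the Wronskian -/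
theorem zder {d : ℕ} (hd2 : 2 ≤ d) {R : ℝ} {X : CV d} (hG : GG R X) {u : ℂ × ℂ} (hu : IsU u) {lam tc : ℂ}
    (hl : ‖lam‖ ^ 2 * (1 + ‖tc‖ ^ 2) = 1) (hc : IsU (lam • (u + tc • pp u))) (hz : Wc X u tc = 0)
    (hf : ∀ c, IsU c → JJ X c = 0 → 1 ≤ f2 X c) :
    JJ X (lam • (u + tc • pp u)) = 0 ∧ ((d : ℝ) ^ 2)⁻¹ ≤ ‖deriv (Wc X u) tc‖ ∧
      n2 (FF X (lam • (u + tc • pp u))) ≤ ‖deriv (Wc X u) tc‖ := by
  have hd0 : (0 : ℝ) < d := by exact_mod_cast (by omega : 0 < d)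
  have hdC : (d : ℂ) ≠ 0 := by
    have : d ≠ 0 := by omega
    exact_mod_cast this
  have hJ0 : JJ X (u + tc • pp u) = 0 := by
    unfold Wc at hz
    rcases div_eq_zero_iff.1 hz with h | h
    · exact h
    · exact absurd h hdC
  have hJ : JJ X (lam • (u + tc • pp u)) = 0 := by
    rw [Pool.Agent.H47.SF.JJ_smul, hJ0, mul_zero]
  set c := lam • (u + tc • pp u) with hcdef
  have hW : Wc X c 0 = 0 := by
    unfold Wc
    rw [zero_smul, add_zero, hJ, zero_div]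
  have hgen := (c2_gen hd2 X hu hl).1
  rw [← hcdef, hW, norm_zero, mul_zero, add_zero] at hgen
  have hlo : (d : ℝ)⁻¹ ≤ nuF X c := (hG c hc).1
  have hnu : 0 < nuF X c := lt_of_lt_of_le (by positivity) hlo
  have hn2 : 0 < n2 (FF X c) := by
    rw [← nuF_sq]
    positivity
  have hf2 : f2 X c * n2 (FF X c) = ‖deriv (Wc X c) 0‖ := by
    unfold f2
    rw [div_mul_cancel₀ _ hn2.ne']
  have h3 : f2 X c * n2 (FF X c) ≤ ‖deriv (Wc X u) tc‖ := by rw [hf2]; exact hgen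
  have h4 : n2 (FF X c) ≤ ‖deriv (Wc X u) tc‖ := by
    refine le_trans ?_ h3
    calc n2 (FF X c) = 1 * n2 (FF X c) := (one_mul _).symm
      _ ≤ f2 X c * n2 (FF X c) := mul_le_mul_of_nonneg_right (hf c hc hJ) hn2.le
  refine ⟨hJ, le_trans ?_ h4, h4⟩
  rw [← nuF_sq, ← inv_pow]
  exact pow_le_pow_left₀ (by positivity) hlo 2

/-- the Wronskian near the zero of least modulus -/
theorem zfac {N C d : ℕ} {Q R : ℝ} (L : Lq N C Q R d) (hC : 2 ≤ C) (h3N : 3 ^ (N + 2) ≤ d) {X : CV d}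
    (hG : GG R X) {u : ℂ × ℂ} (hu : IsU u) {tc : ℂ} (h0 : 0 < ‖tc‖)
    (h1 : ‖tc‖ < nuF X u / (16 * R * Real.sqrt d * Q ^ 2)) (hz : Wc X u tc = 0)
    (hmin : ∀ z : ℂ, Wc X u z = 0 → ‖tc‖ ≤ ‖z‖) (hder : ((d : ℝ) ^ 2)⁻¹ ≤ ‖deriv (Wc X u) tc‖)
    {t : ℂ} (ht : ‖t‖ ≤ 2 * ‖tc‖) :
    ‖Wc X u t‖ ≤ 3 ^ (N + 1) * ‖Wc X u 0‖ := by
  have hd2 := L.d2
  have hd1 : 1 ≤ d := by omega
  have hd0 : (0 : ℝ) < d := by exact_mod_cast hd1
  have hd1' : (1 : ℝ) ≤ d := by exact_mod_cast hd1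
  have hsd : 0 < Real.sqrt d := Real.sqrt_pos.2 hd0
  have hsd1 : 1 ≤ Real.sqrt d := by rw [Real.one_le_sqrt]; exact hd1'
  have hss : Real.sqrt d * Real.sqrt d = d := Real.mul_self_sqrt hd0.le
  have hsdd : Real.sqrt d ≤ d := by nlinarith
  have hR := L.R1
  have hR0 : 0 < R := by linarith
  have hQ := L.q1
  have hQ0 : 0 < Q := by linarith
  have hsQ0 : 0 < Real.sqrt Q := Real.sqrt_pos.2 hQ0
  have hsQ : Real.sqrt Q * Real.sqrt Q = Q := Real.mul_self_sqrt hQ0.le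
  have hνR : nuF X u ≤ R := (hG u hu).2
  obtain ⟨q, hq⟩ := Wc_poly X u
  have hqe : (fun z => q.eval z) = Wc X u := funext hq
  have hdr : ∀ z, (Polynomial.derivative q).eval z = deriv (Wc X u) z := by
    intro z
    rw [← hqe, Polynomial.deriv]
  have h2 : ‖tc‖ ≤ 1 / (16 * Real.sqrt d * Q ^ 2) := by
    refine h1.le.trans ?_
    calc nuF X u / (16 * R * Real.sqrt d * Q ^ 2) ≤ R / (16 * R * Real.sqrt d * Q ^ 2) := by gcongr
      _ = 1 / (16 * Real.sqrt d * Q ^ 2) := by field_simp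
  have h3Nr : (3 : ℝ) ^ (N + 2) ≤ d := by exact_mod_cast h3N
  have h2N : 4 * (2 : ℝ) ^ N ≤ d := by
    refine le_trans ?_ h3Nr
    have : (2 : ℝ) ^ N ≤ 3 ^ N := pow_le_pow_left₀ (by norm_num) (by norm_num) N
    rw [pow_add]
    have h5 : (0 : ℝ) < 3 ^ N := by positivity
    linarith
  have hN : 2 * (8 * R ^ 2 * Real.sqrt d) / (1 / (2 * Real.sqrt d)) *
      (4 * (1 / (2 * Real.sqrt d * Q)) / (1 / (2 * Real.sqrt d))) ^ N < ((d : ℝ) ^ 2)⁻¹ := by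
    have e1 : 4 * (1 / (2 * Real.sqrt d * Q)) / (1 / (2 * Real.sqrt d)) = 2 * (2 / Q) := by
      field_simp
      norm_num
    rw [e1, mul_pow]
    calc 2 * (8 * R ^ 2 * Real.sqrt d) / (1 / (2 * Real.sqrt d)) * (2 ^ N * (2 / Q) ^ N) =
          (4 * 2 ^ N) * Real.sqrt d * (8 * R ^ 2 * Real.sqrt d * (2 / Q) ^ N) := by
          rw [div_div_eq_mul_div, div_one]
          ring
      _ < (4 * 2 ^ N) * Real.sqrt d * ((d : ℝ) ^ (C + 2))⁻¹ :=
          mul_lt_mul_of_pos_left L.hN (by positivity)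
      _ ≤ d * d * ((d : ℝ) ^ (C + 2))⁻¹ := by gcongr
      _ ≤ (d : ℝ) ^ C * ((d : ℝ) ^ (C + 2))⁻¹ := by
          gcongr
          calc (d : ℝ) * d = (d : ℝ) ^ 2 := by ring
            _ ≤ _ := pow_le_pow_right₀ hd1' hC
      _ = ((d : ℝ) ^ 2)⁻¹ := by
          rw [pow_add, mul_inv, ← mul_assoc, mul_inv_cancel₀ (by positivity), one_mul]
  have hF := fac (W := q) (R0 := 1 / (2 * Real.sqrt d)) (R2 := 1 / (2 * Real.sqrt d * Q))
    (M := 8 * R ^ 2 * Real.sqrt d) (μ := ((d : ℝ) ^ 2)⁻¹) (ρ := ‖tc‖) (c := tc) (by positivity) (by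
      rw [div_le_div_iff₀ (by positivity) (by norm_num)]
      linarith) (by positivity) (by
      rw [show (1 : ℝ) / (2 * Real.sqrt d * Q) = 1 / (2 * Real.sqrt d) * (1 / Q) by field_simp]
      have h1 : 4 * (1 / Q) < 1 := by
        rw [← mul_div_assoc, div_lt_one hQ0]; linarith
      have h2 : 0 < 1 / (2 * Real.sqrt d) := by positivity
      nlinarith) (by
      intro t ht
      rw [hq]
      refine bndW hd1 hR0.le (fun u hu => (hG u hu).2) hu ?_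
      rw [le_div_iff₀ (by positivity)] at ht
      linarith) (by rw [hq]; exact hz) rfl h0 (fun z hz' => hmin z (by rw [← hq]; exact hz')) (by
      calc 10 * ‖tc‖ ≤ 10 * (1 / (16 * Real.sqrt d * Q ^ 2)) := by gcongr
        _ = (5 / 4 * (1 / Q)) * (1 / (2 * Real.sqrt d * Q)) := by field_simp; ring
        _ ≤ 1 * (1 / (2 * Real.sqrt d * Q)) := by
            gcongr
            have : 1 / Q ≤ 1 / 10 ^ 6 := one_div_le_one_div_of_le (by norm_num) hQ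
            linarith
        _ = _ := one_mul _)
    (by positivity) (by rw [hdr]; exact hder) (N := N) hN ht
  rw [hq, hq] at hF
  refine hF.trans ?_
  have hlg : Real.log (8 * R ^ 2 * Real.sqrt d * (2 / (1 / (2 * Real.sqrt d))) ^ N / ((d : ℝ) ^ 2)⁻¹) ≤
      Real.sqrt Q / 40 := by
    have e1 : 8 * R ^ 2 * Real.sqrt d * (2 / (1 / (2 * Real.sqrt d))) ^ N / ((d : ℝ) ^ 2)⁻¹ =
        8 * R ^ 2 * Real.sqrt d * (4 * Real.sqrt d) ^ N * (d : ℝ) ^ 2 := by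
      rw [div_inv_eq_mul]
      congr 3
      field_simp
      norm_num
    rw [e1]
    have h5 : Real.log (8 * R ^ 2 * Real.sqrt d * (4 * Real.sqrt d) ^ N * (d : ℝ) ^ 2) ≤
        Real.log (8 * R ^ 2 * Real.sqrt d * (4 * Real.sqrt d) ^ N * (d : ℝ) ^ (C + 2)) := by
      apply Real.log_le_log (by positivity)
      have h7 : (d : ℝ) ^ 2 ≤ (d : ℝ) ^ (C + 2) := pow_le_pow_right₀ hd1' (by omega)
      gcongr
    have h6 := L.hl
    linarith
  have hexp : Real.exp (20 * ‖tc‖ / (1 / (2 * Real.sqrt d * Q)) *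
      Real.log (8 * R ^ 2 * Real.sqrt d * (2 / (1 / (2 * Real.sqrt d))) ^ N / ((d : ℝ) ^ 2)⁻¹)) ≤ 3 := by
    have h7 : 20 * ‖tc‖ / (1 / (2 * Real.sqrt d * Q)) ≤ 5 / 2 / Q := by
      calc 20 * ‖tc‖ / (1 / (2 * Real.sqrt d * Q)) ≤
            20 * (1 / (16 * Real.sqrt d * Q ^ 2)) / (1 / (2 * Real.sqrt d * Q)) := by gcongr
        _ = 5 / 2 / Q := by field_simp; norm_num
    have h8 : 20 * ‖tc‖ / (1 / (2 * Real.sqrt d * Q)) *
        Real.log (8 * R ^ 2 * Real.sqrt d * (2 / (1 / (2 * Real.sqrt d))) ^ N / ((d : ℝ) ^ 2)⁻¹) ≤ 1 := by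
      calc _ ≤ 20 * ‖tc‖ / (1 / (2 * Real.sqrt d * Q)) * (Real.sqrt Q / 40) := by
            apply mul_le_mul_of_nonneg_left hlg
            positivity
        _ ≤ 5 / 2 / Q * (Real.sqrt Q / 40) := by gcongr
        _ ≤ 1 := by
            have h9 : Real.sqrt Q ≤ Q := by
              have : 1 ≤ Real.sqrt Q := by rw [Real.one_le_sqrt]; linarith
              nlinarith
            rw [div_mul_div_comm, div_le_one (by positivity)]
            linarith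
    refine (Real.exp_le_exp.2 h8).trans ?_
    have := Real.exp_one_lt_d9
    linarith
  apply mul_le_mul_of_nonneg_right _ (norm_nonneg _)
  calc (3 : ℝ) ^ N * _ ≤ 3 ^ N * 3 := mul_le_mul_of_nonneg_left hexp (by positivity)
    _ = 3 ^ (N + 1) := (pow_succ (3 : ℝ) N).symm

/-- a critical point near every point, at a distance at most a multiple of the derivative -/
theorem crnq {N C d : ℕ} {Q R : ℝ} (L : Lq N C Q R d) (hC : 2 ≤ C) (h3N : 3 ^ (N + 2) ≤ d) {X : CV d}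
    (hG : GG R X) (hnd : NDx Q R X) (hf : ∀ c, IsU c → JJ X c = 0 → 1 ≤ f2 X c) :
    ∀ u, IsU u → ∃ c, IsU c ∧ JJ X c = 0 ∧ ‖wd u c‖ ≤ (d : ℝ) ^ 5 / 2 * ‖aa X u‖ := by
  intro u hu
  have hd2 := L.d2
  have hd1 : 1 ≤ d := by omega
  have hd0 : (0 : ℝ) < d := by exact_mod_cast hd1
  have hd1' : (1 : ℝ) ≤ d := by exact_mod_cast hd1
  have hsd : 0 < Real.sqrt d := Real.sqrt_pos.2 hd0
  have hss : Real.sqrt d * Real.sqrt d = d := Real.mul_self_sqrt hd0.le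
  have hR := L.R1
  have hR0 : 0 < R := by linarith
  have hQ := L.q1
  have hQ0 : 0 < Q := by linarith
  have hQ1 : 1 ≤ Q := by linarith
  have hν0 : 0 < nuF X u := lt_of_lt_of_le (by positivity) (hG u hu).1
  have hνR : nuF X u ≤ R := (hG u hu).2
  have ha0 := norm_nonneg (aa X u)
  have hd2' : (2 : ℝ) ≤ d := by exact_mod_cast hd2
  have hd5 : 1 ≤ (d : ℝ) ^ 5 / 2 := by
    have : (2 : ℝ) ^ 5 ≤ (d : ℝ) ^ 5 := pow_le_pow_left₀ (by norm_num) hd2' 5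
    linarith
  rcases le_or_gt (Q ^ 3) (‖aa X u‖ * nuF X u) with hcase | hcase
  · -- not deep
    obtain ⟨c, hc, hJ⟩ := crit_exists hd2 X
    refine ⟨c, hc, hJ, (wd_le_one hu hc).trans ?_⟩
    have h1 : R ≤ Q := by
      refine le_trans ?_ L.Rq
      exact le_self_pow₀ hR (by norm_num)
    have h2 : R ≤ Q ^ 3 := h1.trans (le_self_pow₀ hQ1 (by norm_num))
    have h3 : 1 ≤ ‖aa X u‖ := by
      by_contra hcon
      rw [not_le] at hcon
      have : ‖aa X u‖ * nuF X u < 1 * R := by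
        calc ‖aa X u‖ * nuF X u ≤ ‖aa X u‖ * R := by gcongr
          _ < 1 * R := mul_lt_mul_of_pos_right hcon hR0
      linarith
    nlinarith
  -- deep
  by_cases hW0 : Wc X u 0 = 0
  · refine ⟨u, hu, ?_, ?_⟩
    · have hdC : (d : ℂ) ≠ 0 := by
        have : d ≠ 0 := by omega
        exact_mod_cast this
      unfold Wc at hW0
      rw [zero_smul, add_zero] at hW0
      rcases div_eq_zero_iff.1 hW0 with h | h
      · exact h
      · exact absurd h hdC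
    · have : wd u u = 0 := by
        unfold wd
        ring
      rw [this, norm_zero]
      positivity
  obtain ⟨tc, htc0, htc1, hz, hmin⟩ := zmin hW0 (hnd u hu hcase)
  obtain ⟨lam, hl, hc, hwd⟩ := isU_chart hu tc
  obtain ⟨hJ, hder, hn2⟩ := zder hd2 hG hu hl hc hz hf
  have hlam1 : ‖lam‖ ^ 2 ≤ 1 := by
    nlinarith [sq_nonneg ‖lam‖, sq_nonneg ‖tc‖, mul_nonneg (sq_nonneg ‖lam‖) (sq_nonneg ‖tc‖)]
  have hlam : ‖lam‖ ≤ 1 := by
    by_contra hcon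
    rw [not_le] at hcon
    nlinarith
  refine ⟨lam • (u + tc • pp u), hc, hJ, ?_⟩
  have hwt : ‖wd u (lam • (u + tc • pp u))‖ ≤ ‖tc‖ := by
    rw [hwd]
    calc ‖lam‖ * ‖tc‖ ≤ 1 * ‖tc‖ := mul_le_mul_of_nonneg_right hlam (norm_nonneg _)
      _ = _ := one_mul _
  refine hwt.trans ?_
  -- size of tc
  have hr : ‖tc‖ * (16 * R * Real.sqrt d) ≤ nuF X u := by
    have h2 : nuF X u / (16 * R * Real.sqrt d * Q ^ 2) ≤ nuF X u / (16 * R * Real.sqrt d) := by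
      apply div_le_div_of_nonneg_left hν0.le (by positivity)
      have : (1 : ℝ) ≤ Q ^ 2 := one_le_pow₀ hQ1
      exact le_mul_of_one_le_right (by positivity) this
    have h3 := htc1.le.trans h2
    rwa [le_div_iff₀ (by positivity)] at h3
  have hrs : ‖tc‖ * Real.sqrt d * 16 ≤ 1 := by
    by_contra hcon
    rw [not_le] at hcon
    nlinarith
  have hdiff : Real.sqrt (n2 (FF X (u + tc • pp u) - FF X u)) ≤ 1 / 4 * nuF X u := by
    have h2 : ‖tc‖ * Real.sqrt d ≤ ‖tc‖ * Real.sqrt d := le_rfl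
    refine (bndD hd1 hR0.le (fun u hu => (hG u hu).2) hu (by nlinarith [norm_nonneg tc])).trans ?_
    nlinarith
  have hν' : 3 / 4 * nuF X u ≤ nuF X (u + tc • pp u) := by
    have := (nu_near hdiff).1
    linarith
  have hdC : ∀ t : ℂ, ‖t‖ ≤ 2 * ‖tc‖ → ‖Wc X u t‖ ≤ 3 ^ (N + 1) * (‖aa X u‖ * nuF X u ^ 2) := by
    intro t ht
    have := zfac L hC h3N hG hu htc0 htc1 hz hmin hder ht
    rwa [aa_zero_chart X hν0] at this
  have hcau : ‖deriv (Wc X u) tc‖ ≤ 3 ^ (N + 1) * (‖aa X u‖ * nuF X u ^ 2) / ‖tc‖ := by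
    refine Complex.norm_deriv_le_of_forall_mem_sphere_norm_le htc0
      (Wc_diff X u).diffContOnCl (fun z hz' => hdC z ?_)
    rw [mem_sphere_iff_norm] at hz'
    calc ‖z‖ = ‖(z - tc) + tc‖ := by rw [sub_add_cancel]
      _ ≤ ‖z - tc‖ + ‖tc‖ := norm_add_le _ _
      _ = 2 * ‖tc‖ := by rw [hz']; ring
  have hn : nuF X u ^ 2 / 2 ≤ n2 (FF X (lam • (u + tc • pp u))) := by
    rw [← nuF_sq, nuF_smul, mul_pow, ← pow_mul, mul_comm d 2, pow_mul]
    have hb := one_add_mul_le_pow (a := ‖lam‖ ^ 2 - 1) (by nlinarith [sq_nonneg ‖lam‖]) d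
    rw [add_sub_cancel] at hb
    have h4 : ‖lam‖ ^ 2 - 1 = - (‖lam‖ ^ 2 * ‖tc‖ ^ 2) := by linarith
    have h5 : (d : ℝ) * (‖lam‖ ^ 2 * ‖tc‖ ^ 2) ≤ 1 / 256 := by
      have h6 : (‖tc‖ * Real.sqrt d) ^ 2 ≤ (1 / 16) ^ 2 :=
        pow_le_pow_left₀ (by positivity) (by linarith) 2
      have h7 : (‖tc‖ * Real.sqrt d) ^ 2 = d * ‖tc‖ ^ 2 := by
        rw [mul_pow, sq (Real.sqrt d), hss]; ring
      rw [h7] at h6
      have h8 : (d : ℝ) * (‖lam‖ ^ 2 * ‖tc‖ ^ 2) ≤ d * ‖tc‖ ^ 2 := by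
        have : ‖lam‖ ^ 2 * ‖tc‖ ^ 2 ≤ 1 * ‖tc‖ ^ 2 := mul_le_mul_of_nonneg_right hlam1 (sq_nonneg _)
        nlinarith
      nlinarith
    have h9 : (255 / 256 : ℝ) ≤ (‖lam‖ ^ 2) ^ d := by
      rw [h4] at hb
      linarith
    have h10 : (3 / 4 * nuF X u) ^ 2 ≤ nuF X (u + tc • pp u) ^ 2 :=
      pow_le_pow_left₀ (by positivity) hν' 2
    calc nuF X u ^ 2 / 2 ≤ 255 / 256 * (3 / 4 * nuF X u) ^ 2 := by nlinarith [sq_nonneg (nuF X u)]
      _ ≤ (‖lam‖ ^ 2) ^ d * nuF X (u + tc • pp u) ^ 2 :=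
        mul_le_mul h9 h10 (by positivity) (by positivity)
  have h11 := hn.trans (hn2.trans hcau)
  rw [le_div_iff₀ htc0] at h11
  have h12 : 0 < nuF X u ^ 2 := by positivity
  have h13 : ‖tc‖ * nuF X u ^ 2 ≤ (2 * 3 ^ (N + 1) * ‖aa X u‖) * nuF X u ^ 2 := by
    linarith
  have h14 := le_of_mul_le_mul_right h13 h12
  refine h14.trans ?_
  have h3Nr : (3 : ℝ) ^ (N + 2) ≤ d := by exact_mod_cast h3N
  have h15 : 2 * (3 : ℝ) ^ (N + 1) ≤ (d : ℝ) ^ 5 / 2 := by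
    have e1 : (3 : ℝ) ^ (N + 2) = 3 * 3 ^ (N + 1) := by ring
    rw [e1] at h3Nr
    have h16 : (d : ℝ) * 16 ≤ (d : ℝ) ^ 5 := by
      calc (d : ℝ) * 16 = d * 2 ^ 4 := by norm_num
        _ ≤ d * (d : ℝ) ^ 4 := by gcongr
        _ = _ := by ring
    have h17 : (0 : ℝ) < 3 ^ (N + 1) := by positivity
    linarith
  exact mul_le_mul_of_nonneg_right h15 ha0

end Pool.Agent.H47.SG
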