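import Pool.Agent.H47.SG.Cmp

/-!
# [H47 SG LQE] the numerical conditions hold for large `d`
-/

set_option autoImplicit false

open Filter

namespace Pool.Agent.H47.SG

theorem lq_large (C : ℕ) {e : ℝ} (he : 0 < e) (he1 : e ≤ 1 / 2) : ∃ N : ℕ, ∃ d0 : ℕ, ∀ d ≥ d0, ∀ R : ℝ, 1 ≤ R →
    R ^ 10 ≤ (d : ℝ) ^ e → Lq N C ((d : ℝ) ^ e) R d := by
  obtain ⟨N, hN⟩ := exists_nat_ge (2 * ((C : ℝ) + 4) / e)
  have hN' : 2 * ((C : ℝ) + 4) ≤ N * e := by rwa [div_le_iff₀ he] at hN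
  obtain ⟨d1, hd1⟩ := sq_large he he1
  have hlog : ∀ᶠ d : ℕ in atTop, 40 * ((N : ℝ) + C + 3) * Real.log d ≤ (d : ℝ) ^ (e / 2) := by
    have hK : (0 : ℝ) < 40 * ((N : ℝ) + C + 3) := by positivity
    have h := (isLittleO_log_rpow_atTop (r := e / 2) (by linarith)).def (c := (40 * ((N : ℝ) + C + 3))⁻¹) (by positivity)
    have h' := tendsto_natCast_atTop_atTop.eventually h
    filter_upwards [h'] with d hd
    have h1 : ‖((d : ℝ) ^ (e / 2))‖ = (d : ℝ) ^ (e / 2) := by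
      rw [Real.norm_eq_abs, abs_of_nonneg (Real.rpow_nonneg (Nat.cast_nonneg d) _)]
    rw [h1] at hd
    have h2 : Real.log d ≤ ‖Real.log d‖ := le_abs_self _
    have h3 := h2.trans hd
    calc 40 * ((N : ℝ) + C + 3) * Real.log d ≤ 40 * ((N : ℝ) + C + 3) * ((40 * ((N : ℝ) + C + 3))⁻¹ * (d : ℝ) ^ (e / 2)) := by
          gcongr
      _ = (d : ℝ) ^ (e / 2) := by rw [← mul_assoc, mul_inv_cancel₀ hK.ne', one_mul]
  obtain ⟨d2, hd2⟩ := eventually_atTop.1 hlog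
  refine ⟨N, max (max d1 d2) 16, fun d hd R hR hRQ => ?_⟩
  have hdd1 : d1 ≤ d := (le_trans (le_max_left _ _) (le_max_left _ _)).trans hd
  have hdd2 : d2 ≤ d := (le_trans (le_max_right _ _) (le_max_left _ _)).trans hd
  have hdd3 : 16 ≤ d := (le_max_right _ _).trans hd
  have S := hd1 d hdd1 R hR hRQ
  have hl := hd2 d hdd2
  have hD : (16 : ℝ) ≤ d := by exact_mod_cast hdd3
  have hD0 : (0 : ℝ) < d := by linarith
  have hD1 : (1 : ℝ) ≤ d := by linarith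
  have hR0 : 0 < R := by linarith
  set Q := (d : ℝ) ^ e with hQ
  have hQ6 := S.q1
  have hQ0 : 0 < Q := by linarith
  have hsd0 : 0 < Real.sqrt d := Real.sqrt_pos.2 hD0
  have hss : Real.sqrt d * Real.sqrt d = d := Real.mul_self_sqrt hD0.le
  have hQsd : Q ≤ Real.sqrt d := by
    rw [← Real.sqrt_sq hQ0.le]
    exact Real.sqrt_le_sqrt S.qd
  have h8 : 8 * R ^ 2 ≤ Real.sqrt d := by
    have h1 : R ^ 2 ≤ R ^ 3 := pow_le_pow_right₀ hR (by norm_num)
    have h2 := S.q3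
    have h3 : 0 ≤ R ^ 3 := by positivity
    linarith
  have h8d : 8 * R ^ 2 * Real.sqrt d ≤ d := by
    calc 8 * R ^ 2 * Real.sqrt d ≤ Real.sqrt d * Real.sqrt d := by gcongr
      _ = d := hss
  have hsQ : Real.sqrt Q = (d : ℝ) ^ (e / 2) := by
    rw [Real.sqrt_eq_rpow, hQ, ← Real.rpow_mul hD0.le]
    congr 1
    ring
  refine ⟨S, ?_, ?_⟩
  · -- number of zeros
    have h1 : 2 / Q ≤ (d : ℝ) ^ (-(e / 2)) := by
      rw [div_le_iff₀ hQ0, hQ, ← Real.rpow_add hD0]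
      have e1 : -(e / 2) + e = e / 2 := by ring
      rw [e1, ← hsQ]
      have : Real.sqrt (10 ^ 6) ≤ Real.sqrt Q := Real.sqrt_le_sqrt hQ6
      have e2 : Real.sqrt (10 ^ 6) = 10 ^ 3 := by
        rw [show (10 : ℝ) ^ 6 = (10 ^ 3) ^ 2 by norm_num, Real.sqrt_sq (by norm_num)]
      rw [e2] at this
      linarith
    have h2 : (2 / Q) ^ N ≤ (d : ℝ) ^ (-((C : ℝ) + 4)) := by
      calc (2 / Q) ^ N ≤ ((d : ℝ) ^ (-(e / 2))) ^ N := pow_le_pow_left₀ (by positivity) h1 N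
        _ = (d : ℝ) ^ (-(e / 2) * N) := by rw [← Real.rpow_natCast, ← Real.rpow_mul hD0.le]
        _ ≤ (d : ℝ) ^ (-((C : ℝ) + 4)) := by
            apply Real.rpow_le_rpow_of_exponent_le hD1
            linarith
    have h3 : (d : ℝ) ^ (-((C : ℝ) + 4)) = ((d : ℝ) ^ (C + 4))⁻¹ := by
      rw [Real.rpow_neg hD0.le]
      congr 1
      rw [← Real.rpow_natCast]
      push_cast
      rfl
    rw [h3] at h2
    calc 8 * R ^ 2 * Real.sqrt d * (2 / Q) ^ N ≤ d * ((d : ℝ) ^ (C + 4))⁻¹ := by gcongr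
      _ = ((d : ℝ) ^ (C + 3))⁻¹ := by
          rw [show C + 4 = (C + 3) + 1 by ring, pow_succ, mul_inv, mul_comm, mul_assoc, inv_mul_cancel₀ hD0.ne', mul_one]
      _ < ((d : ℝ) ^ (C + 2))⁻¹ := by
          apply inv_strictAnti₀ (by positivity)
          exact pow_lt_pow_right₀ (by linarith) (by omega)
  · rw [hsQ]
    refine le_trans ?_ hl
    have h4 : 4 * Real.sqrt d ≤ d := by
      have h5 : 4 ≤ Real.sqrt d := by
        rw [show (4 : ℝ) = Real.sqrt (4 ^ 2) by rw [Real.sqrt_sq (by norm_num)]]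
        exact Real.sqrt_le_sqrt (by linarith)
      calc 4 * Real.sqrt d ≤ Real.sqrt d * Real.sqrt d := by gcongr
        _ = d := hss
    have h5 : 8 * R ^ 2 * Real.sqrt d * (4 * Real.sqrt d) ^ N * (d : ℝ) ^ (C + 2) ≤ (d : ℝ) ^ (N + C + 3) := by
      calc 8 * R ^ 2 * Real.sqrt d * (4 * Real.sqrt d) ^ N * (d : ℝ) ^ (C + 2) ≤ d * (d : ℝ) ^ N * (d : ℝ) ^ (C + 2) := by
            gcongr
        _ = (d : ℝ) ^ (N + C + 3) := by ring
    have h6 := Real.log_le_log (by positivity) h5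
    rw [Real.log_pow] at h6
    push_cast at h6
    nlinarith

end Pool.Agent.H47.SG
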