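import Pool.Agent.H47.SG.Cmp

/-!
# [H47 SG DBL] local geometry at the scale of the distance to the critical points: images
-/

set_option autoImplicit false

open Finset
open Pool.H70.SF

namespace Pool.Agent.H47.SG

open Pool.Agent.H47.SF

open Pool.Agent.H73.ES (GG)

/-- distances of the images: general form with a bound for the derivative -/
theorem img {d : ℕ} (hd : 1 ≤ d) {R : ℝ} (hR : 1 ≤ R) {X : CV d} (hG : GG R X) {y z : ℂ × ℂ} (hy : IsU y) (hz : IsU z)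
    {ρ A : ℝ} (hρ : 1.01 * ρ ≤ 1 / 1000 * nuF X y / (5 * R * Real.sqrt d)) (h : ‖wd y z‖ ≤ ρ)
    (hA : ∀ w, IsU w → ‖wd y w‖ ≤ 1.01 * ρ → ‖aa X w‖ ≤ A) :
    ‖wd (nx X y) (nx X z)‖ ≤ 1.05 * A * ‖wd y z‖ := by
  have hd0 : (0 : ℝ) < d := by exact_mod_cast hd
  have hR0 : 0 < R := by linarith
  have hsd : 0 < Real.sqrt d := Real.sqrt_pos.2 hd0
  have hsd1 : 1 ≤ Real.sqrt d := by rw [Real.one_le_sqrt]; exact_mod_cast hd
  have hν0 : 0 < nuF X y := lt_of_lt_of_le (by positivity) (hG y hy).1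
  have hνR : nuF X y ≤ R := (hG y hy).2
  have hρ0 : 0 ≤ ρ := (norm_nonneg _).trans h
  have hA0 : 0 ≤ A := (norm_nonneg _).trans (hA y hy (by
    rw [show wd y y = 0 by unfold wd; ring, norm_zero]; positivity))
  obtain ⟨lam, t, hzt, hlt, ht, hFd, hn1, hn2, -, -⟩ := nu_cmp hd hR hG hy hz (b := 1 / 1000) (by norm_num) le_rfl
    (h.trans (by linarith))
  have hsmall : ∀ t : ℂ, ‖t‖ ≤ 1.01 * ρ → 4 * R * Real.sqrt d * ‖t‖ ≤ 1 / 1000 * nuF X y ∧ 2 * ‖t‖ * Real.sqrt d ≤ 1 ∧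
      ‖t‖ ^ 2 ≤ 1 / 1000 := by
    intro t ht
    have h1 : 4 * R * Real.sqrt d * ‖t‖ ≤ 1 / 1000 * nuF X y := by
      calc 4 * R * Real.sqrt d * ‖t‖ ≤ 4 * R * Real.sqrt d * (1 / 1000 * nuF X y / (5 * R * Real.sqrt d)) := by
            gcongr
            exact ht.trans hρ
        _ = 0.8 * (1 / 1000 * nuF X y) := by field_simp; ring
        _ ≤ _ := by
          have : 0 ≤ 1 / 1000 * nuF X y := by positivity
          linarith
    have h2 : Real.sqrt d * ‖t‖ ≤ 1 / 4000 := by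
      have h3 : 4 * R * (Real.sqrt d * ‖t‖) ≤ 4 * R * (1 / 4000) := by
        calc 4 * R * (Real.sqrt d * ‖t‖) = 4 * R * Real.sqrt d * ‖t‖ := by ring
          _ ≤ 1 / 1000 * nuF X y := h1
          _ ≤ 1 / 1000 * R := by gcongr
          _ = _ := by ring
      exact le_of_mul_le_mul_left h3 (by positivity)
    have h4 : ‖t‖ ≤ 1 / 4000 := by
      have : 1 * ‖t‖ ≤ Real.sqrt d * ‖t‖ := mul_le_mul_of_nonneg_right hsd1 (norm_nonneg _)
      linarith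
    refine ⟨h1, by linarith, by nlinarith [norm_nonneg t]⟩
  have hwn : ‖lam‖ ≤ 1 := by
    have h3 : ‖lam‖ ^ 2 ≤ 1 := by nlinarith [mul_nonneg (sq_nonneg ‖lam‖) (sq_nonneg ‖t‖)]
    exact (sq_le_one_iff₀ (norm_nonneg _)).1 h3
  have htρ : ‖t‖ ≤ 1.01 * ρ := ht.trans (by gcongr)
  have hg := gd hd hy hν0 (r := 1.01 * ρ) (w := A * ((1 + 1 / 1000) * nuF X y) ^ 2) (θ := 1 / 1000) (by norm_num) (by
    intro s hs
    obtain ⟨h1, h2, -⟩ := hsmall s hs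
    exact (bndD hd hR0.le (fun u hu => (hG u hu).2) hy h2).trans h1) (by
    intro s hs
    obtain ⟨h1, h2, h3⟩ := hsmall s hs
    have h4 := nu_near (θ := 1 / 1000) (u := y) (w := y + s • pp y)
      ((bndD hd hR0.le (fun u hu => (hG u hu).2) hy h2).trans h1)
    have h5 : 0 < nuF X (y + s • pp y) := lt_of_lt_of_le (by positivity) h4.1
    obtain ⟨l, hl, hU, hw⟩ := isU_chart hy s
    have h6 := aa_chart hd X hl h5
    have hl1 : ‖l‖ ≤ 1 := by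
      have h3 : ‖l‖ ^ 2 ≤ 1 := by nlinarith [mul_nonneg (sq_nonneg ‖l‖) (sq_nonneg ‖s‖)]
      exact (sq_le_one_iff₀ (norm_nonneg _)).1 h3
    have h7 := hA _ hU (by
      rw [hw]
      calc ‖l‖ * ‖s‖ ≤ 1 * ‖s‖ := by gcongr
        _ = ‖s‖ := one_mul _
        _ ≤ _ := hs)
    calc ‖Wc X y s‖ ≤ ‖Wc X y s‖ * (1 + ‖s‖ ^ 2) := le_mul_of_one_le_right (norm_nonneg _) (by nlinarith [sq_nonneg ‖s‖])
      _ = _ := h6.symm
      _ ≤ A * ((1 + 1 / 1000) * nuF X y) ^ 2 := by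
        gcongr
        exact h4.2) (t := t) htρ
  have hnt : 0 < nuF X (y + t • pp y) := lt_of_lt_of_le (by positivity) hn1
  have hx := nx_chart X hlt hnt hν0
  rw [← hzt] at hx
  rw [← hx] at hg
  have hpos : 0 < nuF X (y + t • pp y) * nuF X y := by positivity
  have hg2 := le_of_mul_le_mul_right hg hpos
  refine hg2.trans ?_
  have e1 : A * ((1 + 1 / 1000) * nuF X y) ^ 2 / ((1 - 1 / 1000) ^ 2 * nuF X y ^ 2) =
      A * ((1 + 1 / 1000) ^ 2 / (1 - 1 / 1000) ^ 2) := by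
    field_simp
  rw [e1]
  calc A * ((1 + 1 / 1000) ^ 2 / (1 - 1 / 1000) ^ 2) * ‖t‖ ≤ A * ((1 + 1 / 1000) ^ 2 / (1 - 1 / 1000) ^ 2) * (1.01 * ‖wd y z‖) := by
        gcongr
    _ = ((1 + 1 / 1000) ^ 2 / (1 - 1 / 1000) ^ 2 * 1.01) * A * ‖wd y z‖ := by ring
    _ ≤ 1.05 * A * ‖wd y z‖ := by
        gcongr
        norm_num

/-- comparison at the scale of the distance to the critical points -/
theorem dbl {N C d : ℕ} {Q R : ℝ} (L : Lq N C Q R d) {X : CV d} (hG : GG R X) {x y z : ℂ × ℂ} (hx : IsU x) (hy : IsU y)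
    (hz : IsU z) {r lam : ℝ} (hr : ∀ c, IsU c → JJ X c = 0 → r ≤ ‖wd x c‖) (hr0 : 0 ≤ r)
    (hr1 : r ≤ nuF X x / (16 * R * Real.sqrt d * Q ^ 2)) (ha : ((d : ℝ) ^ C)⁻¹ ≤ ‖aa X x‖)
    (hs : 1 ≤ lam) (hs2 : lam ^ 2 ≤ Q) (h1 : ‖wd x y‖ ≤ lam * r) (h2 : ‖wd x z‖ ≤ lam * r) :
    ‖aa X y‖ ≤ 6 ^ (N + 1) * lam ^ N * ‖aa X x‖ ∧
      ‖wd (nx X y) (nx X z)‖ ≤ 6 ^ (N + 1) * lam ^ N * ‖aa X x‖ * ‖wd y z‖ := by
  have hd2 := L.d2
  have hd1 : 1 ≤ d := by omega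
  have hd0 : (0 : ℝ) < d := by exact_mod_cast hd1
  have hsd : 0 < Real.sqrt d := Real.sqrt_pos.2 hd0
  have hR := L.R1
  have hR0 : 0 < R := by linarith
  have hQ := L.q1
  have hQ0 : 0 < Q := by linarith
  have hlam0 : 0 < lam := by linarith
  have hν0 : 0 < nuF X x := lt_of_lt_of_le (by positivity) (hG x hx).1
  have hb : ∀ s : ℝ, 1 ≤ s → s ≤ 4 * lam → ∀ w, IsU w → ‖wd x w‖ ≤ s * r →
      ‖aa X w‖ ≤ 2 * (6 * lam) ^ N * ‖aa X x‖ ∧ 0.99 * nuF X x ≤ nuF X w := by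
    intro s hs1 hs4 w hw hxw
    obtain ⟨e1, e2, -⟩ := cmpA L hG hx hw hr hr0 hr1 ha hs1 (by
      calc s ^ 2 ≤ (4 * lam) ^ 2 := by gcongr
        _ = 16 * lam ^ 2 := by ring
        _ ≤ 16 * Q := by gcongr) hxw
    refine ⟨e1.trans ?_, e2⟩
    gcongr
    linarith
  have hA6 : 2 * (6 * lam) ^ N * ‖aa X x‖ * 1.05 ≤ 6 ^ (N + 1) * lam ^ N * ‖aa X x‖ := by
    have h5 : 0 ≤ 6 ^ N * lam ^ N * ‖aa X x‖ := by positivity
    rw [mul_pow, pow_succ]
    nlinarith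
  have hA0 : 0 ≤ 2 * (6 * lam) ^ N * ‖aa X x‖ := by positivity
  refine ⟨((hb lam hs (by linarith) y hy h1).1).trans (by linarith), ?_⟩
  have hνy := (hb lam hs (by linarith) y hy h1).2
  have hyz : ‖wd y z‖ ≤ 2 * lam * r := by
    have := tri hy hx hz
    rw [wd_comm y x] at this
    linarith
  have hlr : lam * r ≤ nuF X x / (16 * R * Real.sqrt d * Q) := by
    have hlQ : lam ≤ Q := by nlinarith
    calc lam * r ≤ Q * (nuF X x / (16 * R * Real.sqrt d * Q ^ 2)) := by gcongr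
      _ = _ := by field_simp
  have hi := img hd1 hR hG hy hz (ρ := 2 * lam * r) (A := 2 * (6 * lam) ^ N * ‖aa X x‖) (by
    have h5 : nuF X x / (16 * R * Real.sqrt d * Q) ≤ 1 / 100000 * (nuF X x / (5 * R * Real.sqrt d)) := by
      rw [show nuF X x / (16 * R * Real.sqrt d * Q) = 5 / 16 * (1 / Q) * (nuF X x / (5 * R * Real.sqrt d)) by
        field_simp]
      gcongr
      have : 1 / Q ≤ 1 / 10 ^ 6 := one_div_le_one_div_of_le (by norm_num) hQ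
      linarith
    have h6 : 0 ≤ nuF X x / (5 * R * Real.sqrt d) := by positivity
    have h7 : 0.99 * (nuF X x / (5 * R * Real.sqrt d)) ≤ nuF X y / (5 * R * Real.sqrt d) := by
      rw [← mul_div_assoc]
      gcongr
    rw [mul_div_assoc]
    linarith) hyz (by
    intro w hw hyw
    refine (hb (4 * lam) (by linarith) le_rfl w hw ?_).1
    have h5 := tri hx hy hw
    have h6 : 0 ≤ lam * r := by positivity
    linarith)
  refine hi.trans ?_
  calc 1.05 * (2 * (6 * lam) ^ N * ‖aa X x‖) * ‖wd y z‖ = (2 * (6 * lam) ^ N * ‖aa X x‖ * 1.05) * ‖wd y z‖ := by ring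
    _ ≤ _ := mul_le_mul_of_nonneg_right hA6 (norm_nonneg _)

end Pool.Agent.H47.SG
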