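import Pool.Agent.H47.SF.Defs

/-!
# [H47 SG SQ] the numerical conditions with a parameter `Q` in the place of `qq d`
-/

set_option autoImplicit false

open Filter

namespace Pool.Agent.H47.SG

/-- `Q` is large with respect to `R` and `log d`, and `Q ^ 2 ≤ d` -/
structure Sq (Q R : ℝ) (d : ℕ) : Prop where
  d2 : 2 ≤ d
  R1 : 1 ≤ R
  Rq : R ^ 10 ≤ Q
  q1 : 10 ^ 6 ≤ Q
  q3 : 256 * R ^ 3 ≤ Q
  q4 : 10 ^ 6 * Real.log d ≤ Q
  qd : Q ^ 2 ≤ d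

theorem sq_large {e : ℝ} (he : 0 < e) (he1 : e ≤ 1 / 2) : ∃ d0 : ℕ, ∀ d ≥ d0, ∀ R : ℝ, 1 ≤ R → R ^ 10 ≤ (d : ℝ) ^ e →
    Sq ((d : ℝ) ^ e) R d := by
  have htop : Tendsto (fun d : ℕ => (d : ℝ) ^ e) atTop atTop :=
    (tendsto_rpow_atTop he).comp tendsto_natCast_atTop_atTop
  have hlog : ∀ᶠ d : ℕ in atTop, 10 ^ 6 * Real.log d ≤ (d : ℝ) ^ e := by
    have h := (isLittleO_log_rpow_atTop (r := e) he).def (c := (10 ^ 6 : ℝ)⁻¹) (by positivity)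
    have h' := tendsto_natCast_atTop_atTop.eventually h
    filter_upwards [h'] with d hd
    have h1 : ‖((d : ℝ) ^ e)‖ = (d : ℝ) ^ e := by
      rw [Real.norm_eq_abs, abs_of_nonneg (Real.rpow_nonneg (Nat.cast_nonneg d) _)]
    rw [h1] at hd
    have h2 : Real.log d ≤ ‖Real.log d‖ := le_abs_self _
    have h3 := h2.trans hd
    calc 10 ^ 6 * Real.log d ≤ 10 ^ 6 * ((10 ^ 6 : ℝ)⁻¹ * (d : ℝ) ^ e) := by gcongr
      _ = (d : ℝ) ^ e := by rw [← mul_assoc, mul_inv_cancel₀ (by norm_num), one_mul]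
  obtain ⟨d0, hd0⟩ := eventually_atTop.1
    ((htop.eventually_ge_atTop (256 ^ 10)).and (hlog.and (eventually_ge_atTop 2)))
  refine ⟨d0, fun d hd R hR1 hR => ?_⟩
  obtain ⟨h2, h3, h4⟩ := hd0 d hd
  have hQ1 : (1 : ℝ) ≤ (d : ℝ) ^ e := le_trans (by norm_num) h2
  have hD1 : (1 : ℝ) ≤ d := by exact_mod_cast (by omega : 1 ≤ d)
  refine ⟨h4, hR1, hR, le_trans (by norm_num) h2, ?_, h3, ?_⟩
  · have hp : (256 * R ^ 3) ^ 10 ≤ ((d : ℝ) ^ e) ^ 10 := by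
      calc (256 * R ^ 3) ^ 10 = 256 ^ 10 * (R ^ 10) ^ 3 := by ring
        _ ≤ (d : ℝ) ^ e * ((d : ℝ) ^ e) ^ 3 := by gcongr
        _ = ((d : ℝ) ^ e) ^ 4 := by ring
        _ ≤ ((d : ℝ) ^ e) ^ 10 := pow_le_pow_right₀ hQ1 (by norm_num)
    exact (pow_le_pow_iff_left₀ (by positivity) (by positivity) (by norm_num)).mp hp
  · rw [← Real.rpow_natCast, ← Real.rpow_mul (by linarith)]
    calc (d : ℝ) ^ (e * ((2 : ℕ) : ℝ)) ≤ (d : ℝ) ^ (1 : ℝ) :=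
          Real.rpow_le_rpow_of_exponent_le hD1 (by push_cast; linarith)
      _ = d := Real.rpow_one _

end Pool.Agent.H47.SG
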