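import Pool.Agent.H47.SG.Facs
import Pool.Agent.H47.SG.Sq
import Pool.Agent.H47.SF.Bnd
import Pool.Agent.H47.SF.Gd
import Pool.Agent.H73.ES.Defs

/-!
# [H47 SG CMP] local geometry at the scale of the distance to the critical points: comparison of the derivatives

`Lq N C Q R d`: numerical conditions (`N` is the bound for the number of critical points in a disc of radius `1 / (2 Q √d)`; base points
have a derivative `≥ d ^ (-C)`).
-/

set_option autoImplicit false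

open Finset
open Pool.H70.SF

namespace Pool.Agent.H47.SG

open Pool.Agent.H47.SF

open Pool.Agent.H73.ES (GG)

/-- numerical conditions -/
structure Lq (N C : ℕ) (Q R : ℝ) (d : ℕ) : Prop extends Sq Q R d where
  hN : 8 * R ^ 2 * Real.sqrt d * (2 / Q) ^ N < ((d : ℝ) ^ (C + 2))⁻¹
  hl : 40 * Real.log (8 * R ^ 2 * Real.sqrt d * (4 * Real.sqrt d) ^ N * (d : ℝ) ^ (C + 2)) ≤ Real.sqrt Q

/-- a zero of the Wronskian in the chart is a critical point -/
theorem crit_of_zero {d : ℕ} (hd : 1 ≤ d) {X : CV d} {u : ℂ × ℂ} (hu : IsU u) {t : ℂ} (h : Wc X u t = 0) :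
    ∃ c, IsU c ∧ JJ X c = 0 ∧ ‖wd u c‖ ≤ ‖t‖ := by
  obtain ⟨lam, hl, hU, hw⟩ := isU_chart hu t
  refine ⟨_, hU, ?_, ?_⟩
  · rw [JJ_smul]
    have hd0 : (d : ℂ) ≠ 0 := by
      have : d ≠ 0 := by omega
      exact_mod_cast this
    unfold Wc at h
    rw [div_eq_zero_iff] at h
    rcases h with h | h
    · rw [h, mul_zero]
    · exact absurd h hd0
  · rw [hw]
    have h1 : ‖lam‖ ≤ 1 := by
      have h2 : ‖lam‖ ^ 2 ≤ 1 := by nlinarith [sq_nonneg ‖t‖, sq_nonneg ‖lam‖, mul_nonneg (sq_nonneg ‖lam‖) (sq_nonneg ‖t‖)]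
      exact (sq_le_one_iff₀ (norm_nonneg _)).1 h2
    calc ‖lam‖ * ‖t‖ ≤ 1 * ‖t‖ := mul_le_mul_of_nonneg_right h1 (norm_nonneg _)
      _ = _ := one_mul _

private theorem lam_pow {d : ℕ} {lam t : ℂ} {w : ℝ} (hl : ‖lam‖ ^ 2 * (1 + ‖t‖ ^ 2) = 1) (hw : ‖lam‖ * ‖t‖ = w)
    (h1 : (d : ℝ) * w ^ 2 ≤ 1 / 1000) (h2 : w ^ 2 ≤ 1) : ‖lam‖ ^ d ≤ 1 ∧ 999 / 1000 ≤ ‖lam‖ ^ d := by
  have hlam0 : 0 ≤ ‖lam‖ := norm_nonneg _
  have hlam1 : ‖lam‖ ≤ 1 := by
    have h3 : ‖lam‖ ^ 2 ≤ 1 := by nlinarith [mul_nonneg (sq_nonneg ‖lam‖) (sq_nonneg ‖t‖)]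
    exact (sq_le_one_iff₀ hlam0).1 h3
  refine ⟨pow_le_one₀ hlam0 hlam1, ?_⟩
  have h3 : (‖lam‖ ^ 2) ^ d ≤ ‖lam‖ ^ d := by
    rw [← pow_mul]
    exact pow_le_pow_of_le_one hlam0 hlam1 (by omega)
  refine le_trans ?_ h3
  have h4 : ‖lam‖ ^ 2 = 1 + -(w ^ 2) := by
    rw [← hw, mul_pow]
    linarith
  rw [h4]
  have h5 := one_add_mul_le_pow (a := -(w ^ 2)) (by linarith) d
  refine le_trans ?_ h5
  linarith

/-- the values of `|F|` near a point -/
theorem nu_cmp {d : ℕ} (hd : 1 ≤ d) {R : ℝ} (hR : 1 ≤ R) {X : CV d} (hG : GG R X) {x z : ℂ × ℂ} (hx : IsU x)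
    (hz : IsU z) {b : ℝ} (hb0 : 0 < b) (hb : b ≤ 1 / 1000) (h : ‖wd x z‖ ≤ b * nuF X x / (5 * R * Real.sqrt d)) :
    ∃ lam t : ℂ, z = lam • (x + t • pp x) ∧ ‖lam‖ ^ 2 * (1 + ‖t‖ ^ 2) = 1 ∧ ‖t‖ ≤ 1.01 * ‖wd x z‖ ∧
      Real.sqrt (n2 (FF X (x + t • pp x) - FF X x)) ≤ b * nuF X x ∧
      (1 - b) * nuF X x ≤ nuF X (x + t • pp x) ∧ nuF X (x + t • pp x) ≤ (1 + b) * nuF X x ∧
      (1 - b) * (999 / 1000) * nuF X x ≤ nuF X z ∧ nuF X z ≤ (1 + b) * nuF X x := by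
  have hd0 : (0 : ℝ) < d := by exact_mod_cast hd
  have hd1 : (1 : ℝ) ≤ d := by exact_mod_cast hd
  have hR0 : 0 < R := by linarith
  have hsd : 0 < Real.sqrt d := Real.sqrt_pos.2 hd0
  have hsd1 : 1 ≤ Real.sqrt d := by rw [Real.one_le_sqrt]; exact hd1
  have hss : Real.sqrt d ^ 2 = d := Real.sq_sqrt hd0.le
  have hνR := (hG x hx).2
  have hν0 : 0 < nuF X x := lt_of_lt_of_le (by positivity) (hG x hx).1
  have hνR' : nuF X x ≤ R := hνR
  -- the size of wd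
  have hw1 : Real.sqrt d * ‖wd x z‖ ≤ b / 5 := by
    calc Real.sqrt d * ‖wd x z‖ ≤ Real.sqrt d * (b * nuF X x / (5 * R * Real.sqrt d)) := by gcongr
      _ = b * nuF X x / (5 * R) := by field_simp
      _ ≤ b * R / (5 * R) := by gcongr
      _ = b / 5 := by field_simp
  have hw2 : ‖wd x z‖ ≤ b / 5 := by
    have : 1 * ‖wd x z‖ ≤ Real.sqrt d * ‖wd x z‖ := mul_le_mul_of_nonneg_right hsd1 (norm_nonneg _)
    linarith
  have hw3 : ‖wd x z‖ ≤ 1 / 10 := by linarith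
  obtain ⟨lam, t, hzt, hlt, hwt⟩ := exists_chart hx hz (by linarith)
  have hwn : ‖lam‖ * ‖t‖ = ‖wd x z‖ := by rw [hwt, norm_mul]
  have ht1 := t_le hlt hwn hw3
  have hst : Real.sqrt d * ‖t‖ ≤ 1.01 * (b / 5) := by
    calc Real.sqrt d * ‖t‖ ≤ Real.sqrt d * (1.01 * ‖wd x z‖) := by gcongr
      _ = 1.01 * (Real.sqrt d * ‖wd x z‖) := by ring
      _ ≤ _ := by gcongr
  have hD := bndD hd hR0.le (fun u hu => (hG u hu).2) hx (t := t) (by
    have e : 2 * ‖t‖ * Real.sqrt d = 2 * (Real.sqrt d * ‖t‖) := by ring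
    rw [e]
    linarith)
  have hD2 : Real.sqrt (n2 (FF X (x + t • pp x) - FF X x)) ≤ b * nuF X x := by
    refine hD.trans ?_
    calc 4 * R * Real.sqrt d * ‖t‖ ≤ 4 * R * Real.sqrt d * (1.01 * ‖wd x z‖) := by gcongr
      _ ≤ 4 * R * Real.sqrt d * (1.01 * (b * nuF X x / (5 * R * Real.sqrt d))) := by gcongr
      _ = 0.808 * (b * nuF X x) := by field_simp; ring
      _ ≤ b * nuF X x := by
          have : 0 ≤ b * nuF X x := by positivity
          linarith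
  have hnear := nu_near (θ := b) (u := x) (w := x + t • pp x) hD2
  have hnz : nuF X z = ‖lam‖ ^ d * nuF X (x + t • pp x) := by rw [hzt, nuF_smul]
  have hld := lam_pow (d := d) hlt hwn (by
    have h5 : (d : ℝ) * ‖wd x z‖ ^ 2 = (Real.sqrt d * ‖wd x z‖) ^ 2 := by rw [mul_pow, hss]
    rw [h5]
    have h7 : (Real.sqrt d * ‖wd x z‖) ^ 2 ≤ (b / 5) ^ 2 := pow_le_pow_left₀ (by positivity) hw1 2
    nlinarith) (by nlinarith [norm_nonneg (wd x z)])
  have hνt0 : 0 ≤ nuF X (x + t • pp x) := nuF_nonneg _ _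
  refine ⟨lam, t, hzt, hlt, ht1, hD2, hnear.1, hnear.2, ?_, ?_⟩
  · rw [hnz]
    calc (1 - b) * (999 / 1000) * nuF X x = 999 / 1000 * ((1 - b) * nuF X x) := by ring
      _ ≤ ‖lam‖ ^ d * nuF X (x + t • pp x) :=
        mul_le_mul hld.2 hnear.1 (mul_nonneg (by linarith) hν0.le) (by positivity)
  · rw [hnz]
    calc ‖lam‖ ^ d * nuF X (x + t • pp x) ≤ 1 * ((1 + b) * nuF X x) :=
        mul_le_mul hld.1 hnear.2 hνt0 (by norm_num)
      _ = _ := one_mul _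

/-- comparison of the derivatives: `r` is at most the distance to the critical points and at most `ν / (16 R √d Q ^ 2)` -/
theorem cmpA {N C d : ℕ} {Q R : ℝ} (L : Lq N C Q R d) {X : CV d} (hG : GG R X) {x z : ℂ × ℂ} (hx : IsU x) (hz : IsU z)
    {r s : ℝ} (hr : ∀ c, IsU c → JJ X c = 0 → r ≤ ‖wd x c‖) (hr0 : 0 ≤ r)
    (hr1 : r ≤ nuF X x / (16 * R * Real.sqrt d * Q ^ 2)) (ha : ((d : ℝ) ^ C)⁻¹ ≤ ‖aa X x‖)
    (hs : 1 ≤ s) (hs2 : s ^ 2 ≤ 16 * Q) (h : ‖wd x z‖ ≤ s * r) :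
    ‖aa X z‖ ≤ 2 * (1.01 * s + 1) ^ N * ‖aa X x‖ ∧ 0.99 * nuF X x ≤ nuF X z ∧ nuF X z ≤ 1.01 * nuF X x := by
  have hd2 := L.d2
  have hd1 : 1 ≤ d := by omega
  have hd0 : (0 : ℝ) < d := by exact_mod_cast hd1
  have hsd : 0 < Real.sqrt d := Real.sqrt_pos.2 hd0
  have hss : Real.sqrt d ^ 2 = d := Real.sq_sqrt hd0.le
  have hR := L.R1
  have hR0 : 0 < R := by linarith
  have hQ := L.q1
  have hQ0 : 0 < Q := by linarith
  have hν0 : 0 < nuF X x := lt_of_lt_of_le (by positivity) (hG x hx).1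
  have hνlo : (d : ℝ)⁻¹ ≤ nuF X x := (hG x hx).1
  have hνR : nuF X x ≤ R := (hG x hx).2
  have hsQ0 : 0 < Real.sqrt Q := Real.sqrt_pos.2 hQ0
  have hsQ : Real.sqrt Q ^ 2 = Q := Real.sq_sqrt hQ0.le
  have hsQ1 : 1000 ≤ Real.sqrt Q := by
    rw [show (1000 : ℝ) = Real.sqrt (1000 ^ 2) by rw [Real.sqrt_sq (by norm_num)]]
    exact Real.sqrt_le_sqrt (by linarith)
  have hs4 : s ≤ 4 * Real.sqrt Q := by
    have : s ^ 2 ≤ (4 * Real.sqrt Q) ^ 2 := by rw [mul_pow, hsQ]; linarith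
    exact le_of_sq_le_sq this (by positivity)
  have hs0 : 0 < s := by linarith
  -- `s r` in units of `ν / √d`
  have hsr : s * r ≤ 1 / (1000 * 1000) * nuF X x / (5 * R * Real.sqrt d) := by
    calc s * r ≤ (4 * Real.sqrt Q) * (nuF X x / (16 * R * Real.sqrt d * Q ^ 2)) := by gcongr
      _ = 20 / 16 * (Real.sqrt Q / Q ^ 2) * nuF X x / (5 * R * Real.sqrt d) := by field_simp; ring
      _ ≤ 1 / (1000 * 1000) * nuF X x / (5 * R * Real.sqrt d) := by
          gcongr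
          have h1 : Real.sqrt Q / Q ^ 2 = 1 / (Real.sqrt Q * Q) := by
            rw [div_eq_div_iff (by positivity) (by positivity)]
            calc Real.sqrt Q * (Real.sqrt Q * Q) = Real.sqrt Q ^ 2 * Q := by ring
              _ = 1 * Q ^ 2 := by rw [hsQ]; ring
          rw [h1]
          have h2 : 1000 * 10 ^ 6 ≤ Real.sqrt Q * Q := mul_le_mul hsQ1 hQ (by norm_num) hsQ0.le
          have h3 : 1 / (Real.sqrt Q * Q) ≤ 1 / (1000 * 10 ^ 6) := one_div_le_one_div_of_le (by norm_num) h2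
          calc 20 / 16 * (1 / (Real.sqrt Q * Q)) ≤ 20 / 16 * (1 / (1000 * 10 ^ 6)) := by gcongr
            _ ≤ _ := by norm_num
  obtain ⟨lam, t, hzt, hlt, ht, hFd, hn1, hn2, hn3, hn4⟩ := nu_cmp hd1 hR hG hx hz (b := 1 / (1000 * 1000)) (by norm_num)
    (by norm_num) (h.trans hsr)
  refine ⟨?_, by linarith, by linarith⟩
  -- the polynomial
  obtain ⟨q, hq⟩ := Wc_poly X x
  have hR2 : (0 : ℝ) < 1 / (2 * Real.sqrt d * Q) := by positivity
  have hr2 : r ≤ 1 / (16 * Real.sqrt d * Q ^ 2) := by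
    refine hr1.trans ?_
    calc nuF X x / (16 * R * Real.sqrt d * Q ^ 2) ≤ R / (16 * R * Real.sqrt d * Q ^ 2) := by gcongr
      _ = 1 / (16 * Real.sqrt d * Q ^ 2) := by field_simp
  have hxx : 1.01 * s * r ≤ 1 / Real.sqrt Q * (1 / (2 * Real.sqrt d * Q)) := by
    calc 1.01 * s * r ≤ 1.01 * (4 * Real.sqrt Q) * (1 / (16 * Real.sqrt d * Q ^ 2)) := by gcongr
      _ = 0.505 * (Real.sqrt Q / Q) * (1 / (2 * Real.sqrt d * Q)) := by field_simp; ring
      _ ≤ 1 / Real.sqrt Q * (1 / (2 * Real.sqrt d * Q)) := by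
          gcongr
          have h1 : Real.sqrt Q / Q = 1 / Real.sqrt Q := by
            rw [div_eq_div_iff (by positivity) (by positivity)]
            calc Real.sqrt Q * Real.sqrt Q = Real.sqrt Q ^ 2 := by ring
              _ = 1 * Q := by rw [hsQ]; ring
          rw [h1]
          have h2 : 0 ≤ 1 / Real.sqrt Q := by positivity
          linarith
  have hF := facS (W := q) (R0 := 1 / (2 * Real.sqrt d)) (R2 := 1 / (2 * Real.sqrt d * Q)) (M := 8 * R ^ 2 * Real.sqrt d)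
    (μ := ((d : ℝ) ^ (C + 2))⁻¹) (ρ := r) (s := 1.01 * s) (x := 1 / Real.sqrt Q * (1 / (2 * Real.sqrt d * Q))) (N := N)
    (by positivity) (by
      have : 1 ≤ Real.sqrt d := by rw [Real.one_le_sqrt]; exact_mod_cast hd1
      rw [div_le_div_iff₀ (by positivity) (by norm_num)]
      linarith) hR2 (by
      rw [show (1 : ℝ) / (2 * Real.sqrt d * Q) = 1 / (2 * Real.sqrt d) * (1 / Q) by field_simp]
      have h1 : 2 * (1 / Q) < 1 := by
        rw [← mul_div_assoc, div_lt_one hQ0]; linarith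
      have h2 : 0 < 1 / (2 * Real.sqrt d) := by positivity
      nlinarith) (by
      intro t ht
      rw [hq]
      refine bndW hd1 hR0.le (fun u hu => (hG u hu).2) hx ?_
      rw [le_div_iff₀ (by positivity)] at ht
      linarith) (by
      intro z' hz'
      rw [hq] at hz'
      obtain ⟨c, hc, hJ, hcd⟩ := crit_of_zero hd1 hx hz'
      exact (hr c hc hJ).trans hcd) (by positivity) hxx (by
      have : 1 / Real.sqrt Q < 1 := by rw [div_lt_one hsQ0]; linarith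
      nlinarith) (by positivity) (by
      rw [hq, aa_zero_chart X hν0]
      calc ((d : ℝ) ^ (C + 2))⁻¹ = ((d : ℝ) ^ C)⁻¹ * ((d : ℝ)⁻¹) ^ 2 := by rw [pow_add, mul_inv, inv_pow]
        _ ≤ ‖aa X x‖ * nuF X x ^ 2 := by gcongr) (by
      have e : 2 * (1 / (2 * Real.sqrt d * Q)) / (1 / (2 * Real.sqrt d)) = 2 / Q := by field_simp
      rw [e]
      exact L.hN) (t := t) (by
      calc ‖t‖ ≤ 1.01 * ‖wd x z‖ := ht
        _ ≤ 1.01 * (s * r) := by gcongr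
        _ = _ := by ring)
  rw [hq, hq] at hF
  have hexp : Real.exp (2 * (1 / Real.sqrt Q * (1 / (2 * Real.sqrt d * Q))) *
      Real.log (8 * R ^ 2 * Real.sqrt d * (2 / (1 / (2 * Real.sqrt d))) ^ N / ((d : ℝ) ^ (C + 2))⁻¹) /
      (1 / (2 * Real.sqrt d * Q) - 1 / Real.sqrt Q * (1 / (2 * Real.sqrt d * Q)))) ≤ 1.2 := by
    have e1 : 8 * R ^ 2 * Real.sqrt d * (2 / (1 / (2 * Real.sqrt d))) ^ N / ((d : ℝ) ^ (C + 2))⁻¹ =
        8 * R ^ 2 * Real.sqrt d * (4 * Real.sqrt d) ^ N * (d : ℝ) ^ (C + 2) := by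
      rw [div_inv_eq_mul]
      congr 3
      field_simp
      norm_num
    rw [e1]
    set LL := Real.log (8 * R ^ 2 * Real.sqrt d * (4 * Real.sqrt d) ^ N * (d : ℝ) ^ (C + 2)) with hLL
    have hLL0 : 0 ≤ LL := by
      apply Real.log_nonneg
      have h1 : (1 : ℝ) ≤ d := by exact_mod_cast hd1
      have h2 : 1 ≤ Real.sqrt d := by rw [Real.one_le_sqrt]; exact h1
      have h3 : 1 ≤ 8 * R ^ 2 * Real.sqrt d := by
        have : 1 ≤ R ^ 2 := one_le_pow₀ hR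
        nlinarith
      exact one_le_mul_of_one_le_of_one_le (one_le_mul_of_one_le_of_one_le h3 (one_le_pow₀ (by linarith))) (one_le_pow₀ h1)
    have hl := L.hl
    rw [← hLL] at hl
    have e2 : 2 * (1 / Real.sqrt Q * (1 / (2 * Real.sqrt d * Q))) * LL /
        (1 / (2 * Real.sqrt d * Q) - 1 / Real.sqrt Q * (1 / (2 * Real.sqrt d * Q))) = 2 * LL / (Real.sqrt Q - 1) := by
      have h5 : Real.sqrt Q - 1 ≠ 0 := by linarith
      have h6 : 1 / (2 * Real.sqrt d * Q) - 1 / Real.sqrt Q * (1 / (2 * Real.sqrt d * Q)) =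
          (Real.sqrt Q - 1) * (1 / Real.sqrt Q * (1 / (2 * Real.sqrt d * Q))) := by
        field_simp
      rw [h6]
      have h7 : 1 / Real.sqrt Q * (1 / (2 * Real.sqrt d * Q)) ≠ 0 := by positivity
      rw [div_eq_div_iff (mul_ne_zero h5 h7) h5]
      ring
    rw [e2]
    have h8 : 2 * LL / (Real.sqrt Q - 1) ≤ 0.1 := by
      rw [div_le_iff₀ (by linarith)]
      linarith
    refine (Real.exp_le_exp.2 h8).trans ?_
    have h9 := Real.exp_bound' (x := 0.1) (by norm_num) (by norm_num) (n := 3) (by norm_num)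
    refine h9.trans ?_
    norm_num [Finset.sum_range_succ, Nat.factorial]
  have hWt : ‖Wc X x t‖ ≤ (1.01 * s + 1) ^ N * 1.2 * ‖Wc X x 0‖ := by
    refine hF.trans ?_
    gcongr
  have hνt : 0 < nuF X (x + t • pp x) := lt_of_lt_of_le (by positivity) hn1
  have hA := aa_chart hd1 X hlt hνt
  rw [← hzt] at hA
  rw [aa_zero_chart X hν0] at hWt
  have ht2 : ‖t‖ ^ 2 ≤ 1 / 1000 := by
    have h1 : ‖t‖ ≤ 1 / 1000 := by
      calc ‖t‖ ≤ 1.01 * ‖wd x z‖ := ht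
        _ ≤ 1.01 * (1 / (1000 * 1000) * nuF X x / (5 * R * Real.sqrt d)) := by
            gcongr
            exact h.trans hsr
        _ ≤ 1.01 * (1 / (1000 * 1000) * R / (5 * R * 1)) := by
            gcongr
            rw [Real.one_le_sqrt]; exact_mod_cast hd1
        _ = 1.01 * (1 / (1000 * 1000) / 5) := by field_simp
        _ ≤ _ := by norm_num
    nlinarith [norm_nonneg t]
  have hP : 0 ≤ (1.01 * s + 1) ^ N * ‖aa X x‖ := by positivity
  have key : ‖aa X z‖ * ((1 - 1 / (1000 * 1000)) * nuF X x) ^ 2 ≤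
      (1.201 * 1.001 * ((1.01 * s + 1) ^ N * ‖aa X x‖)) * nuF X x ^ 2 := by
    calc ‖aa X z‖ * ((1 - 1 / (1000 * 1000)) * nuF X x) ^ 2 ≤ ‖aa X z‖ * nuF X (x + t • pp x) ^ 2 := by
          apply mul_le_mul_of_nonneg_left _ (norm_nonneg _)
          exact pow_le_pow_left₀ (by positivity) hn1 2
      _ = ‖Wc X x t‖ * (1 + ‖t‖ ^ 2) := hA
      _ ≤ ((1.01 * s + 1) ^ N * 1.2 * (‖aa X x‖ * nuF X x ^ 2)) * (1 + 1 / 1000) := by gcongr
      _ ≤ _ := by
          have : 0 ≤ (1.01 * s + 1) ^ N * ‖aa X x‖ * nuF X x ^ 2 := by positivity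
          nlinarith
  have hν2 : 0 < nuF X x ^ 2 := by positivity
  rw [mul_pow, ← mul_assoc] at key
  have key2 := le_of_mul_le_mul_right key hν2
  nlinarith [norm_nonneg (aa X z)]

end Pool.Agent.H47.SG
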