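import Pool.Agent.H47.SG.Gd2
import Pool.Agent.H47.SG.Cmp

/-!
# [H47 SG LIN2] the linear zone around a point which is not too close to a critical point
-/

set_option autoImplicit false

open Finset
open Pool.H70.SF

namespace Pool.Agent.H47.SG

open Pool.Agent.H47.SF

open Pool.Agent.H73.ES (GG)

private lemma e1 {η : ℝ} (h0 : 0 ≤ η) : (1 - 10 * η) * (1 + 3 * η) ≤ 1 - 5 * η := by nlinarith

private lemma e2 {η : ℝ} (h0 : 0 ≤ η) (h1 : η ≤ 1 / 1000) :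
    (1 + 5 * η) * (1 + 1 / 1000 * η) ≤ (1 + 10 * η) * (1 - 2 * η) := by nlinarith

private lemma e3 {η : ℝ} (h0 : 0 ≤ η) : 1 - 1000 * η ≤ (1 - 2 * η) * (1 - (2 * (5 * η) + 5 * η)) := by nlinarith

private lemma e4 {η δ : ℝ} (h0 : 0 ≤ η) (h1 : η ≤ 1 / 1000) (h : 1000 * η ≤ δ) :
    (1 + (2 * (5 * η) + 5 * η)) * (1 + 2 * η) ≤ 1 + δ := by nlinarith

private lemma e5 {η : ℝ} (h0 : 0 ≤ η) (h1 : η ≤ 1 / 1000) : 1 ≤ (1 + 2 * η) * (1 - η) := by nlinarith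

private lemma e6 {η : ℝ} (h0 : 0 ≤ η) (h1 : η ≤ 1 / 1000) : (1 + η) ^ 2 ≤ 1 + 3 * η := by nlinarith

private lemma e7 {η : ℝ} : 1 - 2 * η ≤ (1 - η) ^ 2 := by nlinarith [sq_nonneg η]

private lemma e8 {l t : ℝ} (h0 : 0 ≤ l) (h : l ^ 2 * (1 + t ^ 2) = 1) : l ≤ 1 := by
  have h1 : 0 ≤ l ^ 2 * t ^ 2 := by positivity
  have h2 : l ^ 2 ≤ 1 := by linarith
  exact (sq_le_one_iff₀ h0).1 h2

private lemma e9 {l t η : ℝ} (h0 : 0 ≤ l) (hη : 0 ≤ η) (h : l ^ 2 * (1 + t ^ 2) = 1) (ht : t ^ 2 ≤ 1 / 1000 * η) : 1 - η ≤ l := by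
  have h1 := e8 h0 h
  have h3 : l ^ 2 ≤ l := by
    calc l ^ 2 = l * l := by ring
      _ ≤ 1 * l := mul_le_mul_of_nonneg_right h1 h0
      _ = l := one_mul l
  have h4 : l ^ 2 * t ^ 2 ≤ 1 * (1 / 1000 * η) :=
    mul_le_mul (pow_le_one₀ h0 h1) ht (by positivity) (by norm_num)
  have h5 : l ^ 2 * (1 + t ^ 2) = l ^ 2 + l ^ 2 * t ^ 2 := by ring
  linarith

private lemma e10 {A B a z ν η : ℝ} (hη : 0 ≤ η) (hη1 : η ≤ 1 / 1000) (hν : 0 < ν) (hA : 0 ≤ A) (hz : 0 ≤ z)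
    (ha : a = A * ν ^ 2) (hB1 : (1 - 5 * η) * a ≤ B) {T n : ℝ} (hT : 0 ≤ T) (h : z * n ^ 2 = B * (1 + T)) (hn0 : 0 ≤ n)
    (hn : n ≤ (1 + η) * ν) : (1 - 10 * η) * A ≤ z := by
  have hB0 : 0 ≤ B := le_trans (mul_nonneg (by linarith) (by rw [ha]; positivity)) hB1
  have hν2 : 0 < ν ^ 2 := by positivity
  have k1 : (1 - 5 * η) * A * ν ^ 2 ≤ z * (1 + η) ^ 2 * ν ^ 2 := by
    calc (1 - 5 * η) * A * ν ^ 2 = (1 - 5 * η) * a := by rw [ha]; ring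
      _ ≤ B := hB1
      _ ≤ B * (1 + T) := le_mul_of_one_le_right hB0 (by linarith)
      _ = z * n ^ 2 := h.symm
      _ ≤ z * ((1 + η) * ν) ^ 2 := by gcongr
      _ = _ := by ring
  have k2 := le_of_mul_le_mul_right k1 hν2
  have k4 : (1 - 5 * η) * A ≤ z * (1 + 3 * η) := k2.trans (mul_le_mul_of_nonneg_left (e6 hη hη1) hz)
  have h7 : (1 - 10 * η) * A * (1 + 3 * η) ≤ z * (1 + 3 * η) := by
    calc (1 - 10 * η) * A * (1 + 3 * η) = ((1 - 10 * η) * (1 + 3 * η)) * A := by ring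
      _ ≤ (1 - 5 * η) * A := mul_le_mul_of_nonneg_right (e1 hη) hA
      _ ≤ _ := k4
  exact le_of_mul_le_mul_right h7 (by linarith)

private lemma e11 {A B a z ν η : ℝ} (hη : 0 ≤ η) (hη1 : η ≤ 1 / 1000) (hν : 0 < ν) (hA : 0 ≤ A) (hz : 0 ≤ z)
    (ha : a = A * ν ^ 2) (hB1 : B ≤ (1 + 5 * η) * a) {T n : ℝ} (hT0 : 0 ≤ T) (hT : T ≤ 1 / 1000 * η)
    (h : z * n ^ 2 = B * (1 + T)) (hn : (1 - η) * ν ≤ n) : z ≤ (1 + 10 * η) * A := by
  have hν2 : 0 < ν ^ 2 := by positivity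
  have ha0 : 0 ≤ a := by rw [ha]; positivity
  have k1 : z * (1 - η) ^ 2 * ν ^ 2 ≤ ((1 + 5 * η) * (1 + 1 / 1000 * η)) * A * ν ^ 2 := by
    calc z * (1 - η) ^ 2 * ν ^ 2 = z * ((1 - η) * ν) ^ 2 := by ring
      _ ≤ z * n ^ 2 := by
        apply mul_le_mul_of_nonneg_left _ hz
        exact pow_le_pow_left₀ (mul_nonneg (by linarith) hν.le) hn 2
      _ = B * (1 + T) := h
      _ ≤ ((1 + 5 * η) * a) * (1 + 1 / 1000 * η) := by
        apply mul_le_mul hB1 (by linarith) (by linarith) (by positivity)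
      _ = _ := by rw [ha]; ring
  have k2 := le_of_mul_le_mul_right k1 hν2
  have h7 : z * (1 - 2 * η) ≤ (1 + 10 * η) * A * (1 - 2 * η) := by
    calc z * (1 - 2 * η) ≤ z * (1 - η) ^ 2 := mul_le_mul_of_nonneg_left e7 hz
      _ ≤ _ := k2
      _ ≤ ((1 + 10 * η) * (1 - 2 * η)) * A := mul_le_mul_of_nonneg_right (e2 hη hη1) hA
      _ = _ := by ring
  exact le_of_mul_le_mul_right h7 (by linarith)

/-- the estimates in the chart -/
theorem lin_pre {C d : ℕ} (hd : 2 ≤ d) {R σ η : ℝ} (hR : 1 ≤ R) {X : CV d} (hG : GG R X) {u : ℂ × ℂ} (hu : IsU u)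
    {r0 ρ : ℝ} (hr : ∀ c, IsU c → JJ X c = 0 → r0 ≤ ‖wd u c‖) (hr0 : 0 < r0)
    (hr1 : r0 ≤ 1 / Real.sqrt d) (_hρ00 : 0 ≤ ρ) (hρ : ρ ≤ r0) (hρ1 : ρ ≤ nuF X u / (16 * R * Real.sqrt d))
    (ha : ((d : ℝ) ^ C)⁻¹ ≤ ‖aa X u‖) (hσ1 : 1000 ≤ σ) (hη : η = 1 / σ)
    (hl : 40 * Real.log (8 * R ^ 2 * Real.sqrt d * (d : ℝ) ^ (C + 2)) ≤ σ) :
    ∀ t : ℂ, ‖t‖ ≤ 1.01 * (ρ * η ^ 2) → Real.sqrt (n2 (FF X (u + t • pp u) - FF X u)) ≤ η * nuF X u ∧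
      ‖t‖ ≤ η ^ 2 ∧ ‖Wc X u t - Wc X u 0‖ ≤ 5 * η * ‖Wc X u 0‖ := by
  have hd1 : 1 ≤ d := by omega
  have hdR : (2 : ℝ) ≤ d := by exact_mod_cast hd
  have hd0 : (0 : ℝ) < d := by linarith
  have hR0 : 0 < R := by linarith
  have hsd : 0 < Real.sqrt d := Real.sqrt_pos.2 hd0
  have hsd1 : 1 ≤ Real.sqrt d := by rw [Real.one_le_sqrt]; linarith
  have hν0 : 0 < nuF X u := lt_of_lt_of_le (by positivity) (hG u hu).1
  have hνlo : (d : ℝ)⁻¹ ≤ nuF X u := (hG u hu).1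
  have hνR : nuF X u ≤ R := (hG u hu).2
  have hσ0 : 0 < σ := by linarith
  have hη0 : 0 < η := by rw [hη]; positivity
  have hη1 : η ≤ 1 / 1000 := by rw [hη]; exact one_div_le_one_div_of_le (by norm_num) hσ1
  -- the Wronskian
  set W : ℂ → ℂ := Wc X u with hW
  have hW0 : ((d : ℝ) ^ (C + 2))⁻¹ ≤ ‖W 0‖ := by
    rw [hW, aa_zero_chart X hν0]
    calc ((d : ℝ) ^ (C + 2))⁻¹ = ((d : ℝ) ^ C)⁻¹ * ((d : ℝ)⁻¹) ^ 2 := by rw [pow_add, mul_inv, inv_pow]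
      _ ≤ ‖aa X u‖ * nuF X u ^ 2 := by gcongr
  have hW0pos : 0 < ‖W 0‖ := lt_of_lt_of_le (by positivity) hW0
  have hM : ∀ t : ℂ, ‖t‖ ≤ r0 / 2 → ‖W t‖ ≤ 8 * R ^ 2 * Real.sqrt d := by
    intro t ht
    refine bndW hd1 hR0.le (fun u hu => (hG u hu).2) hu ?_
    have h1 : ‖t‖ * Real.sqrt d ≤ r0 / 2 * Real.sqrt d := by gcongr
    have h2 : r0 * Real.sqrt d ≤ 1 := by
      calc r0 * Real.sqrt d ≤ 1 / Real.sqrt d * Real.sqrt d := by gcongr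
        _ = 1 := by field_simp
    linarith
  have hne : ∀ t : ℂ, ‖t‖ < r0 → W t ≠ 0 := by
    intro t ht h0
    obtain ⟨c, hc, hJ, hcd⟩ := crit_of_zero hd1 hu h0
    have := hr c hc hJ
    linarith
  set x1 : ℝ := r0 / 2 * η with hx1
  have hx10 : 0 < x1 := by positivity
  have hx1r : x1 < r0 / 2 := by
    rw [hx1]
    have : r0 / 2 * η < r0 / 2 * 1 := by
      apply mul_lt_mul_of_pos_left _ (by positivity)
      linarith
    linarith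
  have hWx : ∀ t : ℂ, ‖t‖ ≤ x1 → ‖W t‖ ≤ 1.2 * ‖W 0‖ := by
    intro t ht
    have hb := (bc (E := W) (c := 0) (r := r0 / 2) (M := 8 * R ^ 2 * Real.sqrt d)
      (Wc_diff X u).differentiableOn (fun s hs => hne s (by
        rw [Metric.mem_ball, dist_zero_right] at hs
        linarith)) (fun s hs => hM s (by
        rw [Metric.mem_ball, dist_zero_right] at hs
        exact hs.le)) (t := t) (x := x1) (by simpa using ht) hx1r).1
    refine hb.trans ?_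
    rw [mul_comm]
    apply mul_le_mul_of_nonneg_right _ (norm_nonneg _)
    set LL := Real.log (8 * R ^ 2 * Real.sqrt d / ‖W 0‖) with hLL
    have hLL1 : LL ≤ Real.log (8 * R ^ 2 * Real.sqrt d * (d : ℝ) ^ (C + 2)) := by
      apply Real.log_le_log (by positivity)
      rw [div_le_iff₀ hW0pos]
      have h1 : 1 ≤ (d : ℝ) ^ (C + 2) * ‖W 0‖ := by
        calc (1 : ℝ) = (d : ℝ) ^ (C + 2) * ((d : ℝ) ^ (C + 2))⁻¹ := by field_simp
          _ ≤ _ := by gcongr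
      calc 8 * R ^ 2 * Real.sqrt d = 8 * R ^ 2 * Real.sqrt d * 1 := by ring
        _ ≤ 8 * R ^ 2 * Real.sqrt d * ((d : ℝ) ^ (C + 2) * ‖W 0‖) := by gcongr
        _ = _ := by ring
    have e2 : 2 * x1 * LL / (r0 / 2 - x1) = 2 * LL / (σ - 1) := by
      have h5 : σ - 1 ≠ 0 := by linarith
      have h6 : r0 / 2 - x1 = (σ - 1) * x1 := by
        rw [hx1, hη]
        field_simp
      rw [h6, div_eq_div_iff (mul_ne_zero h5 hx10.ne') h5]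
      ring
    rw [e2]
    have h8 : 2 * LL / (σ - 1) ≤ 0.1 := by
      rw [div_le_iff₀ (by linarith)]
      linarith
    refine (Real.exp_le_exp.2 h8).trans ?_
    have h9 := Real.exp_bound' (x := 0.1) (by norm_num) (by norm_num) (n := 3) (by norm_num)
    refine h9.trans ?_
    norm_num [Finset.sum_range_succ, Nat.factorial]
  have hSch : ∀ t : ℂ, ‖t‖ < x1 → ‖W t - W 0‖ ≤ 2.3 * ‖W 0‖ / x1 * ‖t‖ := by
    intro t ht
    have h1 := Complex.dist_le_div_mul_dist_of_mapsTo_ball (f := W) (c := 0) (R₁ := x1) (R₂ := 2.3 * ‖W 0‖)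
      (z := t) (Wc_diff X u).differentiableOn (by
        intro s hs
        rw [Metric.mem_ball, dist_zero_right] at hs
        rw [Metric.mem_closedBall, dist_eq_norm]
        have h2 := hWx s hs.le
        have h3 := norm_sub_le (W s) (W 0)
        linarith) (by rw [Metric.mem_ball, dist_zero_right]; exact ht)
    rw [dist_eq_norm, dist_zero_right] at h1
    exact h1
  have hrt : ∀ t : ℂ, ‖t‖ ≤ 1.01 * (ρ * η ^ 2) → ‖t‖ < x1 ∧ ‖W t - W 0‖ ≤ 5 * η * ‖W 0‖ := by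
    intro t ht
    have h1 : ‖t‖ ≤ 2.02 * η * x1 := by
      calc ‖t‖ ≤ 1.01 * (ρ * η ^ 2) := ht
        _ ≤ 1.01 * (r0 * η ^ 2) := by gcongr
        _ = 2.02 * η * x1 := by rw [hx1]; ring
    have h2 : ‖t‖ < x1 := by
      have h3 : 2.02 * η < 1 := by linarith
      have h4 : 2.02 * η * x1 < 1 * x1 := mul_lt_mul_of_pos_right h3 hx10
      linarith
    refine ⟨h2, (hSch t h2).trans ?_⟩
    calc 2.3 * ‖W 0‖ / x1 * ‖t‖ ≤ 2.3 * ‖W 0‖ / x1 * (2.02 * η * x1) := by gcongr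
      _ = 4.646 * η * ‖W 0‖ := by field_simp; ring
      _ ≤ 5 * η * ‖W 0‖ := by gcongr; norm_num
  have hFt : ∀ t : ℂ, ‖t‖ ≤ 1.01 * (ρ * η ^ 2) →
      Real.sqrt (n2 (FF X (u + t • pp u) - FF X u)) ≤ η * nuF X u ∧ ‖t‖ ≤ η ^ 2 := by
    intro t ht
    have h1 : ‖t‖ * (4 * R * Real.sqrt d) ≤ 0.2525 * η ^ 2 * nuF X u := by
      calc ‖t‖ * (4 * R * Real.sqrt d) ≤ 1.01 * (nuF X u / (16 * R * Real.sqrt d) * η ^ 2) * (4 * R * Real.sqrt d) := by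
            gcongr
            exact ht.trans (by gcongr)
        _ = 0.2525 * η ^ 2 * nuF X u := by field_simp; ring
    have h2 : 2 * ‖t‖ * Real.sqrt d ≤ 1 := by
      have h3 : 4 * R * (‖t‖ * Real.sqrt d) ≤ 4 * R * (1 / 2) := by
        calc 4 * R * (‖t‖ * Real.sqrt d) = ‖t‖ * (4 * R * Real.sqrt d) := by ring
          _ ≤ 0.2525 * η ^ 2 * nuF X u := h1
          _ ≤ 0.2525 * (1 / 1000) ^ 2 * R := by gcongr
          _ ≤ 4 * R * (1 / 2) := by nlinarith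
      have := le_of_mul_le_mul_left h3 (by positivity)
      linarith
    refine ⟨(bndD hd1 hR0.le (fun u hu => (hG u hu).2) hu h2).trans ?_, ?_⟩
    · calc 4 * R * Real.sqrt d * ‖t‖ = ‖t‖ * (4 * R * Real.sqrt d) := by ring
        _ ≤ 0.2525 * η ^ 2 * nuF X u := h1
        _ ≤ η * nuF X u := by
          apply mul_le_mul_of_nonneg_right _ hν0.le
          nlinarith
    · have h3 : ρ ≤ 1 / 16 := by
        calc ρ ≤ nuF X u / (16 * R * Real.sqrt d) := hρ1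
          _ ≤ R / (16 * R * 1) := by gcongr
          _ = 1 / 16 := by field_simp
      calc ‖t‖ ≤ 1.01 * (ρ * η ^ 2) := ht
        _ ≤ 1.01 * (1 / 16 * η ^ 2) := by gcongr
        _ ≤ η ^ 2 := by nlinarith [sq_nonneg η]
  intro t ht
  exact ⟨(hFt t ht).1, (hFt t ht).2, (hrt t ht).2⟩

/-- the linear zone: `ρ` is at most the distance `r0` to the critical points, `r0 ≤ 1 / √d`, and at most `|F| / (16 R √d)` -/
theorem lin2s {C d : ℕ} (hd : 2 ≤ d) {R Λ δ : ℝ} (hR : 1 ≤ R) {X : CV d} (hG : GG R X) {u z : ℂ × ℂ} (hu : IsU u)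
    (hz : IsU z) {r0 ρ : ℝ} (hr : ∀ c, IsU c → JJ X c = 0 → r0 ≤ ‖wd u c‖) (hr0 : 0 < r0)
    (hr1 : r0 ≤ 1 / Real.sqrt d) (hρ : ρ ≤ r0) (hρ1 : ρ ≤ nuF X u / (16 * R * Real.sqrt d))
    (ha : ((d : ℝ) ^ C)⁻¹ ≤ ‖aa X u‖) (hδ : 0 < δ) (hδ1 : δ ≤ 1) (hΛ : 1000 / δ ≤ Real.sqrt Λ)
    (hl : 40 * Real.log (8 * R ^ 2 * Real.sqrt d * (d : ℝ) ^ (C + 2)) ≤ Real.sqrt Λ)
    (h : ‖wd u z‖ ≤ ρ / Λ) :
    ((1 - δ) * ‖aa X u‖ ≤ ‖aa X z‖ ∧ ‖aa X z‖ ≤ (1 + δ) * ‖aa X u‖) ∧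
    ((1 - δ) * (‖aa X u‖ * ‖wd u z‖) ≤ ‖wd (nx X u) (nx X z)‖ ∧
      ‖wd (nx X u) (nx X z)‖ ≤ (1 + δ) * (‖aa X u‖ * ‖wd u z‖)) := by
  have hd1 : 1 ≤ d := by omega
  have hdR : (2 : ℝ) ≤ d := by exact_mod_cast hd
  have hd0 : (0 : ℝ) < d := by linarith
  have hR0 : 0 < R := by linarith
  have hsd : 0 < Real.sqrt d := Real.sqrt_pos.2 hd0
  have hsd1 : 1 ≤ Real.sqrt d := by rw [Real.one_le_sqrt]; linarith
  have hν0 : 0 < nuF X u := lt_of_lt_of_le (by positivity) (hG u hu).1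
  have hνlo : (d : ℝ)⁻¹ ≤ nuF X u := (hG u hu).1
  have hνR : nuF X u ≤ R := (hG u hu).2
  set σ := Real.sqrt Λ with hσ
  have hσ1 : 1000 ≤ σ := by
    refine le_trans ?_ hΛ
    rw [le_div_iff₀ hδ]
    linarith
  have hσ0 : 0 < σ := by linarith
  have hΛ0 : 0 < Λ := by
    by_contra hcon
    push Not at hcon
    rw [hσ, Real.sqrt_eq_zero_of_nonpos hcon] at hσ0
    exact lt_irrefl _ hσ0
  have hσ2 : σ ^ 2 = Λ := Real.sq_sqrt hΛ0.le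
  have hδσ : 1000 / σ ≤ δ := by
    rw [div_le_iff₀ hσ0]
    rw [div_le_iff₀ hδ] at hΛ
    linarith
  set η : ℝ := 1 / σ with hη
  have hη0 : 0 < η := by positivity
  have hη1 : η ≤ 1 / 1000 := one_div_le_one_div_of_le (by norm_num) hσ1
  have hηδ : 1000 * η ≤ δ := by rw [hη]; rw [← mul_div_assoc, mul_one]; exact hδσ
  have hΛη : 1 / Λ = η ^ 2 := by rw [← hσ2, hη]; field_simp
  have hρ00 : 0 ≤ ρ := by
    have := (norm_nonneg _).trans h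
    by_contra hcon
    push Not at hcon
    have h2 := div_neg_of_neg_of_pos hcon hΛ0
    linarith
  have hw : ‖wd u z‖ ≤ ρ * η ^ 2 := by
    calc ‖wd u z‖ ≤ ρ / Λ := h
      _ = ρ * (1 / Λ) := by ring
      _ = _ := by rw [hΛη]
  have hρs : ρ ≤ 1 := by
    calc ρ ≤ r0 := hρ
      _ ≤ 1 / Real.sqrt d := hr1
      _ ≤ 1 / 1 := one_div_le_one_div_of_le (by norm_num) hsd1
      _ = 1 := by norm_num
  have hw1 : ‖wd u z‖ ≤ 1 / 10 := by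
    calc ‖wd u z‖ ≤ ρ * η ^ 2 := hw
      _ ≤ 1 * (1 / 1000) ^ 2 := by gcongr
      _ ≤ 1 / 10 := by norm_num
  obtain ⟨lam, t, hzt, hlt, hwt⟩ := exists_chart hu hz (by linarith)
  have hwn : ‖lam‖ * ‖t‖ = ‖wd u z‖ := by rw [hwt, norm_mul]
  have ht1 := t_le hlt hwn hw1
  have htρ : ‖t‖ ≤ 1.01 * (ρ * η ^ 2) := ht1.trans (by gcongr)
  have hpre := lin_pre hd hR hG hu hr hr0 hr1 hρ00 hρ hρ1 ha hσ1 hη hl
  obtain ⟨hF1, ht2, hWt⟩ := hpre t htρ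
  have hνt := nu_near (θ := η) (u := u) (w := u + t • pp u) hF1
  have hνt0 : 0 < nuF X (u + t • pp u) := lt_of_lt_of_le (mul_pos (by linarith) hν0) hνt.1
  have hη2 : η ^ 2 ≤ 1 / 1000 * η := by
    rw [pow_two]
    exact mul_le_mul_of_nonneg_right hη1 hη0.le
  have ht4 : ‖t‖ ^ 2 ≤ 1 / 1000 * η := by
    have h1 : ‖t‖ ≤ 1 := by linarith
    calc ‖t‖ ^ 2 = ‖t‖ * ‖t‖ := by ring
      _ ≤ 1 * ‖t‖ := mul_le_mul_of_nonneg_right h1 (norm_nonneg _)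
      _ ≤ _ := by linarith
  have hA0 : 0 ≤ ‖aa X u‖ := norm_nonneg _
  constructor
  · -- derivatives
    have hA := aa_chart hd1 X hlt hνt0
    rw [← hzt] at hA
    have h0 := aa_zero_chart X hν0
    have hWu : ‖Wc X u t‖ ≤ (1 + 5 * η) * ‖Wc X u 0‖ := by
      have := norm_sub_norm_le (Wc X u t) (Wc X u 0)
      linarith
    have hWl : (1 - 5 * η) * ‖Wc X u 0‖ ≤ ‖Wc X u t‖ := by
      have := norm_sub_norm_le (Wc X u 0) (Wc X u t)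
      rw [norm_sub_rev] at this
      linarith
    constructor
    · refine le_trans ?_ (e10 hη0.le hη1 hν0 hA0 (norm_nonneg (aa X z)) h0 hWl (sq_nonneg ‖t‖) hA hνt0.le hνt.2)
      gcongr
      linarith
    · refine (e11 hη0.le hη1 hν0 hA0 (norm_nonneg (aa X z)) h0 hWu (sq_nonneg ‖t‖) ht4 hA hνt.1).trans ?_
      gcongr
      linarith
  · -- distances
    have hg := gd2 hd1 hu hν0 (r := 1.01 * (ρ * η ^ 2)) (θ := η) (δ := 5 * η) (by linarith)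
      (fun s hs => (hpre s hs).1) (fun s hs => (hpre s hs).2.2) (t := t) htρ
    have hx := nx_chart X hlt hνt0 hν0
    rw [← hzt] at hx
    rw [← hx] at hg
    have hpos : 0 < nuF X (u + t • pp u) * nuF X u := by positivity
    have hg1 := le_of_mul_le_mul_right hg.1 hpos
    have hg2 := le_of_mul_le_mul_right hg.2 hpos
    have hl1 : ‖lam‖ ≤ 1 := e8 (norm_nonneg _) hlt
    have hl2 : 1 - η ≤ ‖lam‖ := e9 (norm_nonneg _) hη0.le hlt ht4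
    have hwt1 : ‖wd u z‖ ≤ ‖t‖ := by
      rw [← hwn]
      calc ‖lam‖ * ‖t‖ ≤ 1 * ‖t‖ := by gcongr
        _ = _ := one_mul _
    have hwt2 : (1 - η) * ‖t‖ ≤ ‖wd u z‖ := by
      rw [← hwn]
      gcongr
    have ht0 : 0 ≤ ‖t‖ := norm_nonneg _
    have hAw : 0 ≤ ‖aa X u‖ * ‖wd u z‖ := by positivity
    constructor
    · refine le_trans ?_ hg2
      have k1 : ‖aa X u‖ * ‖wd u z‖ ≤ ‖aa X u‖ * ‖t‖ := by gcongr
      calc (1 - δ) * (‖aa X u‖ * ‖wd u z‖) ≤ (1 - 1000 * η) * (‖aa X u‖ * ‖wd u z‖) := by gcongr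
        _ ≤ ((1 - 2 * η) * (1 - (2 * (5 * η) + 5 * η))) * (‖aa X u‖ * ‖wd u z‖) :=
            mul_le_mul_of_nonneg_right (e3 hη0.le) hAw
        _ = (1 - 2 * η) * ((1 - (2 * (5 * η) + 5 * η)) * (‖aa X u‖ * ‖wd u z‖)) := by ring
        _ ≤ (1 - 2 * η) * ((1 - (2 * (5 * η) + 5 * η)) * (‖aa X u‖ * ‖t‖)) := by
            apply mul_le_mul_of_nonneg_left _ (by linarith)
            exact mul_le_mul_of_nonneg_left k1 (by linarith)
    · refine hg1.trans ?_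
      have k2 : ‖t‖ ≤ (1 + 2 * η) * ‖wd u z‖ := by
        calc ‖t‖ ≤ ((1 + 2 * η) * (1 - η)) * ‖t‖ := le_mul_of_one_le_left ht0 (e5 hη0.le hη1)
          _ = (1 + 2 * η) * ((1 - η) * ‖t‖) := by ring
          _ ≤ _ := by gcongr
      calc (1 + (2 * (5 * η) + 5 * η)) * (‖aa X u‖ * ‖t‖)
          ≤ (1 + (2 * (5 * η) + 5 * η)) * (‖aa X u‖ * ((1 + 2 * η) * ‖wd u z‖)) := by gcongr
        _ = ((1 + (2 * (5 * η) + 5 * η)) * (1 + 2 * η)) * (‖aa X u‖ * ‖wd u z‖) := by ring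
        _ ≤ (1 + δ) * (‖aa X u‖ * ‖wd u z‖) := mul_le_mul_of_nonneg_right (e4 hη0.le hη1 hηδ) hAw

end Pool.Agent.H47.SG
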