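import Pool.Agent.H47.SG.DC
import Pool.Agent.H47.SG.Dbl
import Pool.Agent.H47.SG.Lin2
import Pool.Agent.H47.SF.Sph
import Pool.Agent.H91.BL.Def
import Pool.Agent.H41.SX.Def
import Pool.Agent.H70.SF.FDX

/-!
# [H47 SG SYS] the hypotheses of the block lemma for a rational map of the sphere

`sy R X`: the system. `hyp_of`: `Hyp` with `Δ = √Q / √d`, `ρ0 = 1 / √d`, `θ = d ^ (-3236)`, `Ea = d`, `Eρ = 64 R ^ 2 d ^ 4`, `M = 64 R ^ 2 d ^ 3`.
-/

set_option autoImplicit false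

open Finset
open Pool.H70.SF

namespace Pool.Agent.H47.SG

open Pool.Agent.H47.SF

open Pool.Agent.H73.ES (GG)

open Pool.Agent.H41.SX (NDx)

open Pool.Agent.H91.BL (Sy Hyp P)

/-- the system -/
noncomputable def sy {d : ℕ} (R : ℝ) (X : CV d) : Sy UU where
  f := fS X
  a u := ‖aa X u.val‖
  D u v := ‖wd u.val v.val‖
  R u := min (1 / Real.sqrt d) (dC X u.val)
  ρ u := min (min (1 / Real.sqrt d) (dC X u.val)) (nuF X u.val / (16 * R * Real.sqrt d))
  C := {c | JJ X c.val = 0}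

/-- no critical point nearby -/
theorem free {d : ℕ} (hd : 1 ≤ d) {Q R : ℝ} {X : CV d} (hnd : NDx Q R X) {u : ℂ × ℂ} (hu : IsU u)
    (h : ∀ c, IsU c → JJ X c = 0 → nuF X u / (16 * R * Real.sqrt d * Q ^ 2) ≤ ‖wd u c‖) :
    Q ^ 3 ≤ ‖aa X u‖ * nuF X u := by
  by_contra hcon
  push Not at hcon
  obtain ⟨t, ht, h0⟩ := hnd u hu hcon
  obtain ⟨c, hc, hJ, hcd⟩ := crit_of_zero hd hu h0
  have := h c hc hJ
  linarith

theorem sqrt_ge {d : ℕ} {Q R : ℝ} (S : Sq Q R d) : 16 * R ≤ Real.sqrt Q := by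
  have hR := S.R1
  have h1 : (16 * R) ^ 2 ≤ Q := by
    have h2 : R ^ 2 ≤ R ^ 3 := pow_le_pow_right₀ hR (by norm_num)
    have := S.q3
    nlinarith
  exact Real.le_sqrt_of_sq_le h1

/-- deep points are near the critical points -/
theorem deepR {d : ℕ} {Q R : ℝ} (S : Sq Q R d) {X : CV d} (hG : GG R X) (hnd : NDx Q R X) {x : ℂ × ℂ} (hx : IsU x)
    (h : min (1 / Real.sqrt d) (dC X x) * ‖aa X x‖ < Real.sqrt Q / Real.sqrt d) :
    min (1 / Real.sqrt d) (dC X x) ≤ nuF X x / (16 * R * Real.sqrt d * Q ^ 2) := by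
  have hd1 : 1 ≤ d := by have := S.d2; omega
  have hd0 : (0 : ℝ) < d := by exact_mod_cast hd1
  have hR := S.R1
  have hR0 : 0 < R := by linarith
  have hQ := S.q1
  have hQ0 : 0 < Q := by linarith
  have hsd : 0 < Real.sqrt d := Real.sqrt_pos.2 hd0
  have hsQ0 : 0 < Real.sqrt Q := Real.sqrt_pos.2 hQ0
  have hsQ : Real.sqrt Q ^ 2 = Q := Real.sq_sqrt hQ0.le
  have hν0 : 0 < nuF X x := lt_of_lt_of_le (by positivity) (hG x hx).1
  by_contra hcon
  push Not at hcon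
  have h1 := free hd1 hnd hx (fun c hc hJ => by
    have h2 := min_le_right (1 / Real.sqrt d) (dC X x)
    have h3 := dC_le X x hc hJ
    linarith)
  have h2 : Real.sqrt Q / Real.sqrt d ≤ nuF X x / (16 * R * Real.sqrt d * Q ^ 2) * ‖aa X x‖ := by
    calc Real.sqrt Q / Real.sqrt d ≤ Q / (16 * R) / Real.sqrt d := by
          gcongr
          rw [le_div_iff₀ (by positivity)]
          calc Real.sqrt Q * (16 * R) ≤ Real.sqrt Q * Real.sqrt Q := by gcongr; exact sqrt_ge S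
            _ = Q := Real.mul_self_sqrt hQ0.le
      _ = Q ^ 3 / (16 * R * Real.sqrt d * Q ^ 2) := by field_simp
      _ ≤ (‖aa X x‖ * nuF X x) / (16 * R * Real.sqrt d * Q ^ 2) := by gcongr
      _ = _ := by ring
  have h3 : nuF X x / (16 * R * Real.sqrt d * Q ^ 2) * ‖aa X x‖ ≤ min (1 / Real.sqrt d) (dC X x) * ‖aa X x‖ := by
    gcongr
  linarith

/-- near a point with small `|F|` which is far from the critical points -/
theorem pole_pt {d : ℕ} {Q R Sm Λ Γp : ℝ} (S : Sq Q R d) {X : CV d} (hG : GG R X) (hnd : NDx Q R X) {u z : ℂ × ℂ}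
    (hu : IsU u) (hz : IsU z) (hΛ : 10 ≤ Λ) (hSm : 1 ≤ Sm) (hSmQ : 2 * Sm ≤ Q ^ 2) (hΓ0 : 0 ≤ Γp)
    (hΓ : 21 * R * Sm * Γp ≤ Q ^ 3)
    (h1 : nuF X u / (16 * R * Real.sqrt d) ≤ Sm * ‖wd z u‖) (h2 : Λ * ‖wd z u‖ ≤ min (1 / Real.sqrt d) (dC X u)) :
    Γp * (1 / Real.sqrt d) ≤ ‖aa X z‖ * ‖wd z u‖ := by
  have hd2 := S.d2
  have hd1 : 1 ≤ d := by omega
  have hd0 : (0 : ℝ) < d := by exact_mod_cast hd1
  have hR := S.R1
  have hR0 : 0 < R := by linarith
  have hQ := S.q1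
  have hQ0 : 0 < Q := by linarith
  have hsd : 0 < Real.sqrt d := Real.sqrt_pos.2 hd0
  have hsd1 : 1 ≤ Real.sqrt d := by rw [Real.one_le_sqrt]; exact_mod_cast hd1
  have hν0 : 0 < nuF X u := lt_of_lt_of_le (by positivity) (hG u hu).1
  have hνz : 0 < nuF X z := lt_of_lt_of_le (by positivity) (hG z hz).1
  set D := ‖wd z u‖ with hD
  have hD0 : 0 < D := by
    have h3 : 0 < nuF X u / (16 * R * Real.sqrt d) := by positivity
    have h4 : 0 < Sm * D := lt_of_lt_of_le h3 h1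
    exact (pos_iff_pos_of_mul_pos h4).1 (by linarith)
  have hDs : 10 * D ≤ 1 / Real.sqrt d := by
    have h3 := min_le_left (1 / Real.sqrt d) (dC X u)
    have h4 : 10 * D ≤ Λ * D := by gcongr
    linarith
  have hD10 : D ≤ 1 / 10 := by
    have : 1 / Real.sqrt d ≤ 1 := by rw [div_le_one hsd]; exact hsd1
    linarith
  have hDC : 10 * D ≤ dC X u := by
    have h3 := min_le_right (1 / Real.sqrt d) (dC X u)
    have h4 : 10 * D ≤ Λ * D := by gcongr
    linarith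
  have hDu : ‖wd u z‖ = D := wd_comm u z
  -- the size of |F(z)|
  have hνz2 : nuF X z ≤ 21 * R * Sm * Real.sqrt d * D := by
    obtain ⟨lam, t, hzt, hlt, hwt⟩ := exists_chart hu hz (by linarith)
    have hwn : ‖lam‖ * ‖t‖ = ‖wd u z‖ := by rw [hwt, norm_mul]
    have ht1 := t_le hlt hwn (by rw [hDu]; exact hD10)
    rw [hDu] at ht1
    have hst : ‖t‖ * Real.sqrt d ≤ 0.101 := by
      calc ‖t‖ * Real.sqrt d ≤ (1.01 * D) * Real.sqrt d := by gcongr
        _ = 0.101 * (10 * D * Real.sqrt d) := by ring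
        _ ≤ 0.101 * (1 / Real.sqrt d * Real.sqrt d) := by gcongr
        _ = 0.101 := by field_simp
    have hDb := bndD hd1 hR0.le (fun u hu => (hG u hu).2) hu (t := t) (by linarith)
    have hlam : ‖lam‖ ≤ 1 := by
      have h3 : ‖lam‖ ^ 2 ≤ 1 := by nlinarith [mul_nonneg (sq_nonneg ‖lam‖) (sq_nonneg ‖t‖)]
      exact (sq_le_one_iff₀ (norm_nonneg _)).1 h3
    have h5 : nuF X (u + t • pp u) ≤ nuF X u + 4 * R * Real.sqrt d * ‖t‖ := by
      have h6 := Pool.Agent.H47.SF.n2_add_le (FF X u) (FF X (u + t • pp u) - FF X u)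
      rw [add_sub_cancel] at h6
      have h7 : nuF X (u + t • pp u) ≤ nuF X u + Real.sqrt (n2 (FF X (u + t • pp u) - FF X u)) := h6
      linarith
    have h8 : nuF X u ≤ 16 * R * Real.sqrt d * (Sm * D) := by
      rw [div_le_iff₀ (by positivity)] at h1
      linarith
    have h9 : nuF X z ≤ nuF X (u + t • pp u) := by
      rw [hzt, nuF_smul]
      calc ‖lam‖ ^ d * nuF X (u + t • pp u) ≤ 1 * nuF X (u + t • pp u) :=
            mul_le_mul_of_nonneg_right (pow_le_one₀ (norm_nonneg _) hlam) (nuF_nonneg _ _)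
        _ = _ := one_mul _
    calc nuF X z ≤ 16 * R * Real.sqrt d * (Sm * D) + 4 * R * Real.sqrt d * ‖t‖ := by linarith
      _ ≤ 16 * R * Real.sqrt d * (Sm * D) + 4 * R * Real.sqrt d * (1.01 * (Sm * D)) := by
          gcongr
          refine ht1.trans ?_
          have : D ≤ Sm * D := le_mul_of_one_le_left hD0.le hSm
          linarith
      _ = 20.04 * (R * Sm * Real.sqrt d * D) := by ring
      _ ≤ 21 * (R * Sm * Real.sqrt d * D) := by
          have : 0 ≤ R * Sm * Real.sqrt d * D := by positivity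
          linarith
      _ = _ := by ring
  have hfree := free hd1 hnd hz (fun c hc hJ => by
    have h3 : nuF X z / (16 * R * Real.sqrt d * Q ^ 2) ≤ D := by
      rw [div_le_iff₀ (by positivity)]
      calc nuF X z ≤ 21 * R * Sm * Real.sqrt d * D := hνz2
        _ = 10.5 * R * Real.sqrt d * (2 * Sm) * D := by ring
        _ ≤ 10.5 * R * Real.sqrt d * Q ^ 2 * D := by gcongr
        _ ≤ D * (16 * R * Real.sqrt d * Q ^ 2) := by
            have : 0 ≤ R * Real.sqrt d * Q ^ 2 * D := by positivity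
            linarith
    have h4 := dC_le X u hc hJ
    have h5 := tri hu hz hc
    rw [hDu] at h5
    linarith)
  have h10 : Γp * nuF X z ≤ Q ^ 3 * (Real.sqrt d * D) := by
    calc Γp * nuF X z ≤ Γp * (21 * R * Sm * Real.sqrt d * D) := by gcongr
      _ = (21 * R * Sm * Γp) * (Real.sqrt d * D) := by ring
      _ ≤ Q ^ 3 * (Real.sqrt d * D) := by gcongr
  have h11 : Γp * nuF X z ≤ (‖aa X z‖ * D * Real.sqrt d) * nuF X z := by
    calc Γp * nuF X z ≤ Q ^ 3 * (Real.sqrt d * D) := h10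
      _ ≤ (‖aa X z‖ * nuF X z) * (Real.sqrt d * D) := by gcongr
      _ = _ := by ring
  have h12 := le_of_mul_le_mul_right h11 hνz
  rw [mul_one_div, div_le_iff₀ hsd]
  exact h12

/-- the hypotheses of the block lemma -/
theorem hyp_of {N n0 d : ℕ} {Q R Λ Sm Γ Γp : ℝ} (L : Lq N 3236 Q R d) {X : CV d} (hG : GG R X) (hnd : NDx Q R X)
    (halo : ∀ c, IsU c → JJ X c = 0 → ∀ l ≤ n0, (d : ℝ)⁻¹ ≤ ‖al X c l‖)
    (hgro : ∀ c, IsU c → JJ X c = 0 → ∀ k, 2 ≤ k → k ≤ n0 → Γ ≤ Ph X c k)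
    (hn0 : 1 ≤ n0) (hΛ1 : 2 * 6 ^ (N + 1) ≤ Λ) (hΛ2 : 8000 * n0 ≤ Real.sqrt Λ)
    (hΛ3 : 40 * Real.log (8 * R ^ 2 * Real.sqrt d * (d : ℝ) ^ 3) ≤ Real.sqrt Λ)
    (hSm : 1 ≤ Sm) (hSm2 : Sm ^ 2 ≤ Q) (hΔ : Λ * Sm ≤ Real.sqrt Q) (hΓp : Λ * Sm ≤ Γp)
    (hΓp2 : 21 * R * Sm * Γp ≤ Q ^ 3) :
    Hyp (sy R X) Λ (Real.sqrt Q / Real.sqrt d) (1 / Real.sqrt d) ((d : ℝ) ^ 3236)⁻¹ d (64 * R ^ 2 * (d : ℝ) ^ 4)
      (64 * R ^ 2 * (d : ℝ) ^ 3) Sm Γ Γp N n0 := by
  have hd2 := L.d2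
  have hd1 : 1 ≤ d := by omega
  have hdR : (2 : ℝ) ≤ d := by exact_mod_cast hd2
  have hd0 : (0 : ℝ) < d := by linarith
  have hd1' : (1 : ℝ) ≤ d := by linarith
  have hR := L.R1
  have hR0 : 0 < R := by linarith
  have hR2 : 1 ≤ R ^ 2 := one_le_pow₀ hR
  have hQ := L.q1
  have hQ0 : 0 < Q := by linarith
  have hsd : 0 < Real.sqrt d := Real.sqrt_pos.2 hd0
  have hss : Real.sqrt d ^ 2 = d := Real.sq_sqrt hd0.le
  have hsd1 : 1 ≤ Real.sqrt d := by rw [Real.one_le_sqrt]; exact hd1'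
  have hsQ0 : 0 < Real.sqrt Q := Real.sqrt_pos.2 hQ0
  have hlo : ∀ u, IsU u → (d : ℝ)⁻¹ ≤ nuF X u := fun u hu => (hG u hu).1
  have hco : ∀ v : UU, (fS X v : ℂ × ℂ) = nx X v := fS_coe hd1 hlo
  have hit : ∀ (v : UU) (l : ℕ), ((fS X)^[l] (fS X v) : ℂ × ℂ) = ob X v l := by
    intro v l
    rw [fS_iter hd1 hlo, ob_eq, hco]
  have hn0R : (1 : ℝ) ≤ n0 := by exact_mod_cast hn0
  have h6N : (1 : ℝ) ≤ 6 ^ (N + 1) := one_le_pow₀ (by norm_num)
  have h6 : (6 : ℝ) ≤ 6 ^ (N + 1) := le_self_pow₀ (by norm_num) (by omega)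
  have hΛ10 : 10 ≤ Λ := by linarith
  have hR0' : ∀ x : UU, 0 ≤ min (1 / Real.sqrt d) (dC X x.val) := fun x => le_min (by positivity) (dC_nonneg X _)
  -- the linear zone
  have hlin : ∀ c : UU, JJ X c.val = 0 → ∀ l ≤ n0, ∀ z : UU,
      ‖wd z.val (ob X c.val l)‖ ≤ min (min (1 / Real.sqrt d) (dC X (ob X c.val l)))
        (nuF X (ob X c.val l) / (16 * R * Real.sqrt d)) / Λ →
      ((1 - 1 / (8 * (n0 : ℝ))) * ‖aa X (ob X c.val l)‖ ≤ ‖aa X z.val‖ ∧
        ‖aa X z.val‖ ≤ (1 + 1 / (8 * (n0 : ℝ))) * ‖aa X (ob X c.val l)‖) ∧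
      ((1 - 1 / (8 * (n0 : ℝ))) * (‖aa X (ob X c.val l)‖ * ‖wd z.val (ob X c.val l)‖) ≤
          ‖wd (nx X z.val) (nx X (ob X c.val l))‖ ∧
        ‖wd (nx X z.val) (nx X (ob X c.val l))‖ ≤
          (1 + 1 / (8 * (n0 : ℝ))) * (‖aa X (ob X c.val l)‖ * ‖wd z.val (ob X c.val l)‖)) := by
    intro c hc l hl z hz
    have hu : IsU (ob X c.val l) := by
      rw [← hit c l]
      exact Subtype.prop _
    have ha : (d : ℝ)⁻¹ ≤ ‖aa X (ob X c.val l)‖ := halo c.val c.prop hc l hl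
    have hr0 : 0 < min (1 / Real.sqrt d) (dC X (ob X c.val l)) :=
      lt_of_lt_of_le (by positivity) (dC_ge hd2 hR hG hu ha)
    have h1 := lin2s (C := 1) hd2 (Λ := Λ) (δ := 1 / (8 * (n0 : ℝ))) hR hG hu z.prop
      (r0 := min (1 / Real.sqrt d) (dC X (ob X c.val l)))
      (ρ := min (min (1 / Real.sqrt d) (dC X (ob X c.val l))) (nuF X (ob X c.val l) / (16 * R * Real.sqrt d)))
      (fun c' hc' hJ' => (min_le_right _ _).trans (dC_le X _ hc' hJ')) hr0 (min_le_left _ _) (min_le_left _ _)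
      (min_le_right _ _) (by rw [pow_one]; exact ha) (by positivity) (by
        rw [div_le_one (by positivity)]; linarith) (by
        rw [div_div_eq_mul_div]
        linarith) (by
        have e : (d : ℝ) ^ (1 + 2) = (d : ℝ) ^ 3 := by norm_num
        rw [e]
        exact hΛ3) (by rw [wd_comm]; exact hz)
    rw [wd_comm (ob X c.val l) z.val, wd_comm (nx X (ob X c.val l)) (nx X z.val)] at h1
    exact h1
  have hdeep : ∀ x : UU, min (1 / Real.sqrt d) (dC X x.val) * ‖aa X x.val‖ < Real.sqrt Q / Real.sqrt d →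
      min (1 / Real.sqrt d) (dC X x.val) ≤ nuF X x.val / (16 * R * Real.sqrt d * Q ^ 2) :=
    fun x h => deepR L.toSq hG hnd x.prop h
  refine
    { hΛ := by linarith
      hθ := by positivity
      hθE := ?_
      hM := ?_
      hEa := hd1'
      hEρ := ?_
      hρ0 := by positivity
      hρ1 := ?_
      hEρ0 := ?_
      hn0 := hn0
      hΔ := ?_
      hΓp := hΓp
      D0 := fun x y => norm_nonneg _
      Dz := fun x => ?_
      Ds := fun x y => wd_comm _ _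
      Dt := fun x y z => tri x.prop y.prop z.prop
      a0 := fun x => norm_nonneg _
      R0 := hR0'
      Rl := fun x y => ?_
      Rρ := fun x => min_le_left _ _
      ρR := fun x => min_le_left _ _
      aR := fun x => aa_le' hd2 hR hG x.prop
      near := fun x hx _ => ?_
      dbl1 := fun x hx hθx s hs hsS y hy => ?_
      dbl2 := fun x hx hθx s hs hsS y z hy hz => ?_
      lin1 := fun c hc l hl z hz => ?_
      lin2 := fun c hc l hl z hz => ?_
      pole := fun c hc l hl z h1 h2 h3 => ?_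
      gro := fun c hc k hk hkn => ?_
      alo := fun c hc l hl => ?_
      rlo := fun c hc l hl => ?_ }
  · -- hθE
    rw [inv_eq_one_div]
    apply one_div_le_one_div_of_le (by positivity)
    calc 2 * (d : ℝ) ≤ d * d := by gcongr
      _ = (d : ℝ) ^ 2 := by ring
      _ ≤ (d : ℝ) ^ 3236 := pow_le_pow_right₀ hd1' (by norm_num)
  · have : 1 ≤ (d : ℝ) ^ 3 := one_le_pow₀ hd1'
    calc (1 : ℝ) ≤ 64 * 1 * 1 := by norm_num
      _ ≤ _ := by gcongr
  · have : 1 ≤ (d : ℝ) ^ 4 := one_le_pow₀ hd1'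
    calc (1 : ℝ) ≤ 64 * 1 * 1 := by norm_num
      _ ≤ _ := by gcongr
  · rw [div_le_one hsd]; exact hsd1
  · apply one_div_le_one_div_of_le hsd
    have h1 : Real.sqrt d ≤ d := by
      calc Real.sqrt d = Real.sqrt d * 1 := (mul_one _).symm
        _ ≤ Real.sqrt d * Real.sqrt d := by gcongr
        _ = d := Real.mul_self_sqrt hd0.le
    have h2 : (d : ℝ) ≤ (d : ℝ) ^ 4 := le_self_pow₀ hd1' (by norm_num)
    calc Real.sqrt d ≤ 1 * 1 * (d : ℝ) ^ 4 := by linarith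
      _ ≤ 64 * R ^ 2 * (d : ℝ) ^ 4 := by gcongr; norm_num
  · rw [mul_one_div]
    gcongr
  · show ‖wd x.val x.val‖ = 0
    rw [show wd x.val x.val = 0 by unfold wd; ring, norm_zero]
  · show min (1 / Real.sqrt d) (dC X x.val) ≤ min (1 / Real.sqrt d) (dC X y.val) + ‖wd x.val y.val‖
    have h1 := dC_tri hd2 X x.prop y.prop
    have h2 : 0 ≤ ‖wd x.val y.val‖ := norm_nonneg _
    rw [← min_add_add_right]
    apply le_min
    · exact (min_le_left _ _).trans (by linarith)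
    · exact (min_le_right _ _).trans h1
  · -- near
    have h1 := hdeep x hx
    obtain ⟨c, hc, hJ, hcd⟩ := exists_dC hd2 X x.val
    refine ⟨⟨c, hc⟩, hJ, ?_⟩
    show ‖wd x.val c‖ ≤ min (1 / Real.sqrt d) (dC X x.val)
    rw [← hcd]
    apply le_min _ le_rfl
    by_contra hcon
    push Not at hcon
    rw [min_eq_left hcon.le] at h1
    have h2 : nuF X x.val / (16 * R * Real.sqrt d * Q ^ 2) < 1 / Real.sqrt d := by
      have hνR : nuF X x.val ≤ R := (hG x.val x.prop).2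
      calc nuF X x.val / (16 * R * Real.sqrt d * Q ^ 2) ≤ R / (16 * R * Real.sqrt d * 1) := by
            gcongr
            exact one_le_pow₀ (by linarith)
        _ = 1 / 16 * (1 / Real.sqrt d) := by field_simp
        _ < 1 / Real.sqrt d := by
            have : 0 < 1 / Real.sqrt d := by positivity
            linarith
    linarith
  · -- dbl1
    have h1 := hdeep x hx
    have h2 := (dbl L hG x.prop y.prop y.prop (fun c hc hJ => (min_le_right _ _).trans (dC_le X _ hc hJ))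
      (hR0' x) h1 hθx hs (by
        calc s ^ 2 ≤ Sm ^ 2 := by gcongr
          _ ≤ Q := hSm2) hy hy).1
    refine h2.trans ?_
    show 6 ^ (N + 1) * s ^ N * ‖aa X x.val‖ ≤ Λ * s ^ N * ‖aa X x.val‖
    gcongr
    linarith
  · -- dbl2
    have h1 := hdeep x hx
    have h2 := (dbl L hG x.prop y.prop z.prop (fun c hc hJ => (min_le_right _ _).trans (dC_le X _ hc hJ))
      (hR0' x) h1 hθx hs (by
        calc s ^ 2 ≤ Sm ^ 2 := by gcongr
          _ ≤ Q := hSm2) hy hz).2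
    show ‖wd (fS X y : ℂ × ℂ) (fS X z : ℂ × ℂ)‖ ≤
      Λ * s ^ (N + 1) * (min (1 / Real.sqrt d) (dC X x.val) * ‖aa X x.val‖)
    rw [hco, hco]
    refine h2.trans ?_
    have hy' : ‖wd x.val y.val‖ ≤ s * min (1 / Real.sqrt d) (dC X x.val) := hy
    have hz' : ‖wd x.val z.val‖ ≤ s * min (1 / Real.sqrt d) (dC X x.val) := hz
    have h3 : ‖wd y.val z.val‖ ≤ 2 * (s * min (1 / Real.sqrt d) (dC X x.val)) := by
      have h4 := tri y.prop x.prop z.prop
      rw [wd_comm y.val x.val] at h4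
      linarith
    calc 6 ^ (N + 1) * s ^ N * ‖aa X x.val‖ * ‖wd y.val z.val‖
        ≤ 6 ^ (N + 1) * s ^ N * ‖aa X x.val‖ * (2 * (s * min (1 / Real.sqrt d) (dC X x.val))) := by gcongr
      _ = (2 * 6 ^ (N + 1)) * (s ^ (N + 1) * (min (1 / Real.sqrt d) (dC X x.val) * ‖aa X x.val‖)) := by ring
      _ ≤ Λ * (s ^ (N + 1) * (min (1 / Real.sqrt d) (dC X x.val) * ‖aa X x.val‖)) := by
          have := hR0' x
          gcongr
      _ = _ := by ring
  · -- lin1
    have h1 := (hlin c hc l hl z (by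
      have h2 : ‖wd z.val ((fS X)^[l] (fS X c)).val‖ ≤ min (min (1 / Real.sqrt d) (dC X ((fS X)^[l] (fS X c)).val))
        (nuF X ((fS X)^[l] (fS X c)).val / (16 * R * Real.sqrt d)) / Λ := hz
      rw [hit c l] at h2
      exact h2)).1
    show (1 - 1 / (8 * (n0 : ℝ))) * ‖aa X ((fS X)^[l] (fS X c)).val‖ ≤ ‖aa X z.val‖ ∧
      ‖aa X z.val‖ ≤ (1 + 1 / (8 * (n0 : ℝ))) * ‖aa X ((fS X)^[l] (fS X c)).val‖
    rw [hit c l]
    exact h1
  · -- lin2
    have h1 := (hlin c hc l hl z (by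
      have h2 : ‖wd z.val ((fS X)^[l] (fS X c)).val‖ ≤ min (min (1 / Real.sqrt d) (dC X ((fS X)^[l] (fS X c)).val))
        (nuF X ((fS X)^[l] (fS X c)).val / (16 * R * Real.sqrt d)) / Λ := hz
      rw [hit c l] at h2
      exact h2)).2
    show (1 - 1 / (8 * (n0 : ℝ))) * (‖aa X ((fS X)^[l] (fS X c)).val‖ * ‖wd z.val ((fS X)^[l] (fS X c)).val‖) ≤
        ‖wd (fS X z).val ((fS X)^[l + 1] (fS X c)).val‖ ∧
      ‖wd (fS X z).val ((fS X)^[l + 1] (fS X c)).val‖ ≤
        (1 + 1 / (8 * (n0 : ℝ))) * (‖aa X ((fS X)^[l] (fS X c)).val‖ * ‖wd z.val ((fS X)^[l] (fS X c)).val‖)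
    rw [hit c l, hit c (l + 1), hco]
    exact h1
  · -- pole
    have e1 : ‖wd z.val ((fS X)^[l] (fS X c)).val‖ = ‖wd z.val (ob X c.val l)‖ := by rw [hit c l]
    have h1' : min (min (1 / Real.sqrt d) (dC X ((fS X)^[l] (fS X c)).val))
        (nuF X ((fS X)^[l] (fS X c)).val / (16 * R * Real.sqrt d)) <
        min (1 / Real.sqrt d) (dC X ((fS X)^[l] (fS X c)).val) := h1
    have h2' : min (min (1 / Real.sqrt d) (dC X ((fS X)^[l] (fS X c)).val))
        (nuF X ((fS X)^[l] (fS X c)).val / (16 * R * Real.sqrt d)) ≤ Sm * ‖wd z.val ((fS X)^[l] (fS X c)).val‖ := h2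
    have h3' : Λ * ‖wd z.val ((fS X)^[l] (fS X c)).val‖ ≤ min (1 / Real.sqrt d) (dC X ((fS X)^[l] (fS X c)).val) := h3
    show Γp * (1 / Real.sqrt d) ≤ ‖aa X z.val‖ * ‖wd z.val ((fS X)^[l] (fS X c)).val‖
    have h4 : nuF X ((fS X)^[l] (fS X c)).val / (16 * R * Real.sqrt d) <
        min (1 / Real.sqrt d) (dC X ((fS X)^[l] (fS X c)).val) := by
      by_contra hcon
      push Not at hcon
      rw [min_eq_left hcon] at h1'
      exact lt_irrefl _ h1'
    rw [min_eq_right h4.le] at h2'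
    have hΓp0 : 0 ≤ Γp := le_trans (by positivity) hΓp
    exact pole_pt L.toSq hG hnd (Subtype.prop _) z.prop hΛ10 hSm (by
      have h5 : Sm ≤ Sm ^ 2 := le_self_pow₀ hSm (by norm_num)
      have h6 : 2 * Q ≤ Q ^ 2 := by nlinarith
      linarith) hΓp0 hΓp2 h2' h3'
  · -- gro
    have h1 := hgro c.val c.prop hc k hk hkn
    refine h1.trans (le_of_eq ?_)
    unfold Ph P
    refine Finset.prod_congr rfl fun i _ => ?_
    show ‖aa X (ob X c.val i)‖ = ‖aa X ((fS X)^[i] (fS X c)).val‖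
    rw [hit c i]
  · -- alo
    show 1 / (d : ℝ) ≤ ‖aa X ((fS X)^[l] (fS X c)).val‖
    rw [hit c l, one_div]
    exact halo c.val c.prop hc l hl
  · -- rlo
    show 1 / (64 * R ^ 2 * (d : ℝ) ^ 4) ≤ min (min (1 / Real.sqrt d) (dC X ((fS X)^[l] (fS X c)).val))
      (nuF X ((fS X)^[l] (fS X c)).val / (16 * R * Real.sqrt d))
    rw [hit c l]
    have hu : IsU (ob X c.val l) := by
      rw [← hit c l]
      exact Subtype.prop _
    have ha : (d : ℝ)⁻¹ ≤ ‖aa X (ob X c.val l)‖ := halo c.val c.prop hc l hl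
    apply le_min (dC_ge hd2 hR hG hu ha)
    calc 1 / (64 * R ^ 2 * (d : ℝ) ^ 4) ≤ 1 / (16 * R * d * d) := by
          apply one_div_le_one_div_of_le (by positivity)
          have h5 : R ≤ R ^ 2 := le_self_pow₀ hR (by norm_num)
          have h7 : (d : ℝ) * d ≤ (d : ℝ) ^ 4 := by
            calc (d : ℝ) * d = (d : ℝ) ^ 2 := by ring
              _ ≤ _ := pow_le_pow_right₀ hd1' (by norm_num)
          calc 16 * R * d * d = 16 * (R * (d * d)) := by ring
            _ ≤ 64 * (R ^ 2 * (d : ℝ) ^ 4) := by gcongr; norm_num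
            _ = _ := by ring
      _ ≤ 1 / (16 * R * Real.sqrt d * d) := by
          apply one_div_le_one_div_of_le (by positivity)
          gcongr
          calc Real.sqrt d = Real.sqrt d * 1 := (mul_one _).symm
            _ ≤ Real.sqrt d * Real.sqrt d := by gcongr
            _ = d := Real.mul_self_sqrt hd0.le
      _ = (d : ℝ)⁻¹ / (16 * R * Real.sqrt d) := by field_simp
      _ ≤ _ := by
          gcongr
          exact (hG _ hu).1

end Pool.Agent.H47.SG
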