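import Pool.Agent.H47.SG.Cmp
import Pool.Agent.H47.SF.Crx
import Pool.Agent.H47.SF.Cr2

/-!
# [H47 SG DC] the distance to the critical points
-/

set_option autoImplicit false

open Finset
open Pool.H70.SF

namespace Pool.Agent.H47.SG

open Pool.Agent.H47.SF

open Pool.Agent.H73.ES (GG)

/-- distance to the critical points -/
noncomputable def dC {d : ℕ} (X : CV d) (u : ℂ × ℂ) : ℝ := sInf ((fun c => ‖wd u c‖) '' {c | IsU c ∧ JJ X c = 0})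

theorem dC_nonneg {d : ℕ} (X : CV d) (u : ℂ × ℂ) : 0 ≤ dC X u :=
  Real.sInf_nonneg (by rintro _ ⟨c, _, rfl⟩; exact norm_nonneg _)

theorem dC_le {d : ℕ} (X : CV d) (u : ℂ × ℂ) {c : ℂ × ℂ} (hc : IsU c) (hJ : JJ X c = 0) : dC X u ≤ ‖wd u c‖ :=
  csInf_le ⟨0, by rintro _ ⟨c, _, rfl⟩; exact norm_nonneg _⟩ ⟨c, ⟨hc, hJ⟩, rfl⟩

theorem exists_dC {d : ℕ} (hd : 2 ≤ d) (X : CV d) (u : ℂ × ℂ) : ∃ c, IsU c ∧ JJ X c = 0 ∧ dC X u = ‖wd u c‖ := by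
  have hcont : Continuous fun c : ℂ × ℂ => JJ X c := by
    unfold JJ hev1 hev2
    fun_prop
  have hn2 : Continuous fun c : ℂ × ℂ => n2 c := by
    unfold n2
    fun_prop
  have hclosed : IsClosed {c : ℂ × ℂ | IsU c ∧ JJ X c = 0} :=
    (isClosed_eq hn2 continuous_const).inter (isClosed_eq hcont continuous_const)
  have hbdd : Bornology.IsBounded {c : ℂ × ℂ | IsU c ∧ JJ X c = 0} := by
    refine (Metric.isBounded_closedBall (x := (0 : ℂ × ℂ)) (r := 1)).subset ?_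
    rintro c ⟨hc, _⟩
    have h1 : ‖c.1‖ ^ 2 + ‖c.2‖ ^ 2 = 1 := hc
    rw [mem_closedBall_zero_iff, Prod.norm_def, max_le_iff]
    constructor
    · have h2 : ‖c.1‖ ^ 2 ≤ 1 := by nlinarith [sq_nonneg ‖c.2‖]
      exact (sq_le_one_iff₀ (norm_nonneg _)).1 h2
    · have h2 : ‖c.2‖ ^ 2 ≤ 1 := by nlinarith [sq_nonneg ‖c.1‖]
      exact (sq_le_one_iff₀ (norm_nonneg _)).1 h2
  have hcomp : IsCompact {c : ℂ × ℂ | IsU c ∧ JJ X c = 0} := Metric.isCompact_of_isClosed_isBounded hclosed hbdd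
  obtain ⟨c0, hc0, hJ0⟩ := crit_exists hd X
  have hwc : Continuous fun c : ℂ × ℂ => ‖wd u c‖ := by
    unfold wd
    fun_prop
  obtain ⟨c, ⟨hc, hJ⟩, hmin⟩ := hcomp.exists_isMinOn ⟨c0, hc0, hJ0⟩ hwc.continuousOn
  refine ⟨c, hc, hJ, le_antisymm (dC_le X u hc hJ) ?_⟩
  refine le_csInf ⟨_, ⟨c0, ⟨hc0, hJ0⟩, rfl⟩⟩ ?_
  rintro _ ⟨c', hc', rfl⟩
  exact hmin hc'

theorem dC_tri {d : ℕ} (hd : 2 ≤ d) (X : CV d) {u v : ℂ × ℂ} (hu : IsU u) (hv : IsU v) :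
    dC X u ≤ dC X v + ‖wd u v‖ := by
  obtain ⟨c, hc, hJ, h⟩ := exists_dC hd X v
  rw [h]
  have h1 := tri hu hv hc
  have h2 := dC_le X u hc hJ
  linarith

theorem aa_crit {d : ℕ} {R : ℝ} {X : CV d} (hd : 1 ≤ d) (hG : GG R X) {c : ℂ × ℂ} (hc : IsU c) (hJ : JJ X c = 0) :
    ‖aa X c‖ = 0 := by
  have hd0 : (0 : ℝ) < d := by exact_mod_cast hd
  have hν0 : 0 < nuF X c := lt_of_lt_of_le (by positivity) (hG c hc).1
  have h := aa_zero_chart X hν0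
  unfold Wc at h
  rw [zero_smul, add_zero, hJ, zero_div, norm_zero] at h
  have h2 : nuF X c ^ 2 ≠ 0 := by positivity
  exact (mul_eq_zero.1 h.symm).resolve_right h2

/-- the derivative is small near the critical points -/
theorem aa_le {d : ℕ} (hd : 2 ≤ d) {R : ℝ} (hR : 1 ≤ R) {X : CV d} (hG : GG R X) {u : ℂ × ℂ} (hu : IsU u) :
    ‖aa X u‖ * nuF X u ^ 2 ≤ 64 * R ^ 2 * d * min (1 / Real.sqrt d) (dC X u) := by
  have hd1 : 1 ≤ d := by omega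
  have hd0 : (0 : ℝ) < d := by exact_mod_cast hd1
  have hR0 : 0 < R := by linarith
  have hsd : 0 < Real.sqrt d := Real.sqrt_pos.2 hd0
  have hss : Real.sqrt d ^ 2 = d := Real.sq_sqrt hd0.le
  have hlo : ∀ u, IsU u → 0 < nuF X u := fun u hu => lt_of_lt_of_le (by positivity) (hG u hu).1
  have hW := aa_zero_chart X (hlo u hu)
  have hb : ‖aa X u‖ * nuF X u ^ 2 ≤ 8 * R ^ 2 * Real.sqrt d := by
    rw [← hW]
    exact bndW hd1 hR0.le (fun u hu => (hG u hu).2) hu (by rw [norm_zero]; linarith)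
  rcases le_total (1 / Real.sqrt d) (dC X u) with h | h
  · rw [min_eq_left h]
    refine hb.trans ?_
    rw [show 8 * R ^ 2 * Real.sqrt d = 8 * R ^ 2 * d * (1 / Real.sqrt d) by
      have e : (d : ℝ) * (1 / Real.sqrt d) = Real.sqrt d := by
        rw [mul_one_div, Real.div_sqrt]
      rw [mul_assoc (8 * R ^ 2), e]]
    gcongr
    norm_num
  · rw [min_eq_right h]
    obtain ⟨c, hc, hJ, hcd⟩ := exists_dC hd X u
    rw [hcd]
    by_cases h4 : ‖wd u c‖ ≤ 1 / (4 * Real.sqrt d)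
    · have h5 := lip hd1 hR (fun u hu => (hG u hu).2) hlo hu hc h4
      rw [aa_crit hd1 hG hc hJ, mul_zero, zero_add] at h5
      exact h5
    · push Not at h4
      refine hb.trans ?_
      rw [show 8 * R ^ 2 * Real.sqrt d = 32 * R ^ 2 * d * (1 / (4 * Real.sqrt d)) by
        have e : (d : ℝ) * (1 / (4 * Real.sqrt d)) = Real.sqrt d / 4 := by
          rw [mul_one_div, mul_comm 4, ← div_div, Real.div_sqrt]
        rw [mul_assoc (32 * R ^ 2), e]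
        ring]
      gcongr
      norm_num

/-- the factor -/
theorem aa_le' {d : ℕ} (hd : 2 ≤ d) {R : ℝ} (hR : 1 ≤ R) {X : CV d} (hG : GG R X) {u : ℂ × ℂ} (hu : IsU u) :
    ‖aa X u‖ ≤ 64 * R ^ 2 * (d : ℝ) ^ 3 * min (1 / Real.sqrt d) (dC X u) := by
  have hd0 : (0 : ℝ) < d := by exact_mod_cast (by omega : 0 < d)
  have hR0 : 0 < R := by linarith
  have hlo : (d : ℝ)⁻¹ ≤ nuF X u := (hG u hu).1
  have hm : 0 ≤ min (1 / Real.sqrt d) (dC X u) := le_min (by positivity) (dC_nonneg X u)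
  have h := aa_le hd hR hG hu
  have h1 : 1 ≤ (d : ℝ) ^ 2 * nuF X u ^ 2 := by
    calc (1 : ℝ) = (d : ℝ) ^ 2 * ((d : ℝ)⁻¹) ^ 2 := by field_simp
      _ ≤ _ := by gcongr
  calc ‖aa X u‖ ≤ ‖aa X u‖ * ((d : ℝ) ^ 2 * nuF X u ^ 2) := le_mul_of_one_le_right (norm_nonneg _) h1
    _ = (d : ℝ) ^ 2 * (‖aa X u‖ * nuF X u ^ 2) := by ring
    _ ≤ (d : ℝ) ^ 2 * (64 * R ^ 2 * d * min (1 / Real.sqrt d) (dC X u)) := by gcongr
    _ = _ := by ring

/-- lower bound for the distance to the critical points -/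
theorem dC_ge {d : ℕ} (hd : 2 ≤ d) {R : ℝ} (hR : 1 ≤ R) {X : CV d} (hG : GG R X) {u : ℂ × ℂ} (hu : IsU u)
    (ha : (d : ℝ)⁻¹ ≤ ‖aa X u‖) : 1 / (64 * R ^ 2 * (d : ℝ) ^ 4) ≤ min (1 / Real.sqrt d) (dC X u) := by
  have hd0 : (0 : ℝ) < d := by exact_mod_cast (by omega : 0 < d)
  have hR0 : 0 < R := by linarith
  have h := ha.trans (aa_le' hd hR hG hu)
  rw [div_le_iff₀ (by positivity)]
  have h1 : (d : ℝ) * (d : ℝ)⁻¹ ≤ (d : ℝ) * (64 * R ^ 2 * (d : ℝ) ^ 3 * min (1 / Real.sqrt d) (dC X u)) := by gcongr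
  rw [mul_inv_cancel₀ hd0.ne'] at h1
  linarith

end Pool.Agent.H47.SG
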