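import Pool.Agent.H47.SF.Faa

/-!
# [H47 SG FACS] a polynomial near a point, at the scale of the distance to its zeros

`W` is bounded by `M` on `‖t‖ ≤ R0`, `μ ≤ ‖W 0‖`, all zeros have modulus at least `ρ`. Then for `‖t‖ ≤ s * ρ ≤ x < R2`:
`‖W t‖ ≤ (s + 1) ^ N * exp (2 x L / (R2 - x)) * ‖W 0‖`, `L = log (M (2 / R0) ^ N / μ)`, where `M (2 R2 / R0) ^ N < μ`.
-/

set_option autoImplicit false

open Polynomial Metric

namespace Pool.Agent.H47.SG

open Pool.Agent.H47.SF (facA bc)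

private theorem prod_ge {Z : Multiset ℂ} {t : ℂ} {m : ℝ} (hm : 0 ≤ m) (h : ∀ z ∈ Z, m ≤ ‖t - z‖) :
    m ^ Multiset.card Z ≤ ‖((Z.map fun z => X - C z).prod).eval t‖ := by
  induction Z using Multiset.induction_on with
  | empty => simp
  | cons a s ih =>
    rw [Multiset.card_cons, pow_succ, Multiset.map_cons, Multiset.prod_cons, eval_mul, norm_mul, mul_comm]
    have h1 := ih (fun z hz => h z (Multiset.mem_cons_of_mem hz))
    have h2 := h a (Multiset.mem_cons_self a s)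
    have h3 : ‖(X - C a : Polynomial ℂ).eval t‖ = ‖t - a‖ := by simp
    rw [h3]
    exact mul_le_mul h2 h1 (by positivity) (norm_nonneg _)

private theorem prod_le {Z : Multiset ℂ} {t : ℂ} {m : ℝ} (h : ∀ z ∈ Z, ‖t - z‖ ≤ m) :
    ‖((Z.map fun z => X - C z).prod).eval t‖ ≤ m ^ Multiset.card Z := by
  induction Z using Multiset.induction_on with
  | empty => simp
  | cons a s ih =>
    rw [Multiset.card_cons, pow_succ, Multiset.map_cons, Multiset.prod_cons, eval_mul, norm_mul,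
      mul_comm (m ^ _) m]
    have h1 := ih (fun z hz => h z (Multiset.mem_cons_of_mem hz))
    have h2 := h a (Multiset.mem_cons_self a s)
    have h3 : ‖(X - C a : Polynomial ℂ).eval t‖ = ‖t - a‖ := by simp
    rw [h3]
    exact mul_le_mul h2 h1 (norm_nonneg _) ((norm_nonneg _).trans h2)

private theorem prod_cmp (Z : Multiset ℂ) (t : ℂ) (s : ℝ) (hs : 0 ≤ s) (h : ∀ z ∈ Z, ‖t - z‖ ≤ s * ‖z‖) :
    ‖((Z.map fun z => X - C z).prod).eval t‖ ≤
      s ^ (Multiset.card Z) * ‖((Z.map fun z => X - C z).prod).eval 0‖ := by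
  induction Z using Multiset.induction_on with
  | empty => simp
  | cons a Z ih =>
    rw [Multiset.map_cons, Multiset.prod_cons, eval_mul, eval_mul, norm_mul, norm_mul,
      Multiset.card_cons, pow_succ]
    have h1 := ih fun z hz => h z (Multiset.mem_cons_of_mem hz)
    have h2 := h a (Multiset.mem_cons_self a Z)
    have e1 : ‖(X - C a : Polynomial ℂ).eval t‖ = ‖t - a‖ := by simp
    have e2 : ‖(X - C a : Polynomial ℂ).eval 0‖ = ‖a‖ := by simp
    rw [e1, e2]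
    calc ‖t - a‖ * ‖((Z.map fun z => X - C z).prod).eval t‖
        ≤ (s * ‖a‖) * (s ^ (Multiset.card Z) * ‖((Z.map fun z => X - C z).prod).eval 0‖) :=
          mul_le_mul h2 h1 (norm_nonneg _) (by positivity)
      _ = _ := by ring

theorem facS {W : Polynomial ℂ} {R0 R2 M μ ρ s x : ℝ} {N : ℕ} (hR0 : 0 < R0) (hR0' : R0 ≤ 1 / 2) (hR2 : 0 < R2)
    (h4 : 2 * R2 < R0) (hM : ∀ t : ℂ, ‖t‖ ≤ R0 → ‖W.eval t‖ ≤ M) (hmin : ∀ z : ℂ, W.eval z = 0 → ρ ≤ ‖z‖)
    (hs : 0 ≤ s) (hsx : s * ρ ≤ x) (hx : x < R2)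
    (hμ0 : 0 < μ) (hμ : μ ≤ ‖W.eval 0‖) (hN : M * (2 * R2 / R0) ^ N < μ)
    {t : ℂ} (ht : ‖t‖ ≤ s * ρ) :
    ‖W.eval t‖ ≤ (s + 1) ^ N * Real.exp (2 * x * Real.log (M * (2 / R0) ^ N / μ) / (R2 - x)) * ‖W.eval 0‖ := by
  have hW : W ≠ 0 := by
    intro h
    rw [h, eval_zero, norm_zero] at hμ
    linarith
  have hM0 : 0 ≤ M := (norm_nonneg _).trans (hM 0 (by simpa using hR0.le))
  obtain ⟨Z, E, hE, hZ, hZW, hEn⟩ := facA hW R2
  set n := Multiset.card Z with hn
  -- the bound of the zero free part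
  have hEb : ∀ t : ℂ, ‖t‖ ≤ R0 → ‖E.eval t‖ ≤ M * (2 / R0) ^ n := by
    have hfr : ∀ z ∈ frontier (ball (0 : ℂ) R0), ‖E.eval z‖ ≤ M * (2 / R0) ^ n := by
      intro z hz
      rw [frontier_ball (0 : ℂ) hR0.ne'] at hz
      have hz' : ‖z‖ = R0 := by simpa using hz
      have h1 : (R0 / 2) ^ n ≤ ‖((Z.map fun z => X - C z).prod).eval z‖ := by
        refine prod_ge (by positivity) (fun w hw => ?_)
        have h2 := hZ w hw
        have h3 : ‖z‖ - ‖w‖ ≤ ‖z - w‖ := norm_sub_norm_le z w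
        rw [hz'] at h3
        linarith
      have h4 : ‖W.eval z‖ ≤ M := hM z hz'.le
      rw [hE, eval_mul, norm_mul] at h4
      have h5 : (R0 / 2) ^ n * ‖E.eval z‖ ≤ M :=
        (mul_le_mul_of_nonneg_right h1 (norm_nonneg _)).trans h4
      have h6 : (2 / R0) ^ n * (R0 / 2) ^ n = 1 := by
        rw [← mul_pow]
        have : 2 / R0 * (R0 / 2) = 1 := by field_simp
        rw [this, one_pow]
      have h7 : 0 < (2 / R0) ^ n := by positivity
      calc ‖E.eval z‖ = (2 / R0) ^ n * ((R0 / 2) ^ n * ‖E.eval z‖) := by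
            rw [← mul_assoc, h6, one_mul]
        _ ≤ (2 / R0) ^ n * M := mul_le_mul_of_nonneg_left h5 h7.le
        _ = M * (2 / R0) ^ n := mul_comm _ _
    intro t ht
    have hd : DiffContOnCl ℂ (fun z : ℂ => E.eval z) (ball (0 : ℂ) R0) :=
      E.differentiable.diffContOnCl
    refine Complex.norm_le_of_forall_mem_frontier_norm_le (f := fun z : ℂ => E.eval z) isBounded_ball hd hfr ?_
    rw [closure_ball (0 : ℂ) hR0.ne']
    simpa using ht
  have hZ0 : ∀ z ∈ Z, ‖(0 : ℂ) - z‖ ≤ R2 := by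
    intro z hz
    rw [zero_sub, norm_neg]
    exact hZ z hz
  have hW0 : ‖W.eval 0‖ ≤ R2 ^ n * ‖E.eval 0‖ := by
    rw [hE, eval_mul, norm_mul]
    exact mul_le_mul_of_nonneg_right (prod_le hZ0) (norm_nonneg _)
  have hE0M : ‖E.eval 0‖ ≤ M * (2 / R0) ^ n := hEb 0 (by simpa using hR0.le)
  have hnN : n ≤ N := by
    by_contra hcon
    rw [not_le] at hcon
    have h1 : μ ≤ R2 ^ n * (M * (2 / R0) ^ n) :=
      (hμ.trans hW0).trans (mul_le_mul_of_nonneg_left hE0M (by positivity))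
    have h2 : R2 ^ n * (M * (2 / R0) ^ n) = M * (2 * R2 / R0) ^ n := by
      rw [show 2 * R2 / R0 = R2 * (2 / R0) by ring, mul_pow]
      ring
    have h3 : (2 * R2 / R0) ^ n ≤ (2 * R2 / R0) ^ N :=
      pow_le_pow_of_le_one (by positivity) (by rw [div_le_one hR0]; exact h4.le) hcon.le
    have h5 : M * (2 * R2 / R0) ^ n ≤ M * (2 * R2 / R0) ^ N := mul_le_mul_of_nonneg_left h3 hM0
    linarith
  have hE0 : μ ≤ ‖E.eval 0‖ := by
    refine hμ.trans (hW0.trans ?_)
    have h1 : R2 ^ n ≤ 1 := pow_le_one₀ hR2.le (by linarith)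
    calc R2 ^ n * ‖E.eval 0‖ ≤ 1 * ‖E.eval 0‖ := mul_le_mul_of_nonneg_right h1 (norm_nonneg _)
      _ = _ := one_mul _
  have hEpos : 0 < ‖E.eval 0‖ := lt_of_lt_of_le hμ0 hE0
  have hEN : ∀ t : ℂ, ‖t‖ ≤ R0 → ‖E.eval t‖ ≤ M * (2 / R0) ^ N := by
    intro t ht
    refine (hEb t ht).trans (mul_le_mul_of_nonneg_left ?_ hM0)
    exact pow_le_pow_right₀ (by rw [le_div_iff₀ hR0]; linarith) hnN
  have ht0 : 0 ≤ x := (norm_nonneg t).trans (ht.trans hsx)
  have hM'0 : 0 < M * (2 / R0) ^ N := lt_of_lt_of_le hEpos (hEN 0 (by simpa using hR0.le))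
  have hbc := (bc (E := fun t => E.eval t) (c := 0) (r := R2) (M := M * (2 / R0) ^ N)
    (E.differentiable.differentiableOn) (fun t ht => hEn t (by
      rw [mem_ball, dist_zero_right] at ht
      exact ht.le))
    (fun t ht => hEN t (by
      rw [mem_ball, dist_zero_right] at ht
      linarith)) (t := t) (x := x) (by simpa using ht.trans hsx) hx).1
  have hlog : Real.log (M * (2 / R0) ^ N / ‖E.eval 0‖) ≤ Real.log (M * (2 / R0) ^ N / μ) :=
    Real.log_le_log (by positivity) (div_le_div_of_nonneg_left hM'0.le hμ0 hE0)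
  have hexp : Real.exp (2 * x * Real.log (M * (2 / R0) ^ N / ‖E.eval 0‖) / (R2 - x)) ≤
      Real.exp (2 * x * Real.log (M * (2 / R0) ^ N / μ) / (R2 - x)) := by
    apply Real.exp_le_exp.2
    have : 0 < R2 - x := by linarith
    gcongr
  have hprod := prod_cmp Z t (s + 1) (by linarith) (by
    intro z hz
    have h3 := hmin z (hZW z hz)
    have h4 := norm_sub_le t z
    have h5 : s * ρ ≤ s * ‖z‖ := mul_le_mul_of_nonneg_left h3 hs
    linarith)
  have h3 : (s + 1) ^ n ≤ (s + 1) ^ N := pow_le_pow_right₀ (by linarith) hnN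
  rw [hE, eval_mul, eval_mul, norm_mul, norm_mul]
  calc ‖((Z.map fun z => X - C z).prod).eval t‖ * ‖E.eval t‖
      ≤ ((s + 1) ^ n * ‖((Z.map fun z => X - C z).prod).eval 0‖) *
        (‖E.eval 0‖ * Real.exp (2 * x * Real.log (M * (2 / R0) ^ N / μ) / (R2 - x))) :=
        mul_le_mul hprod (hbc.trans (mul_le_mul_of_nonneg_left hexp (norm_nonneg _))) (norm_nonneg _)
          (by positivity)
    _ ≤ ((s + 1) ^ N * ‖((Z.map fun z => X - C z).prod).eval 0‖) *
        (‖E.eval 0‖ * Real.exp (2 * x * Real.log (M * (2 / R0) ^ N / μ) / (R2 - x))) := by gcongr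
    _ = _ := by ring

end Pool.Agent.H47.SG
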