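import Pool.Agent.H47.SF.Gd
import Pool.Agent.H47.SF.Bnd

/-!
# [H47 SG GD2] two-sided distortion of the distances of the images near a point
-/

set_option autoImplicit false

open Finset
open Pool.H70.SF

namespace Pool.Agent.H47.SG

open Pool.Agent.H47.SF

private theorem gd_pp (v : ℂ × ℂ) : n2 (pp v) = n2 v := by
  simp only [n2, pp, norm_neg, RCLike.norm_conj]
  ring

private theorem gd_wd (a v : ℂ × ℂ) : ‖wd a (pp v)‖ ≤ Real.sqrt (n2 a) * Real.sqrt (n2 v) := by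
  have h := wd_cs' a (pp v)
  rwa [gd_pp] at h

private theorem frac {e1 e2 : ℂ} {θ δ : ℝ} (hθ : θ ≤ 1 / 4) (h1 : ‖e1‖ ≤ θ) (h2 : ‖e2‖ ≤ δ) :
    ‖(1 + e2) / (1 + e1) ^ 2 - 1‖ ≤ 2 * δ + 5 * θ := by
  have hθ0 : 0 ≤ θ := (norm_nonneg _).trans h1
  have hδ0 : 0 ≤ δ := (norm_nonneg _).trans h2
  have h3 : 1 - θ ≤ ‖1 + e1‖ := by
    have h4 := norm_sub_norm_le (1 : ℂ) (-e1)
    rw [norm_one, norm_neg, sub_neg_eq_add] at h4
    linarith
  have h5 : (3 / 4 : ℝ) ≤ ‖1 + e1‖ := by linarith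
  have h6 : (1 + e1) ≠ 0 := by
    intro h
    rw [h, norm_zero] at h5
    linarith
  have h7 : (1 + e2) / (1 + e1) ^ 2 - 1 = (e2 - 2 * e1 - e1 ^ 2) / (1 + e1) ^ 2 := by
    field_simp
    ring
  rw [h7, norm_div, norm_pow]
  have h8 : ‖e2 - 2 * e1 - e1 ^ 2‖ ≤ δ + 2 * θ + θ ^ 2 := by
    calc ‖e2 - 2 * e1 - e1 ^ 2‖ ≤ ‖e2 - 2 * e1‖ + ‖e1 ^ 2‖ := norm_sub_le _ _
      _ ≤ (‖e2‖ + ‖2 * e1‖) + ‖e1 ^ 2‖ := by gcongr; exact norm_sub_le _ _
      _ = ‖e2‖ + 2 * ‖e1‖ + ‖e1‖ ^ 2 := by rw [norm_mul, norm_pow]; norm_num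
      _ ≤ δ + 2 * θ + θ ^ 2 := by gcongr
  have h9 : (9 / 16 : ℝ) ≤ ‖1 + e1‖ ^ 2 := by nlinarith
  rw [div_le_iff₀ (by positivity)]
  have h10 : (2 * δ + 5 * θ) * (9 / 16) ≤ (2 * δ + 5 * θ) * ‖1 + e1‖ ^ 2 := by gcongr
  nlinarith

theorem gd2 {d : ℕ} (hd : 1 ≤ d) {X : CV d} {u : ℂ × ℂ} (hu : IsU u) (hν : 0 < nuF X u) {r θ δ : ℝ}
    (hθ : θ ≤ 1 / 4) (hc : ∀ t : ℂ, ‖t‖ ≤ r → Real.sqrt (n2 (FF X (u + t • pp u) - FF X u)) ≤ θ * nuF X u)
    (hW : ∀ t : ℂ, ‖t‖ ≤ r → ‖Wc X u t - Wc X u 0‖ ≤ δ * ‖Wc X u 0‖) {t : ℂ} (ht : ‖t‖ ≤ r) :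
    ‖wd (FF X (u + t • pp u)) (FF X u)‖ ≤
      (1 + (2 * δ + 5 * θ)) * (‖aa X u‖ * ‖t‖) * (nuF X (u + t • pp u) * nuF X u) ∧
    (1 - 2 * θ) * ((1 - (2 * δ + 5 * θ)) * (‖aa X u‖ * ‖t‖)) * (nuF X (u + t • pp u) * nuF X u) ≤
      ‖wd (FF X (u + t • pp u)) (FF X u)‖ := by
  set ν := nuF X u with hνd
  set P : ℂ → ℂ := ch X.1 u with hP
  set Q : ℂ → ℂ := ch X.2 u with hQ
  set P0 : ℂ := hev X.1 u with hP0
  set Q0 : ℂ := hev X.2 u with hQ0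
  have hΦ : ∀ s, FF X (u + s • pp u) = (P s, Q s) := fun s => rfl
  have hΦ0 : FF X u = (P0, Q0) := rfl
  have hν2 : n2 (FF X u) = ν ^ 2 := (nuF_sq X u).symm
  have hsν : Real.sqrt (n2 (FF X u)) = ν := rfl
  have hr : 0 ≤ r := (norm_nonneg t).trans ht
  have hθ0 : 0 ≤ θ := by
    have h := hc 0 (by simpa using hr)
    have h1 : 0 ≤ Real.sqrt (n2 (FF X (u + (0 : ℂ) • pp u) - FF X u)) := Real.sqrt_nonneg _
    by_contra hcon
    push Not at hcon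
    nlinarith
  set q : ℂ → ℂ := fun s => wd (FF X (u + s • pp u)) (pp (FF X u)) with hq
  set p : ℂ → ℂ := fun s => wd (FF X u) (FF X (u + s • pp u)) with hp
  have hq' : ∀ s, q s = P s * (starRingEnd ℂ) P0 + Q s * (starRingEnd ℂ) Q0 := by
    intro s
    show wd (P s, Q s) (pp (P0, Q0)) = _
    simp only [wd, pp]
    ring
  have hp' : ∀ s, p s = P0 * Q s - Q0 * P s := fun s => rfl
  have hself : wd (FF X u) (pp (FF X u)) = ((ν ^ 2 : ℝ) : ℂ) := by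
    rw [← hν2, hΦ0]
    simp only [wd, pp, n2]
    push_cast
    rw [← Complex.mul_conj', ← Complex.mul_conj']
    ring
  have hνn : ‖((ν ^ 2 : ℝ) : ℂ)‖ = ν ^ 2 := by
    rw [Complex.norm_real, Real.norm_of_nonneg (by positivity)]
  have hν2pos : 0 < ν ^ 2 := by positivity
  have hνc : ((ν ^ 2 : ℝ) : ℂ) ≠ 0 := by exact_mod_cast hν2pos.ne'
  have hqn : ∀ s : ℂ, ‖s‖ ≤ r → ‖q s - ((ν ^ 2 : ℝ) : ℂ)‖ ≤ θ * ν ^ 2 := by
    intro s hs
    have h1 : q s - ((ν ^ 2 : ℝ) : ℂ) = wd (FF X (u + s • pp u) - FF X u) (pp (FF X u)) := by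
      rw [← hself]
      simp only [hq, wd, Prod.fst_sub, Prod.snd_sub]
      ring
    have h2 := gd_wd (FF X (u + s • pp u) - FF X u) (FF X u)
    rw [← h1, hsν] at h2
    have h3 := mul_le_mul_of_nonneg_right (hc s hs) hν.le
    calc ‖q s - ((ν ^ 2 : ℝ) : ℂ)‖ ≤ _ := h2
      _ ≤ θ * ν * ν := h3
      _ = _ := by ring
  have hqlow : ∀ s : ℂ, ‖s‖ ≤ r → (1 - θ) * ν ^ 2 ≤ ‖q s‖ := by
    intro s hs
    have h5 := norm_sub_norm_le ((ν ^ 2 : ℝ) : ℂ) (((ν ^ 2 : ℝ) : ℂ) - q s)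
    rw [sub_sub_cancel, hνn, norm_sub_rev] at h5
    have := hqn s hs
    linarith
  have hθ1 : 0 < 1 - θ := by linarith
  have hqne : ∀ s : ℂ, ‖s‖ ≤ r → q s ≠ 0 := by
    intro s hs h0
    have h1 := hqlow s hs
    rw [h0, norm_zero] at h1
    have h2 : 0 < (1 - θ) * ν ^ 2 := by positivity
    linarith
  have hdP : ∀ s, HasDerivAt P (deriv P s) s := fun s => (ch_diff X.1 u s).hasDerivAt
  have hdQ : ∀ s, HasDerivAt Q (deriv Q s) s := fun s => (ch_diff X.2 u s).hasDerivAt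
  have hdq : ∀ s, HasDerivAt q
      (deriv P s * (starRingEnd ℂ) P0 + deriv Q s * (starRingEnd ℂ) Q0) s := by
    intro s
    have h1 : q = fun s => P s * (starRingEnd ℂ) P0 + Q s * (starRingEnd ℂ) Q0 := funext hq'
    rw [h1]
    exact ((hdP s).mul_const _).add ((hdQ s).mul_const _)
  have hdp : ∀ s, HasDerivAt p (P0 * deriv Q s - Q0 * deriv P s) s := by
    intro s
    have h1 : p = fun s => P0 * Q s - Q0 * P s := funext hp'
    rw [h1]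
    exact ((hdQ s).const_mul _).sub ((hdP s).const_mul _)
  set L : ℂ := Wc X u 0 / ((ν ^ 2 : ℝ) : ℂ) with hL
  have hLn : ‖L‖ = ‖aa X u‖ := by
    rw [hL, norm_div, hνn, aa_zero_chart X hν, ← hνd, mul_div_assoc, div_self hν2pos.ne', mul_one]
  have hG : ∀ s ∈ Metric.closedBall (0 : ℂ) r, HasDerivWithinAt (fun s => p s / q s - L * s)
      (((ν ^ 2 : ℝ) : ℂ) * Wc X u s / q s ^ 2 - L) (Metric.closedBall (0 : ℂ) r) s := by
    intro s hs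
    have hs' : ‖s‖ ≤ r := by simpa using hs
    have h1 := ((hdp s).div (hdq s) (hqne s hs')).hasDerivWithinAt
      (s := Metric.closedBall (0 : ℂ) r)
    have h2 : ((P0 * deriv Q s - Q0 * deriv P s) * q s -
        p s * (deriv P s * (starRingEnd ℂ) P0 + deriv Q s * (starRingEnd ℂ) Q0)) =
        ((ν ^ 2 : ℝ) : ℂ) * Wc X u s := by
      rw [Wc_eq hd X hu s, ← hself, hq' s, hp' s, hΦ0]
      simp only [wd, pp]
      ring
    rw [h2] at h1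
    have h3 : HasDerivWithinAt (fun s : ℂ => L * s) L (Metric.closedBall (0 : ℂ) r) s := by
      simpa using ((hasDerivAt_id s).const_mul L).hasDerivWithinAt (s := Metric.closedBall (0 : ℂ) r)
    exact h1.sub h3
  have hbound : ∀ s ∈ Metric.closedBall (0 : ℂ) r,
      ‖((ν ^ 2 : ℝ) : ℂ) * Wc X u s / q s ^ 2 - L‖ ≤ (2 * δ + 5 * θ) * ‖aa X u‖ := by
    intro s hs
    have hs' : ‖s‖ ≤ r := by simpa using hs
    have h1 := hqn s hs'
    have h2 := hW s hs'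
    have hq0 := hqne s hs'
    rcases eq_or_ne (Wc X u 0) 0 with h0 | h0
    · rw [h0, sub_zero, norm_zero, mul_zero] at h2
      have h3 : Wc X u s = 0 := norm_le_zero_iff.1 h2
      have h4 : L = 0 := by rw [hL, h0, zero_div]
      have h5 : ‖aa X u‖ = 0 := by rw [← hLn, h4, norm_zero]
      rw [h3, h4, h5]
      simp
    · have hWpos : 0 < ‖Wc X u 0‖ := norm_pos_iff.2 h0
      have h3 := frac (e1 := (q s - ((ν ^ 2 : ℝ) : ℂ)) / ((ν ^ 2 : ℝ) : ℂ))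
        (e2 := (Wc X u s - Wc X u 0) / Wc X u 0) (θ := θ) (δ := δ) hθ
        (by rw [norm_div, hνn, div_le_iff₀ hν2pos]; exact h1)
        (by rw [norm_div, div_le_iff₀ hWpos]; exact h2)
      have h4 : ((ν ^ 2 : ℝ) : ℂ) * Wc X u s / q s ^ 2 - L =
          L * ((1 + (Wc X u s - Wc X u 0) / Wc X u 0) /
            (1 + (q s - ((ν ^ 2 : ℝ) : ℂ)) / ((ν ^ 2 : ℝ) : ℂ)) ^ 2 - 1) := by
        have e1 : 1 + (q s - ((ν ^ 2 : ℝ) : ℂ)) / ((ν ^ 2 : ℝ) : ℂ) = q s / ((ν ^ 2 : ℝ) : ℂ) := by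
          field_simp
          ring
        have e2 : 1 + (Wc X u s - Wc X u 0) / Wc X u 0 = Wc X u s / Wc X u 0 := by
          field_simp
          ring
        rw [e1, e2, hL]
        field_simp
      rw [h4, norm_mul, hLn, mul_comm]
      exact mul_le_mul_of_nonneg_right h3 (norm_nonneg _)
  have hmv := (convex_closedBall (0 : ℂ) r).norm_image_sub_le_of_norm_hasDerivWithin_le hG hbound
    (x := 0) (y := t) (by simpa using hr) (by simpa using ht)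
  have hp0 : p 0 = 0 := by
    have h1 : p 0 = wd (FF X u) (FF X (u + (0 : ℂ) • pp u)) := rfl
    rw [h1, zero_smul, add_zero]
    simp only [wd]
    ring
  simp only [hp0, zero_div, sub_zero, mul_zero] at hmv
  have hGt1 : ‖p t / q t‖ ≤ (1 + (2 * δ + 5 * θ)) * (‖aa X u‖ * ‖t‖) := by
    have h1 := norm_sub_norm_le (p t / q t) (L * t)
    rw [norm_mul L, hLn] at h1
    linarith
  have hGt2 : (1 - (2 * δ + 5 * θ)) * (‖aa X u‖ * ‖t‖) ≤ ‖p t / q t‖ := by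
    have h1 := norm_sub_norm_le (L * t) (p t / q t)
    rw [norm_mul L, hLn, norm_sub_rev] at h1
    linarith
  have h1 : ‖wd (FF X (u + t • pp u)) (FF X u)‖ = ‖p t / q t‖ * ‖q t‖ := by
    rw [← norm_mul, div_mul_cancel₀ _ (hqne t ht), wd_comm]
  have h2 : ‖q t‖ ≤ nuF X (u + t • pp u) * ν := gd_wd (FF X (u + t • pp u)) (FF X u)
  have hνt := nu_near (θ := θ) (u := u) (w := u + t • pp u) (hc t ht)
  have h3 : (1 - 2 * θ) * (nuF X (u + t • pp u) * ν) ≤ ‖q t‖ := by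
    refine le_trans ?_ (hqlow t ht)
    have h4 : (1 - 2 * θ) * (nuF X (u + t • pp u) * ν) ≤ (1 - 2 * θ) * (((1 + θ) * ν) * ν) := by
      apply mul_le_mul_of_nonneg_left _ (by linarith)
      exact mul_le_mul_of_nonneg_right hνt.2 hν.le
    refine h4.trans ?_
    have h5 : 0 ≤ θ * ν ^ 2 := by positivity
    nlinarith [mul_nonneg hθ0 h5]
  rw [h1]
  constructor
  · exact mul_le_mul hGt1 h2 (norm_nonneg _) ((norm_nonneg _).trans hGt1)
  · have hn0 : 0 ≤ nuF X (u + t • pp u) * ν := mul_nonneg (nuF_nonneg _ _) hν.le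
    calc (1 - 2 * θ) * ((1 - (2 * δ + 5 * θ)) * (‖aa X u‖ * ‖t‖)) * (nuF X (u + t • pp u) * ν)
        = ((1 - (2 * δ + 5 * θ)) * (‖aa X u‖ * ‖t‖)) * ((1 - 2 * θ) * (nuF X (u + t • pp u) * ν)) := by ring
      _ ≤ ‖p t / q t‖ * ((1 - 2 * θ) * (nuF X (u + t • pp u) * ν)) :=
          mul_le_mul_of_nonneg_right hGt2 (mul_nonneg (by linarith) hn0)
      _ ≤ ‖p t / q t‖ * ‖q t‖ := mul_le_mul_of_nonneg_left h3 (norm_nonneg _)

end Pool.Agent.H47.SG
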