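import Pool.Agent.H41.SX.Det
import Pool.Agent.H47.SG.Sys
import Pool.Agent.H47.SG.Lqe
import Pool.Agent.H47.SG.Crnq

/-!
# [H47 SG MAINS] the statements `HypMain` and `CrnMain` of the deterministic part
-/

set_option autoImplicit false

open Filter

namespace Pool.Agent.H47.SG

open Pool.H70.SF Pool.Agent.H47.SF

open Pool.Agent.H73.ES (GG)
open Pool.Agent.H41.SX (NDx GS HypMain CrnMain)
open Pool.Agent.H91.BL (Sy Hyp P)

/-- larger `Eρ` and `M` -/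
theorem hyp_mono {X : Type} {S : Sy X} {Λ Δ ρ0 θ Ea Eρ Eρ' M M' Sm Γ Γp : ℝ} {k0 n0 : ℕ}
    (H : Hyp S Λ Δ ρ0 θ Ea Eρ M Sm Γ Γp k0 n0) (hE : Eρ ≤ Eρ') (hM : M ≤ M') :
    Hyp S Λ Δ ρ0 θ Ea Eρ' M' Sm Γ Γp k0 n0 := by
  have h0 : 0 < Eρ := lt_of_lt_of_le one_pos H.hEρ
  have h1 : 1 / Eρ' ≤ 1 / Eρ := one_div_le_one_div_of_le h0 hE
  exact
    { hΛ := H.hΛ
      hθ := H.hθ
      hθE := H.hθE
      hM := H.hM.trans hM
      hEa := H.hEa
      hEρ := H.hEρ.trans hE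
      hρ0 := H.hρ0
      hρ1 := H.hρ1
      hEρ0 := h1.trans H.hEρ0
      hn0 := H.hn0
      hΔ := H.hΔ
      hΓp := H.hΓp
      D0 := H.D0
      Dz := H.Dz
      Ds := H.Ds
      Dt := H.Dt
      a0 := H.a0
      R0 := H.R0
      Rl := H.Rl
      Rρ := H.Rρ
      aR := fun x => (H.aR x).trans (mul_le_mul_of_nonneg_right hM (H.R0 x))
      ρR := H.ρR
      near := H.near
      dbl1 := H.dbl1
      dbl2 := H.dbl2
      lin1 := H.lin1
      lin2 := H.lin2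
      pole := H.pole
      gro := H.gro
      alo := H.alo
      rlo := fun c hc l hl => h1.trans (H.rlo c hc l hl) }

/-- the local geometry -/
theorem hypMain : HypMain := by
  intro e he he1
  obtain ⟨N, d1, hL⟩ := lq_large 3236 he (by linarith)
  refine ⟨N, fun n hn η σ hη hησ hσ => ⟨e / 10, by positivity, ?_⟩⟩
  have hη2 : 0 < η / 2 := by positivity
  have htop : Tendsto (fun d : ℕ => (d : ℝ) ^ (η / 2)) atTop atTop :=
    (tendsto_rpow_atTop hη2).comp tendsto_natCast_atTop_atTop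
  have hlog : ∀ᶠ d : ℕ in atTop, 280 * Real.log d ≤ (d : ℝ) ^ (η / 2) := by
    have h := (isLittleO_log_rpow_atTop (r := η / 2) hη2).def (c := (280 : ℝ)⁻¹) (by positivity)
    have h' := tendsto_natCast_atTop_atTop.eventually h
    filter_upwards [h'] with d hd
    have h1 : ‖((d : ℝ) ^ (η / 2))‖ = (d : ℝ) ^ (η / 2) := by
      rw [Real.norm_eq_abs, abs_of_nonneg (Real.rpow_nonneg (Nat.cast_nonneg d) _)]
    rw [h1] at hd
    have h2 : Real.log d ≤ ‖Real.log d‖ := le_abs_self _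
    have h3 := h2.trans hd
    calc 280 * Real.log d ≤ 280 * ((280 : ℝ)⁻¹ * (d : ℝ) ^ (η / 2)) := by gcongr
      _ = (d : ℝ) ^ (η / 2) := by rw [← mul_assoc, mul_inv_cancel₀ (by norm_num), one_mul]
  obtain ⟨d2, hd2⟩ := eventually_atTop.1 (hlog.and (htop.eventually_ge_atTop (max (2 * 6 ^ (N + 1)) (8000 * n))))
  refine ⟨max (max d1 d2) 4096, fun d hd R hR1 hR X hG hnd _ hgs => ?_⟩
  have hdd1 : d1 ≤ d := by omega
  have hdd2 : d2 ≤ d := by omega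
  have hdd3 : 4096 ≤ d := by omega
  have hD : (4096 : ℝ) ≤ d := by exact_mod_cast hdd3
  have hD0 : (0 : ℝ) < d := by linarith
  have hD1 : (1 : ℝ) ≤ d := by linarith
  have hmono : ∀ {x y : ℝ}, x ≤ y → (d : ℝ) ^ x ≤ (d : ℝ) ^ y := fun h =>
    Real.rpow_le_rpow_of_exponent_le hD1 h
  have hnat : ∀ k : ℕ, (d : ℝ) ^ k = (d : ℝ) ^ (k : ℝ) := fun k => (Real.rpow_natCast _ _).symm
  have hadd : ∀ x y : ℝ, (d : ℝ) ^ x * (d : ℝ) ^ y = (d : ℝ) ^ (x + y) := fun x y =>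
    (Real.rpow_add hD0 x y).symm
  have hpow : ∀ (x : ℝ) (k : ℕ), ((d : ℝ) ^ x) ^ k = (d : ℝ) ^ (x * k) := fun x k => by
    rw [Real.rpow_mul hD0.le, Real.rpow_natCast]
  have hsqrt : ∀ x : ℝ, Real.sqrt ((d : ℝ) ^ x) = (d : ℝ) ^ (x / 2) := fun x => by
    rw [Real.sqrt_eq_rpow, ← Real.rpow_mul hD0.le]
    congr 1
    ring
  have hsd : Real.sqrt d = (d : ℝ) ^ ((1 : ℝ) / 2) := Real.sqrt_eq_rpow _
  have hR0 : 0 < R := by linarith
  have hR10 : R ^ 10 ≤ (d : ℝ) ^ e := by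
    calc R ^ 10 ≤ ((d : ℝ) ^ (e / 10)) ^ 10 := pow_le_pow_left₀ hR0.le hR 10
      _ = (d : ℝ) ^ e := by
        rw [hpow]
        congr 1
        push_cast
        ring
  have L := hL d hdd1 R hR1 hR10
  obtain ⟨h1, h2⟩ := hd2 d hdd2
  have h3 : (2 * 6 ^ (N + 1) : ℝ) ≤ (d : ℝ) ^ (η / 2) := (le_max_left _ _).trans h2
  have h4 : (8000 * n : ℝ) ≤ (d : ℝ) ^ (η / 2) := (le_max_right _ _).trans h2
  have hR2 : R ^ 2 ≤ (d : ℝ) ^ ((1 : ℝ) / 50) := by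
    calc R ^ 2 ≤ ((d : ℝ) ^ (e / 10)) ^ 2 := pow_le_pow_left₀ hR0.le hR 2
      _ = (d : ℝ) ^ (e / 10 * (2 : ℕ)) := hpow _ _
      _ ≤ _ := hmono (by push_cast; linarith)
  have h64 : (64 : ℝ) ≤ (d : ℝ) ^ ((1 : ℝ) / 2) := by
    rw [← hsd, show (64 : ℝ) = Real.sqrt (64 ^ 2) by rw [Real.sqrt_sq (by norm_num)]]
    exact Real.sqrt_le_sqrt (by linarith)
  have H := hyp_of (n0 := n) (Λ := (d : ℝ) ^ η) (Sm := (d : ℝ) ^ σ) (Γ := (d : ℝ) ^ (2 * e))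
    (Γp := (d : ℝ) ^ (η + σ)) L hG hnd hgs.al
    (fun c hc hJ k hk hkn => by
      refine le_trans (hmono ?_) (hgs.ph c hc hJ k hk hkn)
      have : (2 : ℝ) ≤ k := by exact_mod_cast hk
      nlinarith) hn
    (h3.trans (hmono (by linarith))) (by rw [hsqrt]; exact h4) (by
      rw [hsqrt]
      refine le_trans ?_ h1
      have h5 : 8 * R ^ 2 * Real.sqrt d * (d : ℝ) ^ 3 ≤ (d : ℝ) ^ 7 := by
        rw [hsd, hnat 3, hnat 7]
        calc 8 * R ^ 2 * (d : ℝ) ^ ((1 : ℝ) / 2) * (d : ℝ) ^ ((3 : ℕ) : ℝ) ≤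
              (d : ℝ) ^ ((1 : ℝ) / 2) * (d : ℝ) ^ ((1 : ℝ) / 50) * (d : ℝ) ^ ((1 : ℝ) / 2) * (d : ℝ) ^ ((3 : ℕ) : ℝ) := by
              gcongr
              linarith
          _ = (d : ℝ) ^ ((1 : ℝ) / 2 + 1 / 50 + 1 / 2 + ((3 : ℕ) : ℝ)) := by rw [hadd, hadd, hadd]
          _ ≤ _ := hmono (by push_cast; norm_num)
      have h6 := Real.log_le_log (by positivity) h5
      rw [Real.log_pow] at h6
      push_cast at h6
      linarith)
    (Real.one_le_rpow hD1 (by linarith)) (by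
      rw [hpow]
      exact hmono (by push_cast; linarith)) (by
      rw [hadd, hsqrt]
      exact hmono (by linarith)) (by rw [hadd]) (by
      have hRe : R ≤ (d : ℝ) ^ e := hR.trans (hmono (by linarith))
      have h21 : (21 : ℝ) ≤ (d : ℝ) ^ e := by
        have := L.q1
        linarith
      rw [hpow]
      calc 21 * R * (d : ℝ) ^ σ * (d : ℝ) ^ (η + σ) ≤ (d : ℝ) ^ e * (d : ℝ) ^ e * (d : ℝ) ^ σ * (d : ℝ) ^ (η + σ) := by
            gcongr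
        _ = (d : ℝ) ^ (e + e + σ + (η + σ)) := by rw [hadd, hadd, hadd]
        _ ≤ _ := hmono (by push_cast; linarith))
  refine ⟨sy R X, rfl, fun _ => rfl, rfl, ?_⟩
  have e1 : Real.sqrt ((d : ℝ) ^ e) / Real.sqrt d = (d : ℝ) ^ (e / 2 - 1 / 2) := by
    rw [hsqrt, hsd, ← Real.rpow_sub hD0]
  have e2 : 1 / Real.sqrt d = (d : ℝ) ^ (-(1 / 2) : ℝ) := by
    rw [hsd, Real.rpow_neg hD0.le, one_div]
  rw [e1, e2] at H
  refine hyp_mono H ?_ ?_
  · rw [hnat 4]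
    calc 64 * R ^ 2 * (d : ℝ) ^ ((4 : ℕ) : ℝ) ≤ (d : ℝ) ^ ((1 : ℝ) / 2) * (d : ℝ) ^ ((1 : ℝ) / 50) *
          (d : ℝ) ^ ((4 : ℕ) : ℝ) := by gcongr
      _ = (d : ℝ) ^ ((1 : ℝ) / 2 + 1 / 50 + ((4 : ℕ) : ℝ)) := by rw [hadd, hadd]
      _ ≤ _ := hmono (by push_cast; norm_num)
  · rw [hnat 3, hnat 5]
    calc 64 * R ^ 2 * (d : ℝ) ^ ((3 : ℕ) : ℝ) ≤ (d : ℝ) ^ ((1 : ℝ) / 2) * (d : ℝ) ^ ((1 : ℝ) / 50) *
          (d : ℝ) ^ ((3 : ℕ) : ℝ) := by gcongr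
      _ = (d : ℝ) ^ ((1 : ℝ) / 2 + 1 / 50 + ((3 : ℕ) : ℝ)) := by rw [hadd, hadd]
      _ ≤ _ := hmono (by push_cast; norm_num)

/-- critical points near the points with small derivative -/
theorem crnMain : CrnMain := by
  intro e he he1
  obtain ⟨N, d1, hL⟩ := lq_large 3236 he (by linarith)
  refine ⟨e / 10, by positivity, max d1 (3 ^ (N + 2)), fun d hd R hR1 hR X hG hnd _ hf => ?_⟩
  have hdd1 : d1 ≤ d := (le_max_left _ _).trans hd
  have hdd2 : 3 ^ (N + 2) ≤ d := (le_max_right _ _).trans hd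
  have hD0 : (0 : ℝ) < d := by
    have : 0 < d := lt_of_lt_of_le (by positivity) hdd2
    exact_mod_cast this
  have hR10 : R ^ 10 ≤ (d : ℝ) ^ e := by
    calc R ^ 10 ≤ ((d : ℝ) ^ (e / 10)) ^ 10 := pow_le_pow_left₀ (by linarith) hR 10
      _ = (d : ℝ) ^ e := by
        rw [← Real.rpow_natCast, ← Real.rpow_mul hD0.le]
        congr 1
        push_cast
        ring
  exact crnq (hL d hdd1 R hR1 hR10) (by norm_num) hdd2 hG hnd hf

/-- the deterministic part of the sharp form -/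
theorem detMain : Pool.Agent.H41.SX.DetMain := Pool.Agent.H41.SX.det_main hypMain crnMain

end Pool.Agent.H47.SG
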