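import Pool.Agent.H47.SG.Ndq
import Pool.Agent.H47.SF.Nda
import Pool.Agent.H73.ES.Meas
import Pool.Agent.H73.ES.Cau

/-!
# [H47 SG NDAQ] the nondegeneracy condition fails only if four fixed functionals are small at a net point
-/

set_option autoImplicit false

open Finset
open Pool.H70.SF

namespace Pool.Agent.H47.SG

open Pool.Agent.H47.SF

open Pool.Agent.H73.ES (jv hm rsP jt)

/-- the deterministic half of the event -/
theorem nd_pointq {d : ℕ} {Q R : ℝ} {X : CV d} (S : Sq Q R d) (hi : ∀ u, IsU u → nuF X u ≤ R)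
    (lo : ∀ u, IsU u → (d : ℝ)⁻¹ ≤ nuF X u) {u : ℂ × ℂ} (hu : IsU u) (ha : ‖aa X u‖ * nuF X u < Q ^ 3)
    (hno : ∀ t : ℂ, ‖t‖ < nuF X u / (16 * R * Real.sqrt d * Q ^ 2) → Wc X u t ≠ 0)
    {s : ℝ} (hs : 0 < s) (hs1 : s ≤ nuF X u) (hs2 : nuF X u ≤ 2 * s) {z w : ℂ × ℂ} (hz : IsU z) (hw : IsU w)
    (h1 : ‖wd u z‖ ≤ s / (500 * R * Real.sqrt d * Q ^ 2 * Real.log d))
    (h2 : ‖wd (nx X z) w‖ ≤ s / (R * Real.sqrt d)) :
    ‖wd (FF X z) w‖ ≤ 4 * s * (s / (R * Real.sqrt d)) ∧ ‖hm (FF X z) w‖ ≤ 4 * s ∧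
      ‖wd (jv X z 1) w‖ ≤ 56 * Q ^ 3 ∧ ‖wd (jv X z 2) w‖ ≤ 3 * Q ^ 7 * Real.sqrt d / s := by
  have hd2 := S.d2
  have hd1 : 1 ≤ d := by omega
  have hd0 : (0 : ℝ) < d := by positivity
  have hsd : 0 < Real.sqrt d := Real.sqrt_pos.2 hd0
  have hR := S.R1
  have hR0 : 0 < R := by linarith
  have h4Q : (1000 : ℝ) ≤ Q := le_trans (by norm_num) S.q1
  have hQ0 : 0 < Q := by linarith
  have hlog : 0 < Real.log d := Real.log_pos (by exact_mod_cast hd2)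
  have hss : Real.sqrt d * Real.sqrt d = d := Real.mul_self_sqrt hd0.le
  obtain ⟨n1, n2', n3, n4⟩ := Pool.Agent.H47.SG.nd_fail S hi lo hu ha hno hz (h1.trans (by gcongr))
  set ν := nuF X z with hν
  have hνpos : 0 < ν := by
    have : 0 < nuF X u := lt_of_lt_of_le hs hs1
    linarith
  have hν4 : ν ≤ 4 * s := by linarith
  have hνs : s / 2 ≤ ν := by linarith
  have hsR : s ≤ R := hs1.trans (hi u hu)
  -- ω ≤ 1/2
  set ω := s / (R * Real.sqrt d) with hω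
  have hω0 : 0 < ω := by positivity
  have hsqrt : (2 : ℝ) ≤ Real.sqrt d := by
    have h1 : Q ≤ Real.sqrt d := by
      rw [← Real.sqrt_sq hQ0.le]
      exact Real.sqrt_le_sqrt S.qd
    linarith
  have hω1 : ω ≤ 1 / 2 := by
    rw [hω, div_le_iff₀ (by positivity)]
    nlinarith
  have hnn : ν = Pool.Agent.H73.ES.nn (FF X z) := rfl
  have hnx : nx X z = ((ν⁻¹ : ℝ) : ℂ) • FF X z := rfl
  -- first functional
  have hF1 : ‖wd (FF X z) w‖ = ν * ‖wd (nx X z) w‖ := by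
    have : wd (nx X z) w = ((ν⁻¹ : ℝ) : ℂ) * wd (FF X z) w := by
      rw [hnx]; unfold wd
      simp only [Prod.smul_fst, Prod.smul_snd, smul_eq_mul]; ring
    rw [this, norm_mul, Complex.norm_real, Real.norm_of_nonneg (by positivity)]
    field_simp
  have hF1' : ‖wd (FF X z) w‖ ≤ ν * ω := by rw [hF1]; gcongr
  have r1 : ‖wd (FF X z) w‖ ≤ 4 * s * ω := hF1'.trans (by gcongr)
  have r2 : ‖hm (FF X z) w‖ ≤ 4 * s := by
    have h := Pool.Agent.H73.ES.hm_le (FF X z) w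
    have h' : Pool.Agent.H73.ES.nn w = 1 := by
      unfold Pool.Agent.H73.ES.nn
      rw [show n2 w = 1 from hw, Real.sqrt_one]
    rw [h', mul_one, ← hnn] at h
    exact h.trans hν4
  -- lower bound for hm
  have hhm : 2 / 5 * s ≤ ‖hm (FF X z) w‖ := by
    have hl := Pool.Agent.H73.ES.lag (FF X z) w
    rw [show n2 w = 1 from hw, mul_one, ← nuF_sq] at hl
    have h5 : ‖wd (FF X z) w‖ ^ 2 ≤ (ν * (1/2)) ^ 2 :=
      pow_le_pow_left₀ (norm_nonneg _) (hF1'.trans (by gcongr)) 2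
    have h6 : (2 / 5 * s) ^ 2 ≤ ‖hm (FF X z) w‖ ^ 2 := by
      have h7 : (s / 2) ^ 2 ≤ ν ^ 2 := pow_le_pow_left₀ (by positivity) hνs 2
      have h8 : nuF X z ^ 2 = ν ^ 2 := rfl
      rw [h8] at hl
      nlinarith
    exact le_of_sq_le_sq h6 (norm_nonneg _)
  have hjet := Pool.Agent.H73.ES.cau_jet hd1 (X := X) (R := R) hi hz
  refine ⟨r1, r2, ?_, ?_⟩
  · have ht := target (F := FF X z) (G := jv X z 1) hw
    rw [← Wc_zero_jv hd1 X hz] at ht
    have hj := hjet 1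
    rw [pow_one] at hj
    have e1 : ‖wd (FF X z) w‖ * Pool.Agent.H73.ES.nn (jv X z 1) ≤ 4 * s * ω * (2 * R * Real.sqrt d) := by
      apply mul_le_mul r1 hj (Real.sqrt_nonneg _) (by positivity)
    have e2 : 4 * s * ω * (2 * R * Real.sqrt d) = 8 * s ^ 2 := by
      rw [hω]; field_simp; ring
    have e3 : ‖Wc X z 0‖ ≤ 6 * Q ^ 3 * s := by
      refine n3.trans ?_
      calc 3 * Q ^ 3 * nuF X u ≤ 3 * Q ^ 3 * (2 * s) := by gcongr
        _ = 6 * Q ^ 3 * s := by ring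
    have hRQ : 20 * R ≤ Q ^ 3 := by
      have h6 : 256 * R ^ 3 ≤ Q := S.q3
      have h7 : R ≤ R ^ 3 := le_self_pow₀ hR (by norm_num)
      have h8 : Q ≤ Q ^ 3 := le_self_pow₀ (by linarith) (by norm_num)
      linarith
    have e4 : 2 / 5 * s * ‖wd (jv X z 1) w‖ ≤ 2 / 5 * s * (56 * Q ^ 3) := by
      calc 2 / 5 * s * ‖wd (jv X z 1) w‖ ≤ ‖hm (FF X z) w‖ * ‖wd (jv X z 1) w‖ := by gcongr
        _ ≤ 6 * Q ^ 3 * s + 8 * s ^ 2 := by linarith
        _ = 2 / 5 * s * (15 * Q ^ 3 + 20 * s) := by ring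
        _ ≤ 2 / 5 * s * (56 * Q ^ 3) := by
            have : (0:ℝ) ≤ Q ^ 3 := by positivity
            gcongr
            linarith
    exact le_of_mul_le_mul_left e4 (by positivity)
  · have ht := target (F := FF X z) (G := jv X z 2) hw
    have hdj := deriv_Wc_zero_jv hd1 X hz
    have hj := hjet 2
    have e1 : ‖wd (FF X z) w‖ * Pool.Agent.H73.ES.nn (jv X z 2) ≤ 4 * s * ω * (2 * R * Real.sqrt d ^ 2) := by
      apply mul_le_mul r1 hj (Real.sqrt_nonneg _) (by positivity)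
    have e2 : 4 * s * ω * (2 * R * Real.sqrt d ^ 2) = 8 * s ^ 2 * Real.sqrt d := by
      rw [hω]; field_simp; ring
    have e3 : ‖wd (FF X z) (jv X z 2)‖ ≤ 1 / 2 * Q ^ 7 * Real.sqrt d := by
      have h5 : 2 * ‖wd (FF X z) (jv X z 2)‖ ≤ Q ^ 7 * Real.sqrt d := by
        calc 2 * ‖wd (FF X z) (jv X z 2)‖ = ‖deriv (Wc X z) 0‖ := by rw [hdj, norm_mul]; norm_num
          _ ≤ _ := n4
      linarith
    have hRQ : 20 * R ^ 2 ≤ Q ^ 7 := by
      have h6 : 256 * R ^ 3 ≤ Q := S.q3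
      have h7 : R ^ 2 ≤ R ^ 3 := pow_le_pow_right₀ hR (by norm_num)
      have h8 : Q ≤ Q ^ 7 := le_self_pow₀ (by linarith) (by norm_num)
      have h9 : 0 ≤ R ^ 3 := by positivity
      linarith
    have e5 : 20 * s ^ 2 ≤ Q ^ 7 := by
      have : s ^ 2 ≤ R ^ 2 := pow_le_pow_left₀ hs.le hsR 2
      linarith
    have e4 : 2 / 5 * s * ‖wd (jv X z 2) w‖ ≤ 2 / 5 * s * (3 * Q ^ 7 * Real.sqrt d / s) := by
      calc 2 / 5 * s * ‖wd (jv X z 2) w‖ ≤ ‖hm (FF X z) w‖ * ‖wd (jv X z 2) w‖ := by gcongr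
        _ ≤ 1 / 2 * Q ^ 7 * Real.sqrt d + 8 * s ^ 2 * Real.sqrt d := by linarith
        _ = 2 / 5 * ((5 / 4 * Q ^ 7 + 20 * s ^ 2) * Real.sqrt d) := by ring
        _ ≤ 2 / 5 * ((5 / 4 * Q ^ 7 + Q ^ 7) * Real.sqrt d) := by gcongr
        _ ≤ 2 / 5 * (3 * Q ^ 7 * Real.sqrt d) := by
            have h0 : 0 ≤ Q ^ 7 * Real.sqrt d := by positivity
            nlinarith
        _ = 2 / 5 * s * (3 * Q ^ 7 * Real.sqrt d / s) := by field_simp
    exact le_of_mul_le_mul_left e4 (by positivity)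

end Pool.Agent.H47.SG
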