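import Pool.Agent.H47.SG.Sq
import Pool.Agent.H47.SF.Bnd
import Pool.Agent.H47.SF.C2
import Pool.Agent.H47.SF.Bc

/-!
# [H47 SG NDQ] the nondegeneracy (E2) fails only near special net points, version with a parameter `Q`

Copy of H47/SF/Nd.lean.
-/

set_option autoImplicit false

open Finset
open Pool.H70.SF

namespace Pool.Agent.H47.SG

open Pool.Agent.H47.SF

private lemma nf1 {R Q : ℝ} (hR : 1 ≤ R) (h : 256 * R ^ 3 ≤ Q) : 8 * R ^ 2 ≤ Q := by
  have h1 : R ^ 2 ≤ R ^ 3 := pow_le_pow_right₀ hR (by norm_num)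
  have h2 : 0 ≤ R ^ 3 := by positivity
  linarith

private lemma nf2 {L x : ℝ} (hL : 1 ≤ L) (hx : 0 < x) : 2 * x * (3 * L) ≤ 1 * ((7 * L - 1) * x) := by
  have h1 : 1 * x ≤ L * x := mul_le_mul_of_nonneg_right hL hx.le
  linarith

private lemma nf3 {l t : ℝ} (h0 : 0 ≤ l) (h : l ^ 2 * (1 + t ^ 2) = 1) : l ≤ 1 := by
  have h1 : 0 ≤ l ^ 2 * t ^ 2 := by positivity
  have h2 : l ^ 2 ≤ 1 := by linarith
  exact (sq_le_one_iff₀ h0).1 h2

private lemma nf4 {R L : ℝ} (hR : 0 < R) (hL : 0 < L) : 3 * (3 * 112 * R * L) ≤ R * (1100 * L) := by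
  have := mul_pos hR hL
  linarith

private lemma nf5 {w : ℝ} (h0 : 0 ≤ w) (h : w ≤ 1 / 10) : w ^ 2 ≤ 1 :=
  (sq_le_one_iff₀ h0).2 (by linarith)

private lemma nf6 {s R Q L ν : ℝ} (hs : 0 < s) (hR : 0 < R) (hL : 0 < L) (hνR : ν ≤ R) (hQ : 1 ≤ Q ^ 2) :
    s * ν * (112 * L) ≤ 1 * (112 * R * s * Q ^ 2 * L) := by
  have h1 : s * ν * (112 * L) ≤ s * R * (112 * L) := by gcongr
  have h2 : s * R * (112 * L) ≤ (s * R * (112 * L)) * Q ^ 2 :=
    le_mul_of_one_le_right (by positivity) hQ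
  linarith

theorem nd_fail {d : ℕ} {Q R : ℝ} {X : CV d} (S : Sq Q R d) (hi : ∀ u, IsU u → nuF X u ≤ R)
    (lo : ∀ u, IsU u → (d : ℝ)⁻¹ ≤ nuF X u) {u : ℂ × ℂ} (hu : IsU u) (ha : ‖aa X u‖ * nuF X u < Q ^ 3)
    (hno : ∀ t : ℂ, ‖t‖ < nuF X u / (16 * R * Real.sqrt d * Q ^ 2) → Wc X u t ≠ 0) {z : ℂ × ℂ} (hz : IsU z)
    (h : ‖wd u z‖ ≤ nuF X u / (500 * R * Real.sqrt d * Q ^ 2 * Real.log d)) :
    nuF X u / 2 ≤ nuF X z ∧ nuF X z ≤ 2 * nuF X u ∧ ‖Wc X z 0‖ ≤ 3 * Q ^ 3 * nuF X u ∧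
      ‖deriv (Wc X z) 0‖ ≤ Q ^ 7 * Real.sqrt d := by
  set ν := nuF X u with hν
  set s := Real.sqrt d with hs
  set L := Real.log d with hL
  have hQ4 : 4 ≤ Q := le_trans (by norm_num) S.q1
  have hdQ : (Q : ℝ) ≤ d := (le_self_pow₀ (by linarith) (by norm_num)).trans S.qd
  have hd4 : (4 : ℝ) ≤ d := hQ4.trans hdQ
  have hd1 : 1 ≤ d := by
    have := S.d2
    omega
  have hs2 : s ^ 2 = d := Real.sq_sqrt (by linarith)
  have hs1 : 1 ≤ s := by
    rw [hs, Real.one_le_sqrt]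
    linarith
  have hR := S.R1
  have hL1 : 1 ≤ L := by
    rw [hL, Real.le_log_iff_exp_le (by linarith)]
    have := Real.exp_one_lt_d9
    linarith
  have hνR : ν ≤ R := hi u hu
  have hνd : (d : ℝ)⁻¹ ≤ ν := lo u hu
  have hν0 : 0 < ν := lt_of_lt_of_le (by positivity) hνd
  have hQ0 : 0 < Q := by linarith
  have hs0 : 0 < s := by linarith
  have hR0 : 0 < R := by linarith
  have hL0 : 0 < L := by linarith
  set x : ℝ := ν / (112 * R * s * Q ^ 2 * L) with hx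
  have hx0 : 0 < x := by positivity
  have hR1x : ν / (16 * R * s * Q ^ 2) = 7 * L * x := by
    rw [hx]
    field_simp
    norm_num
  have hQ2 : 1 ≤ Q ^ 2 := one_le_pow₀ (by linarith)
  have hsx : s * x ≤ 1 / (112 * L) := by
    rw [hx, ← mul_div_assoc, div_le_div_iff₀ (by positivity) (by positivity)]
    exact nf6 hs0 hR0 hL0 hνR hQ2
  have hsx' : s * x ≤ 1 / 112 := by
    refine hsx.trans ?_
    exact one_div_le_one_div_of_le (by norm_num) (by linarith)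
  set w : ℝ := Q ^ 3 * ν with hw
  have hw0 : 0 < w := by positivity
  set W : ℂ → ℂ := Wc X u with hW
  have hW0 : ‖W 0‖ ≤ w := by
    rw [hW, aa_zero_chart X hν0, hw]
    calc ‖aa X u‖ * nuF X u ^ 2 = (‖aa X u‖ * nuF X u) * nuF X u := by ring
      _ ≤ Q ^ 3 * ν := mul_le_mul_of_nonneg_right ha.le hν0.le
  have hWM : ∀ t : ℂ, ‖t‖ < 7 * L * x → ‖W t‖ ≤ max (8 * R ^ 2 * s) w := by
    intro t ht
    refine (bndW hd1 hR0.le hi hu ?_).trans (le_max_left _ _)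
    have h1 : ‖t‖ * s ≤ 7 * L * x * s := mul_le_mul_of_nonneg_right ht.le hs0.le
    have h2 : 7 * L * x * s ≤ 7 * L * (1 / (112 * L)) := by
      calc 7 * L * x * s = 7 * L * (s * x) := by ring
        _ ≤ _ := by gcongr
    have h3 : 7 * L * (1 / (112 * L)) = 1 / 16 := by field_simp; norm_num
    rw [h3] at h2
    linarith
  have hMw : max (8 * R ^ 2 * s) w ≤ (d : ℝ) ^ 3 * w := by
    apply max_le
    · have h1 : 8 * R ^ 2 ≤ Q := nf1 hR S.q3
      have h2 : (1 : ℝ) ≤ (d : ℝ) * ν := by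
        have := mul_le_mul_of_nonneg_left hνd (by linarith : (0 : ℝ) ≤ d)
        rwa [mul_inv_cancel₀ (by linarith)] at this
      have h3 : (1 : ℝ) ≤ (d : ℝ) ^ 1 * ((d : ℝ) * ν) := one_le_mul_of_one_le_of_one_le (by linarith) h2
      calc 8 * R ^ 2 * s ≤ Q * s := by gcongr
        _ ≤ Q ^ 3 * s ^ 2 := by
          have e1 : Q ≤ Q ^ 3 := le_self_pow₀ (by linarith) (by norm_num)
          have e2 : s ≤ s ^ 2 := le_self_pow₀ hs1 (by norm_num)
          exact mul_le_mul e1 e2 hs0.le (by positivity)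
        _ ≤ (Q ^ 3 * s ^ 2) * ((d : ℝ) ^ 1 * ((d : ℝ) * ν)) := le_mul_of_one_le_right (by positivity) h3
        _ = (d : ℝ) ^ 3 * w := by rw [hs2, hw]; ring
    · exact le_mul_of_one_le_left hw0.le (one_le_pow₀ (by linarith))
  have hWb : ∀ t : ℂ, ‖t‖ ≤ x → ‖W t‖ ≤ Real.exp 1 * w := by
    intro t ht
    refine bc_mono (W := W) (R1 := 7 * L * x) (M := max (8 * R ^ 2 * s) w) (w := w) (x := x)
      (Wc_diff X u).differentiableOn ?_ ?_ hw0 hW0 (le_max_right _ _) hx0.le ?_ (by positivity) ?_ ht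
    · intro t ht
      rw [Metric.mem_ball, dist_zero_right] at ht
      apply hno
      rw [hR1x]
      exact ht
    · intro t ht
      rw [Metric.mem_ball, dist_zero_right] at ht
      exact hWM t ht
    · have : 3 * x ≤ 7 * (1 * x) := by linarith
      calc 3 * x ≤ 7 * (1 * x) := this
        _ ≤ 7 * (L * x) := by gcongr
        _ = _ := by ring
    · have h1 : 2 * x / (7 * L * x - x) ≤ 1 / (3 * L) := by
        have e : 7 * L * x - x = (7 * L - 1) * x := by ring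
        rw [e, div_le_div_iff₀ (mul_pos (by linarith) hx0) (by positivity)]
        exact nf2 hL1 hx0
      have h2 : Real.log (max (8 * R ^ 2 * s) w / w) ≤ 3 * L := by
        have h3 : max (8 * R ^ 2 * s) w / w ≤ (d : ℝ) ^ 3 := by
          rw [div_le_iff₀ hw0]
          exact hMw
        have h4 := Real.log_le_log (div_pos (lt_of_lt_of_le hw0 (le_max_right _ _)) hw0) h3
        rw [Real.log_pow] at h4
        rw [hL]
        exact_mod_cast h4
      have h5 : 0 ≤ Real.log (max (8 * R ^ 2 * s) w / w) := Real.log_nonneg (by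
        rw [le_div_iff₀ hw0, one_mul]
        exact le_max_right _ _)
      calc 2 * x / (7 * L * x - x) * Real.log (max (8 * R ^ 2 * s) w / w)
          ≤ (1 / (3 * L)) * (3 * L) := mul_le_mul h1 h2 h5 (by positivity)
        _ = 1 := by field_simp
  have hWd : ∀ t : ℂ, ‖t‖ ≤ x / 2 → ‖deriv W t‖ ≤ Real.exp 1 * w / (x / 2) := by
    intro t ht
    refine Complex.norm_deriv_le_of_forall_mem_sphere_norm_le (by positivity)
      (Wc_diff X u).diffContOnCl ?_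
    intro y hy
    rw [mem_sphere_iff_norm] at hy
    apply hWb
    have := norm_add_le (y - t) t
    rw [sub_add_cancel] at this
    linarith
  have hwz : ‖wd u z‖ ≤ 112 / 500 * x := by
    refine h.trans (le_of_eq ?_)
    rw [hx]
    field_simp
  have hxs : x ≤ 1 / 112 := by
    have : 1 * x ≤ s * x := mul_le_mul_of_nonneg_right hs1 hx0.le
    linarith
  have hwz1 : ‖wd u z‖ ≤ 1 / 10 := by linarith
  obtain ⟨lam, t, hzt, hlt, hwt⟩ := exists_chart hu hz (by linarith)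
  have hwn : ‖lam‖ * ‖t‖ = ‖wd u z‖ := by rw [hwt, norm_mul]
  have ht1 := t_le hlt hwn hwz1
  have htx : ‖t‖ ≤ x / 4 := by
    refine ht1.trans ?_
    linarith
  have hst : s * ‖t‖ ≤ 1 / 448 := by
    have : s * ‖t‖ ≤ s * (x / 4) := by gcongr
    linarith
  have hlam0 : 0 ≤ ‖lam‖ := norm_nonneg _
  have hlam1 : ‖lam‖ ≤ 1 := nf3 hlam0 hlt
  -- comparison of `|F|`
  have hD := bndD hd1 hR0.le hi hu (t := t) (by
    have e : 2 * ‖t‖ * Real.sqrt d = 2 * (s * ‖t‖) := by rw [hs]; ring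
    rw [e]
    linarith)
  have hnear := nu_near (θ := 1 / 4) (u := u) (w := u + t • pp u) (hD.trans (by
    have h1 : 4 * R * s * ‖t‖ ≤ 4 * R * s * (x / 4) := by gcongr
    refine h1.trans ?_
    have h2 : 4 * R * s * (x / 4) = ν / (112 * Q ^ 2 * L) := by
      rw [hx]
      field_simp
    rw [h2, div_le_iff₀ (by positivity)]
    have h3 : 1 ≤ Q ^ 2 * L := one_le_mul_of_one_le_of_one_le hQ2 hL1
    have h4 : 1 / 4 * ν * (112 * Q ^ 2 * L) = 28 * (ν * (Q ^ 2 * L)) := by ring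
    rw [← hν, h4]
    have h5 : ν ≤ ν * (Q ^ 2 * L) := le_mul_of_one_le_right hν0.le h3
    linarith))
  rw [← hν] at hnear
  have hnz : nuF X z = ‖lam‖ ^ d * nuF X (u + t • pp u) := by rw [hzt, nuF_smul]
  have hld1 : ‖lam‖ ^ d ≤ 1 := pow_le_one₀ hlam0 hlam1
  have hld2 : 2 / 3 ≤ ‖lam‖ ^ d := by
    have h1 : (‖lam‖ ^ 2) ^ d ≤ ‖lam‖ ^ d := by
      rw [← pow_mul]
      exact pow_le_pow_of_le_one hlam0 hlam1 (by omega)
    refine le_trans ?_ h1
    have h2 : ‖lam‖ ^ 2 = 1 + -(‖wd u z‖ ^ 2) := by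
      rw [← hwn, mul_pow]
      linarith
    rw [h2]
    have h3 : ‖wd u z‖ ^ 2 ≤ 1 := nf5 (norm_nonneg _) hwz1
    have h4 := one_add_mul_le_pow (a := -(‖wd u z‖ ^ 2)) (by linarith) d
    refine le_trans ?_ h4
    have h5 : (d : ℝ) * ‖wd u z‖ ^ 2 = (s * ‖wd u z‖) ^ 2 := by rw [mul_pow, hs2]
    have h6 : s * ‖wd u z‖ ≤ 1 / 112 := by
      have : s * ‖wd u z‖ ≤ s * (112 / 500 * x) := by gcongr
      linarith
    have h7 : (s * ‖wd u z‖) ^ 2 ≤ (1 / 112) ^ 2 :=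
      pow_le_pow_left₀ (by positivity) h6 2
    rw [← h5] at h7
    linarith
  have hwp : 0 ≤ nuF X (u + t • pp u) := nuF_nonneg _ _
  have hc2 := c2_gen S.d2 X hu (lam := lam) (t := t) hlt
  rw [← hzt] at hc2
  have hWt := hWb t (by linarith)
  have he3 : Real.exp 1 ≤ 3 := by
    have := Real.exp_one_lt_d9
    linarith
  have hWz : ‖Wc X z 0‖ ≤ Real.exp 1 * w := hc2.2.trans hWt
  refine ⟨?_, ?_, ?_, ?_⟩
  · rw [hnz]
    calc ν / 2 = 2 / 3 * ((1 - 1 / 4) * ν) := by ring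
      _ ≤ ‖lam‖ ^ d * nuF X (u + t • pp u) :=
        mul_le_mul hld2 hnear.1 (by positivity) (by positivity)
  · rw [hnz]
    calc ‖lam‖ ^ d * nuF X (u + t • pp u) ≤ 1 * ((1 + 1 / 4) * ν) :=
        mul_le_mul hld1 hnear.2 hwp (by norm_num)
      _ ≤ 2 * ν := by linarith
  · refine hWz.trans ?_
    calc Real.exp 1 * w ≤ 3 * w := mul_le_mul_of_nonneg_right he3 hw0.le
      _ = _ := by rw [hw]; ring
  · have h1 := hWd t (by linarith)
    have h2 : 2 * (d : ℝ) * ‖t‖ * ‖Wc X z 0‖ ≤ Real.exp 1 * w / x := by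
      have h3 : 2 * (d : ℝ) * ‖t‖ ≤ 1 / x := by
        rw [le_div_iff₀ hx0, ← hs2]
        calc 2 * s ^ 2 * ‖t‖ * x = 2 * (s * ‖t‖) * (s * x) := by ring
          _ ≤ 2 * (1 / 448) * (1 / 112) := by gcongr
          _ ≤ 1 := by norm_num
      calc 2 * (d : ℝ) * ‖t‖ * ‖Wc X z 0‖ ≤ (1 / x) * (Real.exp 1 * w) :=
          mul_le_mul h3 hWz (norm_nonneg _) (by positivity)
        _ = _ := by ring
    refine hc2.1.trans ((add_le_add h1 h2).trans ?_)
    have h4 : Real.exp 1 * w / (x / 2) + Real.exp 1 * w / x = 3 * (Real.exp 1 * w / x) := by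
      field_simp
      ring
    rw [h4]
    have h5 : Real.exp 1 * w / x = Real.exp 1 * 112 * R * L * (Q ^ 5 * s) := by
      rw [hx, hw]
      field_simp
    rw [h5]
    have h6 : 3 * (Real.exp 1 * 112 * R * L) ≤ Q ^ 2 := by
      have hRQ : R ≤ Q := (le_self_pow₀ hR (by norm_num)).trans S.Rq
      have hLQ : 1100 * L ≤ Q := by
        have := S.q4
        rw [← hL] at this
        linarith
      calc 3 * (Real.exp 1 * 112 * R * L) ≤ 3 * (3 * 112 * R * L) := by gcongr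
        _ ≤ R * (1100 * L) := nf4 hR0 hL0
        _ ≤ Q * Q := by gcongr
        _ = Q ^ 2 := by ring
    calc 3 * (Real.exp 1 * 112 * R * L * (Q ^ 5 * s))
        = (3 * (Real.exp 1 * 112 * R * L)) * (Q ^ 5 * s) := by ring
      _ ≤ Q ^ 2 * (Q ^ 5 * s) := by gcongr
      _ = _ := by ring

end Pool.Agent.H47.SG
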